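import Pool.Agent.Y273.GL.Strong

set_option autoImplicit false
open MeasureTheory Set Filter Topology
open scoped ENNReal NNReal

namespace Pool.Agent.Y273.GL

/-- square of the area function of aperture `a` -/
noncomputable def AF (Ψ : ℝ × ℝ → ℝ≥0∞) (a : ℝ) (x : ℝ) : ℝ≥0∞ :=
  ∫⁻ q : ℝ × ℝ, Ψ q * (if x ∈ Ioo (q.1 - a * q.2) (q.1 + a * q.2) then 1 else 0)

lemma measurableSet_cone (a : ℝ) :
    MeasurableSet {p : ℝ × (ℝ × ℝ) | p.1 ∈ Ioo (p.2.1 - a * p.2.2) (p.2.1 + a * p.2.2)} := by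
  have h : {p : ℝ × (ℝ × ℝ) | p.1 ∈ Ioo (p.2.1 - a * p.2.2) (p.2.1 + a * p.2.2)} =
      {p | p.2.1 - a * p.2.2 < p.1} ∩ {p | p.1 < p.2.1 + a * p.2.2} := by
    ext p; simp [mem_Ioo]
  rw [h]
  exact (measurableSet_lt (by fun_prop) (by fun_prop)).inter
    (measurableSet_lt (by fun_prop) (by fun_prop))

lemma measurable_cone {Ψ : ℝ × ℝ → ℝ≥0∞} (hΨ : Measurable Ψ) (a : ℝ) :
    Measurable fun p : ℝ × (ℝ × ℝ) => Ψ p.2 *
      (if p.1 ∈ Ioo (p.2.1 - a * p.2.2) (p.2.1 + a * p.2.2) then 1 else 0) :=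
  (hΨ.comp measurable_snd).mul (Measurable.ite (measurableSet_cone a) measurable_const
    measurable_const)

lemma measurable_AF {Ψ : ℝ × ℝ → ℝ≥0∞} (hΨ : Measurable Ψ) (a : ℝ) : Measurable (AF Ψ a) :=
  (measurable_cone hΨ a).lintegral_prod_right'

/-- Tonelli -/
lemma lintegral_AF {Ψ : ℝ × ℝ → ℝ≥0∞} (hΨ : Measurable Ψ) (a : ℝ) (μ : Measure ℝ) [SFinite μ]
    (E : Set ℝ) :
    ∫⁻ x in E, AF Ψ a x ∂μ =
      ∫⁻ q : ℝ × ℝ, Ψ q * μ (E ∩ Ioo (q.1 - a * q.2) (q.1 + a * q.2)) := by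
  unfold AF
  rw [lintegral_lintegral_swap (measurable_cone hΨ a).aemeasurable]
  apply lintegral_congr
  intro q
  have h1 : Measurable fun x : ℝ =>
      (if x ∈ Ioo (q.1 - a * q.2) (q.1 + a * q.2) then (1:ℝ≥0∞) else 0) :=
    Measurable.ite measurableSet_Ioo measurable_const measurable_const
  rw [lintegral_const_mul _ h1]
  congr 1
  have h2 : (fun x : ℝ => (if x ∈ Ioo (q.1 - a * q.2) (q.1 + a * q.2) then (1:ℝ≥0∞) else 0)) =
      (Ioo (q.1 - a * q.2) (q.1 + a * q.2)).indicator 1 := by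
    funext x
    by_cases hx : x ∈ Ioo (q.1 - a * q.2) (q.1 + a * q.2)
    · rw [if_pos hx, indicator_of_mem hx]; rfl
    · rw [if_neg hx, indicator_of_notMem hx]
  rw [h2, lintegral_indicator_one measurableSet_Ioo, Measure.restrict_apply measurableSet_Ioo,
    inter_comm]

/-- comparison of measures of cones' traces off the exceptional set -/
lemma meas_cmp (μ : Measure ℝ) {D : ℝ≥0∞} (hD0 : D ≠ 0) (hDt : D ≠ ⊤) {a : ℝ} (ha : 1 ≤ a)
    (hfin : ∀ b c : ℝ, μ (Ioo b c) ≠ ⊤)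
    (hD : ∀ z y : ℝ, 0 < y → μ (Ioo (z - a * y) (z + a * y)) ≤ D * μ (Ioo (z - 1 * y) (z + 1 * y)))
    {O : Set ℝ} (hO : MeasurableSet O) (z y : ℝ) :
    μ ({x | (2 * D)⁻¹ < MF μ (O.indicator 1) x}ᶜ ∩ Ioo (z - a * y) (z + a * y)) ≤
      2 * D * μ (Oᶜ ∩ Ioo (z - 1 * y) (z + 1 * y)) := by
  set J := Ioo (z - a * y) (z + a * y) with hJ
  set I := Ioo (z - 1 * y) (z + 1 * y) with hI
  rcases le_or_gt y 0 with hy | hy
  · have : J = ∅ := by
      rw [hJ, Ioo_eq_empty_iff]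
      push Not
      nlinarith
    rw [this]; simp
  rcases ({x | (2 * D)⁻¹ < MF μ (O.indicator 1) x}ᶜ ∩ J).eq_empty_or_nonempty with h0 | ⟨x, hx⟩
  · rw [h0]; simp
  have hDD0 : 2 * D ≠ 0 := mul_ne_zero two_ne_zero hD0
  have hDDt : 2 * D ≠ ⊤ := ENNReal.mul_ne_top ENNReal.ofNat_ne_top hDt
  have h1 : (∫⁻ t in J, O.indicator 1 t ∂μ) / μ J ≤ (2 * D)⁻¹ := by
    refine (le_MF μ (O.indicator 1) hx.2).trans ?_
    have := hx.1
    simpa using this
  have h2 : ∫⁻ t in J, O.indicator 1 t ∂μ = μ (O ∩ J) := by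
    rw [lintegral_indicator_one hO, Measure.restrict_apply hO]
  rw [h2] at h1
  have h3 : μ (O ∩ J) ≤ (2 * D)⁻¹ * μ J := by
    rcases eq_or_ne (μ J) 0 with hJ0 | hJ0
    · have : μ (O ∩ J) = 0 := measure_mono_null inter_subset_right hJ0
      rw [this]; exact bot_le
    · exact (ENNReal.div_le_iff hJ0 (hfin _ _)).1 h1
  have h4 : μ (O ∩ J) ≤ μ I / 2 := by
    calc μ (O ∩ J) ≤ (2 * D)⁻¹ * μ J := h3
      _ ≤ (2 * D)⁻¹ * (D * μ I) := by gcongr; exact hD z y hy
      _ = μ I / 2 := by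
        rw [ENNReal.mul_inv (Or.inl two_ne_zero) (Or.inl ENNReal.ofNat_ne_top)]
        rw [← mul_assoc, mul_assoc 2⁻¹, ENNReal.inv_mul_cancel hD0 hDt, mul_one, mul_comm,
          ENNReal.div_eq_inv_mul, mul_comm]
  have hIJ : I ⊆ J := by
    intro t ht
    rw [hI, mem_Ioo] at ht
    rw [hJ, mem_Ioo]
    constructor <;> nlinarith [ht.1, ht.2]
  have h5 : μ I = μ (O ∩ I) + μ (Oᶜ ∩ I) := by
    rw [← measure_inter_add_sdiff I hO, inter_comm, sdiff_eq, inter_comm I Oᶜ]
  have h6 : μ I / 2 ≤ μ (Oᶜ ∩ I) := by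
    have h7 : μ I / 2 + μ I / 2 ≤ μ I / 2 + μ (Oᶜ ∩ I) := by
      rw [ENNReal.add_halves]
      calc μ I = μ (O ∩ I) + μ (Oᶜ ∩ I) := h5
        _ ≤ μ I / 2 + μ (Oᶜ ∩ I) := by
          gcongr
          exact (measure_mono (inter_subset_inter_right O hIJ)).trans h4
    have hne : μ I / 2 ≠ ⊤ := (ENNReal.div_lt_top (hfin _ _) two_ne_zero).ne
    exact (ENNReal.add_le_add_iff_left hne).1 h7
  calc μ ({x | (2 * D)⁻¹ < MF μ (O.indicator 1) x}ᶜ ∩ J) ≤ μ J := measure_mono inter_subset_right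
    _ ≤ D * μ I := hD z y hy
    _ = 2 * D * (μ I / 2) := by
      rw [mul_comm 2 D, mul_assoc, ENNReal.mul_div_cancel two_ne_zero ENNReal.ofNat_ne_top]
    _ ≤ 2 * D * μ (Oᶜ ∩ I) := by gcongr

/-- `∫_F^∞ q t^{q-2} dt = q/(1-q) F^{q-1}` in the form needed -/
lemma tail_int {q : ℝ} (hq0 : 0 < q) (hq1 : q < 1) (F : ℝ≥0∞) :
    F * ∫⁻ t in Ioi (0:ℝ), ENNReal.ofReal (q * t ^ (q - 2)) *
      (if F ≤ ENNReal.ofReal t then 1 else 0) ≤ ENNReal.ofReal (q / (1 - q)) * F ^ q := by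
  rcases eq_or_ne F 0 with rfl | hF0
  · simp
  rcases eq_or_ne F ⊤ with rfl | hFt
  · rw [ENNReal.top_rpow_of_pos hq0]
    rw [ENNReal.mul_top]
    · exact le_top
    · rw [Ne, ENNReal.ofReal_eq_zero]
      push Not
      exact div_pos hq0 (by linarith)
  set G : ℝ := F.toReal with hG
  have hG0 : 0 < G := ENNReal.toReal_pos hF0 hFt
  have hFG : F = ENNReal.ofReal G := (ENNReal.ofReal_toReal hFt).symm
  have h1 : ∫⁻ t in Ioi (0:ℝ), ENNReal.ofReal (q * t ^ (q - 2)) *
      (if F ≤ ENNReal.ofReal t then 1 else 0) ≤ ∫⁻ t in Ici G, ENNReal.ofReal (q * t ^ (q - 2)) := by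
    rw [← lintegral_indicator measurableSet_Ioi, ← lintegral_indicator measurableSet_Ici]
    apply lintegral_mono
    intro t
    simp only
    by_cases ht : 0 < t
    · rw [indicator_of_mem (mem_Ioi.2 ht)]
      split_ifs with h
      · rw [mul_one, indicator_of_mem]
        rw [hFG] at h
        exact (ENNReal.ofReal_le_ofReal_iff ht.le).1 h
      · simp
    · rw [indicator_of_notMem (show t ∉ Ioi (0:ℝ) from ht)]
      exact bot_le
  have h2 : ∫⁻ t in Ici G, ENNReal.ofReal (q * t ^ (q - 2)) =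
      ENNReal.ofReal (q / (1 - q) * G ^ (q - 1)) := by
    rw [setLIntegral_congr Ioi_ae_eq_Ici.symm]
    have hint : IntegrableOn (fun t : ℝ => q * t ^ (q - 2)) (Ioi G) :=
      (integrableOn_Ioi_rpow_of_lt (by linarith) hG0).const_mul q
    rw [← ofReal_integral_eq_lintegral_ofReal hint]
    · congr 1
      rw [integral_const_mul, integral_Ioi_rpow_of_lt (by linarith) hG0]
      have : q - 2 + 1 = q - 1 := by ring
      rw [this]
      have h3 : q - 1 ≠ 0 := by linarith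
      have h4 : 1 - q ≠ 0 := by linarith
      field_simp
      ring
    · rw [EventuallyLE, ae_restrict_iff' measurableSet_Ioi]
      refine Eventually.of_forall fun t ht => ?_
      have : 0 < t := hG0.trans ht
      positivity
  calc F * ∫⁻ t in Ioi (0:ℝ), ENNReal.ofReal (q * t ^ (q - 2)) *
      (if F ≤ ENNReal.ofReal t then 1 else 0) ≤
        ENNReal.ofReal G * ENNReal.ofReal (q / (1 - q) * G ^ (q - 1)) := by
        rw [← hFG]
        gcongr
        exact h1.trans h2.le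
    _ = ENNReal.ofReal (q / (1 - q)) * F ^ q := by
        rw [hFG, ← ENNReal.ofReal_mul hG0.le, ENNReal.ofReal_rpow_of_pos hG0,
          ← ENNReal.ofReal_mul (div_pos hq0 (by linarith)).le]
        congr 1
        have : G ^ q = G * G ^ (q - 1) := by
          nth_rewrite 2 [← Real.rpow_one G]
          rw [← Real.rpow_add hG0]
          congr 1; ring
        rw [this]; ring

/-- change of aperture below the exponent two -/
theorem aper {q : ℝ} (hq0 : 0 < q) (hq1 : q < 1) {Ψ : ℝ × ℝ → ℝ≥0∞} (hΨ : Measurable Ψ)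
    (μ : Measure ℝ) [SFinite μ] {D : ℝ≥0∞} (hD0 : D ≠ 0) (hDt : D ≠ ⊤) {a : ℝ} (ha : 1 ≤ a)
    (hfin : ∀ b c : ℝ, μ (Ioo b c) ≠ ⊤)
    (hD : ∀ z y : ℝ, 0 < y → μ (Ioo (z - a * y) (z + a * y)) ≤ D * μ (Ioo (z - 1 * y) (z + 1 * y))) :
    ∫⁻ x, AF Ψ a x ^ q ∂μ ≤
      ENNReal.ofReal (4 + 2 * (q / (1 - q))) * D * ∫⁻ x, AF Ψ 1 x ^ q ∂μ := by
  have hm1 := measurable_AF hΨ 1
  have hma := measurable_AF hΨ a
  have hDD0 : 2 * D ≠ 0 := mul_ne_zero two_ne_zero hD0
  have hDDt : 2 * D ≠ ⊤ := ENNReal.mul_ne_top ENNReal.ofNat_ne_top hDt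
  -- the distributional inequality
  have hdist : ∀ t : ℝ, 0 < t → μ {x | ENNReal.ofReal t < AF Ψ a x} ≤
      4 * D * μ {x | ENNReal.ofReal t < AF Ψ 1 x} +
        2 * D * ((ENNReal.ofReal t)⁻¹ * ∫⁻ x in {x | ENNReal.ofReal t < AF Ψ 1 x}ᶜ, AF Ψ 1 x ∂μ) := by
    intro t ht
    set O := {x | ENNReal.ofReal t < AF Ψ 1 x} with hO
    have hOm : MeasurableSet O := measurableSet_lt measurable_const hm1
    set Os := {x | (2 * D)⁻¹ < MF μ (O.indicator 1) x} with hOs
    have hOsm : MeasurableSet Os := (isOpen_lt_MF _ _ _).measurableSet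
    have hbt : ENNReal.ofReal t ≠ 0 := by
      rw [Ne, ENNReal.ofReal_eq_zero]; push Not; exact ht
    have h1 : μ Os ≤ 4 * D * μ O := by
      have h2 := weak_type μ (f := O.indicator 1) (measurable_one.indicator hOm) (2 * D)⁻¹
      rw [lintegral_indicator_one hOm] at h2
      have h3 : μ Os ≤ 2 * μ O / (2 * D)⁻¹ := by
        rw [ENNReal.le_div_iff_mul_le (Or.inl (ENNReal.inv_ne_zero.2 hDDt))
          (Or.inl (ENNReal.inv_ne_top.2 hDD0)), mul_comm]
        exact h2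
      refine h3.trans (le_of_eq ?_)
      rw [div_eq_mul_inv, inv_inv]
      ring
    have h4 : ∫⁻ x in Osᶜ, AF Ψ a x ∂μ ≤ 2 * D * ∫⁻ x in Oᶜ, AF Ψ 1 x ∂μ := by
      rw [lintegral_AF hΨ a μ Osᶜ, lintegral_AF hΨ 1 μ Oᶜ,
        ← lintegral_const_mul' _ _ hDDt]
      apply lintegral_mono
      intro q
      simp only
      calc Ψ q * μ (Osᶜ ∩ Ioo (q.1 - a * q.2) (q.1 + a * q.2)) ≤
          Ψ q * (2 * D * μ (Oᶜ ∩ Ioo (q.1 - 1 * q.2) (q.1 + 1 * q.2))) := by
            gcongr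
            exact meas_cmp μ hD0 hDt ha hfin hD hOm q.1 q.2
        _ = _ := by ring
    have h5 : μ ({x | ENNReal.ofReal t < AF Ψ a x} ∩ Osᶜ) ≤
        (ENNReal.ofReal t)⁻¹ * ∫⁻ x in Osᶜ, AF Ψ a x ∂μ := by
      have h6 := mul_meas_ge_le_lintegral (μ := μ.restrict Osᶜ) hma (ENNReal.ofReal t)
      rw [mul_comm, ← ENNReal.le_div_iff_mul_le (Or.inl hbt) (Or.inl ENNReal.ofReal_ne_top),
        div_eq_mul_inv, mul_comm] at h6
      refine le_trans ?_ h6
      rw [Measure.restrict_apply (measurableSet_le measurable_const hma)]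
      apply measure_mono
      rintro x ⟨hx1, hx2⟩
      have hx3 : ENNReal.ofReal t < AF Ψ a x := hx1
      exact ⟨hx3.le, hx2⟩
    calc μ {x | ENNReal.ofReal t < AF Ψ a x}
        ≤ μ (Os ∪ ({x | ENNReal.ofReal t < AF Ψ a x} ∩ Osᶜ)) := by
          apply measure_mono
          intro x hx
          by_cases hxO : x ∈ Os
          · exact Or.inl hxO
          · exact Or.inr ⟨hx, hxO⟩
      _ ≤ μ Os + μ ({x | ENNReal.ofReal t < AF Ψ a x} ∩ Osᶜ) := measure_union_le _ _
      _ ≤ 4 * D * μ O + (ENNReal.ofReal t)⁻¹ * (2 * D * ∫⁻ x in Oᶜ, AF Ψ 1 x ∂μ) := by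
          gcongr
          exact h5.trans (by gcongr)
      _ = _ := by ring
  -- layer cake
  have hl1 := lintegral_layer μ hma hq0 (g := fun _ => 1) measurable_const
  have hl2 := lintegral_layer μ hm1 hq0 (g := fun _ => 1) measurable_const
  simp only [one_mul, lintegral_const, Measure.restrict_apply_univ] at hl1 hl2
  rw [hl1]
  have hmO : Measurable fun t : ℝ => ∫⁻ x in {x | ENNReal.ofReal t < AF Ψ 1 x}ᶜ, AF Ψ 1 x ∂μ := by
    have h1 : (fun t : ℝ => ∫⁻ x in {x | ENNReal.ofReal t < AF Ψ 1 x}ᶜ, AF Ψ 1 x ∂μ) =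
        fun t => ∫⁻ x, AF Ψ 1 x * (if AF Ψ 1 x ≤ ENNReal.ofReal t then 1 else 0) ∂μ := by
      funext t
      rw [← lintegral_indicator (measurableSet_lt measurable_const hm1).compl]
      apply lintegral_congr
      intro x
      by_cases hx : ENNReal.ofReal t < AF Ψ 1 x
      · rw [indicator_of_notMem (by simpa using hx), if_neg (not_le.2 hx), mul_zero]
      · rw [indicator_of_mem (by simpa using hx), if_pos (not_lt.1 hx), mul_one]
    rw [h1]
    apply Measurable.lintegral_prod_right' (f := fun p : ℝ × ℝ => AF Ψ 1 p.2 *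
      (if AF Ψ 1 p.2 ≤ ENNReal.ofReal p.1 then 1 else 0))
    apply (hm1.comp measurable_snd).mul
    exact Measurable.ite (measurableSet_le (hm1.comp measurable_snd)
      (ENNReal.measurable_ofReal.comp measurable_fst)) measurable_const measurable_const
  have hmI : Measurable fun t : ℝ => ENNReal.ofReal (q * t ^ (q - 1)) := by fun_prop
  calc ∫⁻ t in Ioi (0:ℝ), ENNReal.ofReal (q * t ^ (q - 1)) * μ {x | ENNReal.ofReal t < AF Ψ a x}
      ≤ ∫⁻ t in Ioi (0:ℝ), ((4 * D) * (ENNReal.ofReal (q * t ^ (q - 1)) *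
          μ {x | ENNReal.ofReal t < AF Ψ 1 x}) +
          (2 * D) * (ENNReal.ofReal (q * t ^ (q - 2)) *
            ∫⁻ x in {x | ENNReal.ofReal t < AF Ψ 1 x}ᶜ, AF Ψ 1 x ∂μ)) := by
        apply setLIntegral_mono' measurableSet_Ioi
        intro t ht
        have ht0 : 0 < t := ht
        have h1 : ENNReal.ofReal (q * t ^ (q - 1)) * (ENNReal.ofReal t)⁻¹ =
            ENNReal.ofReal (q * t ^ (q - 2)) := by
          rw [← ENNReal.ofReal_inv_of_pos ht0, ← ENNReal.ofReal_mul (by positivity)]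
          congr 1
          have : t ^ (q - 2) = t ^ (q - 1) * t⁻¹ := by
            rw [← Real.rpow_neg_one, ← Real.rpow_add ht0]
            congr 1; ring
          rw [this]; ring
        calc ENNReal.ofReal (q * t ^ (q - 1)) * μ {x | ENNReal.ofReal t < AF Ψ a x} ≤
            ENNReal.ofReal (q * t ^ (q - 1)) * (4 * D * μ {x | ENNReal.ofReal t < AF Ψ 1 x} +
            2 * D * ((ENNReal.ofReal t)⁻¹ *
              ∫⁻ x in {x | ENNReal.ofReal t < AF Ψ 1 x}ᶜ, AF Ψ 1 x ∂μ)) := by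
              gcongr
              exact hdist t ht0
          _ = (4 * D) * (ENNReal.ofReal (q * t ^ (q - 1)) *
            μ {x | ENNReal.ofReal t < AF Ψ 1 x}) +
            (2 * D) * ((ENNReal.ofReal (q * t ^ (q - 1)) * (ENNReal.ofReal t)⁻¹) *
            ∫⁻ x in {x | ENNReal.ofReal t < AF Ψ 1 x}ᶜ, AF Ψ 1 x ∂μ) := by ring
          _ = _ := by rw [h1]
    _ = 4 * D * (∫⁻ t in Ioi (0:ℝ), ENNReal.ofReal (q * t ^ (q - 1)) *
          μ {x | ENNReal.ofReal t < AF Ψ 1 x}) +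
          2 * D * ∫⁻ t in Ioi (0:ℝ), ENNReal.ofReal (q * t ^ (q - 2)) *
            ∫⁻ x in {x | ENNReal.ofReal t < AF Ψ 1 x}ᶜ, AF Ψ 1 x ∂μ := by
        rw [lintegral_add_right, lintegral_const_mul' _ _ hDDt,
          lintegral_const_mul' _ _ (ENNReal.mul_ne_top ENNReal.ofNat_ne_top hDt)]
        apply Measurable.const_mul
        apply Measurable.mul _ hmO
        fun_prop
    _ ≤ 4 * D * (∫⁻ x, AF Ψ 1 x ^ q ∂μ) +
          2 * D * (ENNReal.ofReal (q / (1 - q)) * ∫⁻ x, AF Ψ 1 x ^ q ∂μ) := by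
        rw [← hl2]
        gcongr
        -- Tonelli
        have h1 : ∀ t : ℝ, ENNReal.ofReal (q * t ^ (q - 2)) *
            ∫⁻ x in {x | ENNReal.ofReal t < AF Ψ 1 x}ᶜ, AF Ψ 1 x ∂μ =
            ∫⁻ x, AF Ψ 1 x * (ENNReal.ofReal (q * t ^ (q - 2)) *
              (if AF Ψ 1 x ≤ ENNReal.ofReal t then 1 else 0)) ∂μ := by
          intro t
          rw [← lintegral_indicator (measurableSet_lt measurable_const hm1).compl,
            ← lintegral_const_mul' _ _ ENNReal.ofReal_ne_top]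
          apply lintegral_congr
          intro x
          by_cases hx : ENNReal.ofReal t < AF Ψ 1 x
          · rw [indicator_of_notMem (by simpa using hx), if_neg (not_le.2 hx)]; simp
          · rw [indicator_of_mem (by simpa using hx), if_pos (not_lt.1 hx)]; ring
        simp_rw [h1]
        rw [lintegral_lintegral_swap]
        · rw [← lintegral_const_mul' _ _ ENNReal.ofReal_ne_top]
          apply lintegral_mono
          intro x
          simp only
          rw [lintegral_const_mul]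
          · exact tail_int hq0 hq1 (AF Ψ 1 x)
          · apply Measurable.mul
            · fun_prop
            · exact Measurable.ite (measurableSet_le measurable_const ENNReal.measurable_ofReal)
                measurable_const measurable_const
        · apply Measurable.aemeasurable
          apply (hm1.comp measurable_snd).mul
          apply Measurable.mul
          · fun_prop
          · exact Measurable.ite (measurableSet_le (hm1.comp measurable_snd)
              (ENNReal.measurable_ofReal.comp measurable_fst)) measurable_const measurable_const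
    _ = _ := by
        have hq2 : 0 ≤ q / (1 - q) := (div_pos hq0 (by linarith)).le
        rw [ENNReal.ofReal_add (by norm_num) (by positivity), ENNReal.ofReal_mul (by norm_num)]
        simp only [ENNReal.ofReal_ofNat]
        ring

end Pool.Agent.Y273.GL
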