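import Pool.Agent.Y273.GL.Strong

set_option autoImplicit false
open MeasureTheory Set Filter Topology
open scoped ENNReal NNReal

namespace Pool.Agent.Y273.GL

/-- measurable, everywhere positive and finite -/
structure Wt (W : ℝ → ℝ≥0∞) : Prop where
  meas : Measurable W
  pos : ∀ x, W x ≠ 0
  fin : ∀ x, W x ≠ ⊤

/-- the `A_p` condition with constant `K` -/
def ApB (p : ℝ) (W : ℝ → ℝ≥0∞) (K : ℝ≥0∞) : Prop :=
  ∀ a b : ℝ, a < b → (∫⁻ x in Ioo a b, W x) / volume (Ioo a b) *
    ((∫⁻ x in Ioo a b, W x ^ (-(1 / (p - 1)))) / volume (Ioo a b)) ^ (p - 1) ≤ K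

lemma vol_ne_zero {a b : ℝ} (h : a < b) : volume (Ioo a b) ≠ 0 := by
  rw [Real.volume_Ioo]
  simpa using h

lemma vol_ne_top {a b : ℝ} : volume (Ioo a b) ≠ ⊤ := by
  rw [Real.volume_Ioo]
  exact ENNReal.ofReal_ne_top

lemma Wt.rpow {W : ℝ → ℝ≥0∞} (h : Wt W) (s : ℝ) : Wt (fun x => W x ^ s) :=
  ⟨h.meas.pow_const s, fun x => by
    intro h0
    rcases ENNReal.rpow_eq_zero_iff.1 h0 with h1 | h1
    · exact h.pos x h1.1
    · exact h.fin x h1.1, fun x => by
    intro h0
    rcases ENNReal.rpow_eq_top_iff.1 h0 with h1 | h1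
    · exact h.pos x h1.1
    · exact h.fin x h1.1⟩

lemma Wt.int_ne_zero {W : ℝ → ℝ≥0∞} (h : Wt W) {a b : ℝ} (hab : a < b) :
    ∫⁻ x in Ioo a b, W x ≠ 0 := by
  intro h0
  rw [lintegral_eq_zero_iff h.meas] at h0
  have h1 : volume.restrict (Ioo a b) univ = 0 := by
    have h2 : (ae (volume.restrict (Ioo a b))).Eventually (fun _ => False) := by
      filter_upwards [h0] with x hx
      exact h.pos x hx
    rw [eventually_false_iff_eq_bot, ae_eq_bot] at h2
    rw [h2]; simp
  rw [Measure.restrict_apply_univ] at h1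
  exact vol_ne_zero hab h1

lemma ApB.fin {p : ℝ} (hp : 1 < p) {W : ℝ → ℝ≥0∞} (h : Wt W) {K : ℝ≥0∞} (hK : K ≠ ⊤)
    (hA : ApB p W K) {a b : ℝ} (hab : a < b) :
    ∫⁻ x in Ioo a b, W x ≠ ⊤ ∧ ∫⁻ x in Ioo a b, W x ^ (-(1 / (p - 1))) ≠ ⊤ := by
  have h1 := hA a b hab
  have hp1 : 0 < p - 1 := by linarith
  have h2 := h.int_ne_zero hab
  have h3 := (h.rpow (-(1 / (p - 1)))).int_ne_zero hab
  have hv0 := vol_ne_zero hab
  have hvt : volume (Ioo a b) ≠ ⊤ := vol_ne_top
  constructor
  · intro htop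
    rw [htop, ENNReal.top_div_of_ne_top hvt, ENNReal.top_mul] at h1
    · exact hK (top_le_iff.1 h1)
    · intro h0
      rcases ENNReal.rpow_eq_zero_iff.1 h0 with h4 | h4
      · exact (ENNReal.div_ne_zero.2 ⟨h3, hvt⟩) h4.1
      · linarith [h4.2]
  · intro htop
    rw [htop, ENNReal.top_div_of_ne_top hvt, ENNReal.top_rpow_of_pos hp1, ENNReal.mul_top] at h1
    · exact hK (top_le_iff.1 h1)
    · exact ENNReal.div_ne_zero.2 ⟨h2, hvt⟩

lemma lerner {p : ℝ} (hp : 1 < p) {W : ℝ → ℝ≥0∞} (h : Wt W) {K : ℝ≥0∞} (hK : K ≠ ⊤)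
    (hA : ApB p W K) {f : ℝ → ℝ≥0∞} (hf : Measurable f) (x : ℝ) :
    MF volume f x ^ (p - 1) ≤ K * MF (volume.withDensity W)
      (fun y => MF (volume.withDensity fun z => W z ^ (-(1 / (p - 1))))
        (fun z => f z * (W z ^ (-(1 / (p - 1))))⁻¹) y ^ (p - 1) * (W y)⁻¹) x := by
  have hp1 : 0 < p - 1 := by linarith
  set s : ℝ → ℝ≥0∞ := fun z => W z ^ (-(1 / (p - 1))) with hs
  have hsW : Wt s := h.rpow _
  set ms : Measure ℝ := volume.withDensity s with hms
  set F : ℝ → ℝ≥0∞ := fun z => f z * (s z)⁻¹ with hF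
  have hFm : Measurable F := hf.mul hsW.meas.inv
  set g : ℝ → ℝ≥0∞ := fun y => MF ms F y ^ (p - 1) * (W y)⁻¹ with hg
  have hMm : Measurable (MF ms F) := measurable_MF ms F
  have hgm : Measurable g := (hMm.pow_const _).mul h.meas.inv
  have key : MF volume f x ≤ (K * MF (volume.withDensity W) g x) ^ (1 / (p - 1)) := by
    refine MF_le fun a b hx => ?_
    have hab : a < b := hx.1.trans hx.2
    obtain ⟨hW1, hW2⟩ := hA.fin hp h hK hab
    have hs0 : ∫⁻ x in Ioo a b, s x ≠ 0 := hsW.int_ne_zero hab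
    have hW0 : ∫⁻ x in Ioo a b, W x ≠ 0 := h.int_ne_zero hab
    have hv0 := vol_ne_zero hab
    have hvt : volume (Ioo a b) ≠ ⊤ := vol_ne_top
    have hmsI : ms (Ioo a b) = ∫⁻ x in Ioo a b, s x := withDensity_apply _ measurableSet_Ioo
    have hmWI : (volume.withDensity W) (Ioo a b) = ∫⁻ x in Ioo a b, W x :=
      withDensity_apply _ measurableSet_Ioo
    -- the average with respect to `ms`
    set m : ℝ≥0∞ := (∫⁻ t in Ioo a b, F t ∂ms) / ms (Ioo a b) with hm
    have hFint : ∫⁻ t in Ioo a b, F t ∂ms = ∫⁻ t in Ioo a b, f t := by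
      rw [hms, setLIntegral_withDensity_eq_setLIntegral_mul _ hsW.meas hFm measurableSet_Ioo]
      apply lintegral_congr
      intro t
      simp only [Pi.mul_apply, hF]
      rw [mul_left_comm, ENNReal.mul_inv_cancel (hsW.pos t) (hsW.fin t), mul_one]
    have hmm : ∫⁻ t in Ioo a b, f t = m * ∫⁻ x in Ioo a b, s x := by
      rw [hm, hFint, hmsI, ENNReal.div_mul_cancel hs0 hW2]
    have hmle : ∀ y ∈ Ioo a b, m ≤ MF ms F y := fun y hy => le_MF ms F hy
    have hgint : ∫⁻ t in Ioo a b, g t ∂(volume.withDensity W) =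
        ∫⁻ t in Ioo a b, MF ms F t ^ (p - 1) := by
      rw [setLIntegral_withDensity_eq_setLIntegral_mul _ h.meas hgm measurableSet_Ioo]
      apply lintegral_congr
      intro t
      simp only [Pi.mul_apply, hg]
      rw [mul_left_comm, ENNReal.mul_inv_cancel (h.pos t) (h.fin t), mul_one]
    have h4 : m ^ (p - 1) * volume (Ioo a b) ≤ ∫⁻ t in Ioo a b, MF ms F t ^ (p - 1) := by
      rw [← setLIntegral_const]
      apply setLIntegral_mono' measurableSet_Ioo
      intro y hy
      gcongr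
      exact hmle y hy
    have h5 : ((∫⁻ x in Ioo a b, s x) / volume (Ioo a b)) ^ (p - 1) ≤
        K * (volume (Ioo a b) / ∫⁻ x in Ioo a b, W x) := by
      have h6 := hA a b hab
      have hw0 : (∫⁻ x in Ioo a b, W x) / volume (Ioo a b) ≠ 0 := ENNReal.div_ne_zero.2 ⟨hW0, hvt⟩
      have hwt : (∫⁻ x in Ioo a b, W x) / volume (Ioo a b) ≠ ⊤ := (ENNReal.div_lt_top hW1 hv0).ne
      rw [mul_comm] at h6
      have h7 := (ENNReal.le_div_iff_mul_le (Or.inl hw0) (Or.inl hwt)).2 h6
      refine h7.trans (le_of_eq ?_)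
      rw [div_eq_mul_inv K, ENNReal.inv_div (Or.inl hvt) (Or.inl hv0)]
    have h8 : ((∫⁻ t in Ioo a b, f t) / volume (Ioo a b)) ^ (p - 1) ≤
        K * MF (volume.withDensity W) g x := by
      calc ((∫⁻ t in Ioo a b, f t) / volume (Ioo a b)) ^ (p - 1)
          = m ^ (p - 1) * ((∫⁻ x in Ioo a b, s x) / volume (Ioo a b)) ^ (p - 1) := by
            rw [hmm, mul_div_assoc, ENNReal.mul_rpow_of_nonneg _ _ hp1.le]
        _ ≤ m ^ (p - 1) * (K * (volume (Ioo a b) / ∫⁻ x in Ioo a b, W x)) := by gcongr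
        _ = K * ((m ^ (p - 1) * volume (Ioo a b)) / ∫⁻ x in Ioo a b, W x) := by
            rw [mul_left_comm, mul_div_assoc]
        _ ≤ K * ((∫⁻ t in Ioo a b, g t ∂(volume.withDensity W)) /
              (volume.withDensity W) (Ioo a b)) := by
            rw [hgint, hmWI]
            gcongr
        _ ≤ _ := by
            gcongr
            exact le_MF _ g hx
    rw [one_div]
    exact (ENNReal.le_rpow_inv_iff hp1).2 h8
  rw [one_div] at key
  exact (ENNReal.le_rpow_inv_iff hp1).1 key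

/-- Muckenhoupt's theorem for the uncentred maximal operator on the line. -/
theorem muckenhoupt {p : ℝ} (hp : 1 < p) : ∃ C : ℝ≥0, ∀ (W : ℝ → ℝ≥0∞) (K : ℝ≥0∞), Wt W →
    K ≠ ⊤ → ApB p W K → ∀ f : ℝ → ℝ≥0∞, Measurable f →
    ∫⁻ x, MF volume f x ^ p * W x ≤ C * K ^ (p / (p - 1)) * ∫⁻ x, f x ^ p * W x := by
  have hp1 : 0 < p - 1 := by linarith
  have hp0 : 0 < p := by linarith
  set q : ℝ := p / (p - 1) with hq
  have hq1 : 1 < q := by rw [hq, lt_div_iff₀ hp1]; linarith
  have hq0 : 0 < q := by linarith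
  obtain ⟨C1, hC1⟩ := strong_type hq1
  obtain ⟨C2, hC2⟩ := strong_type hp
  refine ⟨C1 * C2, fun W K h hK hA f hf => ?_⟩
  set s : ℝ → ℝ≥0∞ := fun z => W z ^ (-(1 / (p - 1))) with hs
  have hsW : Wt s := h.rpow _
  set ms : Measure ℝ := volume.withDensity s with hms
  set F : ℝ → ℝ≥0∞ := fun z => f z * (s z)⁻¹ with hF
  have hFm : Measurable F := hf.mul hsW.meas.inv
  set g : ℝ → ℝ≥0∞ := fun y => MF ms F y ^ (p - 1) * (W y)⁻¹ with hg
  have hMm : Measurable (MF ms F) := measurable_MF ms F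
  have hgm : Measurable g := (hMm.pow_const _).mul h.meas.inv
  set mW : Measure ℝ := volume.withDensity W with hmW
  calc ∫⁻ x, MF volume f x ^ p * W x
      = ∫⁻ x, MF volume f x ^ p ∂mW := by
        rw [hmW, lintegral_withDensity_eq_lintegral_mul _ h.meas ((measurable_MF _ _).pow_const _)]
        apply lintegral_congr
        intro x
        simp only [Pi.mul_apply]
        rw [mul_comm]
    _ ≤ ∫⁻ x, K ^ q * MF mW g x ^ q ∂mW := by
        apply lintegral_mono
        intro x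
        simp only
        have h1 := lerner hp h hK hA hf x
        have h2 := ENNReal.rpow_le_rpow h1 hq0.le
        rw [← ENNReal.rpow_mul, ENNReal.mul_rpow_of_nonneg _ _ hq0.le] at h2
        have h3 : (p - 1) * q = p := by rw [hq]; field_simp
        rw [h3] at h2
        exact h2
    _ = K ^ q * ∫⁻ x, MF mW g x ^ q ∂mW :=
        lintegral_const_mul _ ((measurable_MF _ _).pow_const _)
    _ ≤ K ^ q * (C1 * ∫⁻ x, g x ^ q ∂mW) := by
        gcongr
        exact hC1 mW g hgm
    _ = K ^ q * (C1 * ∫⁻ x, MF ms F x ^ p ∂ms) := by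
        congr 2
        rw [hmW, hms, lintegral_withDensity_eq_lintegral_mul _ h.meas (hgm.pow_const _),
          lintegral_withDensity_eq_lintegral_mul _ hsW.meas (hMm.pow_const _)]
        apply lintegral_congr
        intro x
        simp only [Pi.mul_apply, hg]
        rw [ENNReal.mul_rpow_of_nonneg _ _ hq0.le, ← ENNReal.rpow_mul]
        have h3 : (p - 1) * q = p := by rw [hq]; field_simp
        rw [h3, mul_left_comm, mul_comm (s x)]
        congr 1
        rw [ENNReal.inv_rpow, ← ENNReal.rpow_neg]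
        nth_rewrite 1 [← ENNReal.rpow_one (W x)]
        rw [← ENNReal.rpow_add _ _ (h.pos x) (h.fin x)]
        simp only [hs]
        congr 1
        rw [hq]
        field_simp
        ring
    _ ≤ K ^ q * (C1 * (C2 * ∫⁻ x, F x ^ p ∂ms)) := by
        gcongr
        exact hC2 ms F hFm
    _ = K ^ q * (C1 * (C2 * ∫⁻ x, f x ^ p * W x)) := by
        congr 3
        rw [hms, lintegral_withDensity_eq_lintegral_mul _ hsW.meas (hFm.pow_const _)]
        apply lintegral_congr
        intro x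
        simp only [Pi.mul_apply, hF]
        rw [ENNReal.mul_rpow_of_nonneg _ _ hp0.le, mul_left_comm]
        congr 1
        rw [ENNReal.inv_rpow, ← ENNReal.rpow_neg]
        simp only [hs]
        rw [← ENNReal.rpow_mul, ← ENNReal.rpow_add _ _ (h.pos x) (h.fin x)]
        have : -(1 / (p - 1)) + -(1 / (p - 1)) * -p = 1 := by
          field_simp
          ring
        rw [this, ENNReal.rpow_one]
    _ = _ := by
        push_cast
        ring

end Pool.Agent.Y273.GL
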