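import Pool.Agent.Y273.GL.Bell
import Pool.Agent.Y273.GL.Aper
import Pool.Agent.Y273.GL.Muck

set_option autoImplicit false
open MeasureTheory Set Filter Topology
open scoped ENNReal NNReal

namespace Pool.Agent.Y273.GL

/-- the density on the half-plane -/
noncomputable def Dens (a b : ℝ → ℝ → ℝ) (p : ℝ × ℝ) : ℝ≥0∞ :=
  if 0 < p.2 then ENNReal.ofReal (a p.1 p.2 ^ 2 + b p.1 p.2 ^ 2) else 0

lemma measurableSet_uhp : MeasurableSet {p : ℝ × ℝ | 0 < p.2} :=
  measurableSet_lt measurable_const measurable_snd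

lemma measurable_Dens {u a b c : ℝ → ℝ → ℝ} (H : Harm u a b c) : Measurable (Dens a b) := by
  have h1 : ContinuousOn (fun p : ℝ × ℝ => a p.1 p.2 ^ 2 + b p.1 p.2 ^ 2) {p | 0 < p.2} :=
    (H.ca.pow 2).add (H.cb.pow 2)
  have h2 : Measurable fun p : ℝ × ℝ => if 0 < p.2 then a p.1 p.2 ^ 2 + b p.1 p.2 ^ 2 else 0 := by
    have : (fun p : ℝ × ℝ => if 0 < p.2 then a p.1 p.2 ^ 2 + b p.1 p.2 ^ 2 else 0) =
        {p : ℝ × ℝ | 0 < p.2}.piecewise (fun p => a p.1 p.2 ^ 2 + b p.1 p.2 ^ 2) (fun _ => 0) := by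
      funext p
      by_cases hp : 0 < p.2
      · rw [if_pos hp, piecewise_eq_of_mem _ _ _ (by exact hp)]
      · rw [if_neg hp, piecewise_eq_of_notMem _ _ _ (by exact hp)]
    rw [this]
    apply ContinuousOn.measurable_piecewise h1 continuousOn_const measurableSet_uhp
  have h3 : Dens a b = fun p => ENNReal.ofReal
      (if 0 < p.2 then a p.1 p.2 ^ 2 + b p.1 p.2 ^ 2 else 0) := by
    funext p
    unfold Dens
    split_ifs <;> simp
  rw [h3]
  exact h2.ennreal_ofReal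

lemma bell_half {w f : ℝ → ℝ} {Q : ℝ} (hw : ∀ t, 0 < w t) (Pw : Pois w)
    (Ps : Pois fun t => (w t)⁻¹)
    (hQ : ∀ z y, 0 < y → PU w z y * PU (fun t => (w t)⁻¹) z y ≤ Q) (Pf : Pois f)
    (hX : Integrable fun t => f t ^ 2 * w t) {a b c : ℝ → ℝ → ℝ} (H : Harm (PU f) a b c) :
    ∫⁻ p, Dens a b p * ENNReal.ofReal (p.2 * PU w p.1 p.2) ≤
      ENNReal.ofReal (20 * Q ^ 3 * (14 * (Real.pi * ∫ t, f t ^ 2 * w t))) := by
  obtain ⟨aw, bw, cw, Hw⟩ := exists_harm Pw
  set G : ℝ × ℝ → ℝ := fun p => PU w p.1 p.2 * (a p.1 p.2 ^ 2 + b p.1 p.2 ^ 2) with hG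
  have cG : ContinuousOn G {p | 0 < p.2} := Hw.cu.mul ((H.ca.pow 2).add (H.cb.pow 2))
  set Rn : ℕ → Set (ℝ × ℝ) := fun n => Icc (-((n:ℝ) + 2)) ((n:ℝ) + 2) ×ˢ
    Icc (1 / ((n:ℝ) + 2)) ((n:ℝ) + 2) with hRn
  have hRsub : ∀ n, Rn n ⊆ {p | 0 < p.2} := by
    intro n p hp
    have : (0:ℝ) < 1 / ((n:ℝ) + 2) := by positivity
    exact this.trans_le hp.2.1
  have hRm : ∀ n, MeasurableSet (Rn n) := fun n => measurableSet_Icc.prod measurableSet_Icc
  set F : ℕ → ℝ × ℝ → ℝ≥0∞ := fun n => (Rn n).indicator fun p =>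
    ENNReal.ofReal (ca ((n:ℝ) + 2) p.1 * cb (1 / ((n:ℝ) + 2)) ((n:ℝ) + 2) p.2 * G p) with hF
  have hFm : ∀ n, AEMeasurable (F n) := by
    intro n
    rw [hF]
    simp only
    rw [aemeasurable_indicator_iff (hRm n)]
    apply AEMeasurable.ennreal_ofReal
    have hc : ContinuousOn (fun p : ℝ × ℝ => ca ((n:ℝ) + 2) p.1 *
        cb (1 / ((n:ℝ) + 2)) ((n:ℝ) + 2) p.2 * G p) (Rn n) := by
      apply ContinuousOn.mul _ (cG.mono (hRsub n))
      apply Continuous.continuousOn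
      unfold ca cb
      fun_prop
    exact hc.aemeasurable (hRm n)
  have hQb : ∀ n, ∫⁻ p, F n p ≤
      ENNReal.ofReal (20 * Q ^ 3 * (14 * (Real.pi * ∫ t, f t ^ 2 * w t))) := by
    intro n
    rw [hF]
    simp only
    rw [lintegral_indicator (hRm n)]
    have he : (0:ℝ) < 1 / ((n:ℝ) + 2) := by positivity
    have heR : 1 / ((n:ℝ) + 2) < (n:ℝ) + 2 := by
      rw [div_lt_iff₀ (by positivity)]
      nlinarith [(Nat.cast_nonneg n : (0:ℝ) ≤ n)]
    have hb := bell_rect hw Pw Ps hQ Pf hX H he heR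
    rw [← ofReal_integral_eq_lintegral_ofReal]
    · exact ENNReal.ofReal_le_ofReal hb
    · refine ContinuousOn.integrableOn_compact (isCompact_Icc.prod isCompact_Icc) ?_
      apply ContinuousOn.mul _ (cG.mono (hRsub n))
      apply Continuous.continuousOn
      unfold ca cb
      fun_prop
    · rw [EventuallyLE, ae_restrict_iff' (hRm n)]
      refine Eventually.of_forall fun p hp => ?_
      have h1 := (weight_facts hw Pw Ps p.1 (hRsub n hp)).1
      have h2 : 0 ≤ p.2 - 1 / ((n:ℝ) + 2) := by linarith [hp.2.1]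
      simp only [Pi.zero_apply, hG]
      unfold ca cb
      positivity
  have hlim : ∀ p : ℝ × ℝ, 0 < p.2 → Tendsto (fun n => F n p) atTop
      (𝓝 (ENNReal.ofReal (p.2 * G p))) := by
    intro p hp
    have hn : Tendsto (fun n : ℕ => (n:ℝ) + 2) atTop atTop :=
      tendsto_natCast_atTop_atTop.atTop_add tendsto_const_nhds
    have hinv : Tendsto (fun n : ℕ => ((n:ℝ) + 2)⁻¹) atTop (𝓝 0) := tendsto_inv_atTop_zero.comp hn
    have h1 : ∀ᶠ n : ℕ in atTop, F n p = ENNReal.ofReal (ca ((n:ℝ) + 2) p.1 *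
        cb (1 / ((n:ℝ) + 2)) ((n:ℝ) + 2) p.2 * G p) := by
      have e1 : ∀ᶠ n : ℕ in atTop, |p.1| ≤ (n:ℝ) + 2 := hn.eventually_ge_atTop _
      have e2 : ∀ᶠ n : ℕ in atTop, p.2 ≤ (n:ℝ) + 2 := hn.eventually_ge_atTop _
      have e3 : ∀ᶠ n : ℕ in atTop, ((n:ℝ) + 2)⁻¹ ≤ p.2 := hinv.eventually_le_const hp
      filter_upwards [e1, e2, e3] with n h1 h2 h3
      simp only [hF]
      rw [indicator_of_mem]
      rw [abs_le] at h1
      refine ⟨⟨h1.1, h1.2⟩, ⟨?_, h2⟩⟩
      rw [one_div]; exact h3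
    have h2 : Tendsto (fun n : ℕ => ca ((n:ℝ) + 2) p.1 *
        cb (1 / ((n:ℝ) + 2)) ((n:ℝ) + 2) p.2 * G p) atTop (𝓝 (1 * p.2 * G p)) := by
      apply Tendsto.mul_const
      apply Tendsto.mul
      · have : (fun n : ℕ => ca ((n:ℝ) + 2) p.1) = fun n : ℕ =>
            (1 - p.1 ^ 2 * (((n:ℝ) + 2)⁻¹) ^ 2) ^ 2 := by
          funext n; unfold ca; rw [div_eq_mul_inv, inv_pow]
        rw [this]
        have h3 := (((hinv.pow 2).const_mul (p.1 ^ 2)).const_sub 1).pow 2
        simpa using h3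
      · have : (fun n : ℕ => cb (1 / ((n:ℝ) + 2)) ((n:ℝ) + 2) p.2) = fun n : ℕ =>
            (p.2 - ((n:ℝ) + 2)⁻¹) * (1 - p.2 * ((n:ℝ) + 2)⁻¹) ^ 2 := by
          funext n; unfold cb; rw [div_eq_mul_inv, div_eq_mul_inv, one_mul]
        rw [this]
        have h3 := (hinv.const_sub p.2).mul ((((hinv.const_mul p.2).const_sub 1)).pow 2)
        simpa using h3
    rw [one_mul] at h2
    have h4 := (ENNReal.continuous_ofReal.tendsto _).comp h2
    exact h4.congr' (h1.mono fun n hn => hn.symm)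
  calc ∫⁻ p, Dens a b p * ENNReal.ofReal (p.2 * PU w p.1 p.2)
      ≤ ∫⁻ p, liminf (fun n => F n p) atTop := by
        apply lintegral_mono
        intro p
        simp only
        by_cases hp : 0 < p.2
        · rw [(hlim p hp).liminf_eq]
          unfold Dens
          rw [if_pos hp, ← ENNReal.ofReal_mul (by positivity)]
          apply ENNReal.ofReal_le_ofReal
          rw [hG]
          simp only
          linarith
        · unfold Dens
          rw [if_neg hp, zero_mul]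
          exact bot_le
    _ ≤ liminf (fun n => ∫⁻ p, F n p) atTop := lintegral_liminf_le' hFm
    _ ≤ _ := by
        apply liminf_le_of_le
        · isBoundedDefault
        · intro b hb
          obtain ⟨n, hn⟩ := hb.exists
          exact hn.trans (hQb n)

lemma w_ball {w : ℝ → ℝ} (hw : ∀ t, 0 < w t) (Pw : Pois w) (z : ℝ) {y : ℝ} (hy : 0 < y) :
    ∫⁻ t in Ioo (z - 1 * y) (z + 1 * y), ENNReal.ofReal (w t) ≤
      2 * ENNReal.ofReal (y * PU w z y) := by
  have h1 : (2:ℝ≥0∞) * ENNReal.ofReal (y * PU w z y) =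
      ∫⁻ t, ENNReal.ofReal (2 * y * (w t * (y / ((t - z) ^ 2 + y ^ 2)))) := by
    unfold PU
    have e : (2:ℝ≥0∞) * ENNReal.ofReal (y * ∫ t, w t * (y / ((t - z) ^ 2 + y ^ 2))) =
        ENNReal.ofReal (∫ t, 2 * y * (w t * (y / ((t - z) ^ 2 + y ^ 2)))) := by
      rw [integral_const_mul, mul_assoc, ENNReal.ofReal_mul (by norm_num : (0:ℝ) ≤ 2)]
      simp
    rw [e, ofReal_integral_eq_lintegral_ofReal ((Pw.int z hy).const_mul _)]
    refine Eventually.of_forall fun t => ?_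
    have := (hw t).le
    simp only [Pi.zero_apply]
    positivity
  rw [h1, ← lintegral_indicator measurableSet_Ioo]
  apply lintegral_mono
  intro t
  simp only
  by_cases ht : t ∈ Ioo (z - 1 * y) (z + 1 * y)
  · rw [indicator_of_mem ht]
    apply ENNReal.ofReal_le_ofReal
    have h2 : (t - z) ^ 2 ≤ y ^ 2 := by
      apply sq_le_sq'
      · linarith [ht.1]
      · linarith [ht.2]
    have h3 : 1 ≤ 2 * y * (y / ((t - z) ^ 2 + y ^ 2)) := by
      rw [← mul_div_assoc, le_div_iff₀ (by positivity)]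
      nlinarith
    calc w t = w t * 1 := (mul_one _).symm
      _ ≤ w t * (2 * y * (y / ((t - z) ^ 2 + y ^ 2))) := by
        apply mul_le_mul_of_nonneg_left h3 (hw t).le
      _ = _ := by ring
  · rw [indicator_of_notMem ht]; exact bot_le

/-- area function bound in terms of the Poisson `A_2` constant -/
lemma area_real {w f : ℝ → ℝ} {Q : ℝ} (mw : Measurable w) (hw : ∀ t, 0 < w t) (Pw : Pois w)
    (Ps : Pois fun t => (w t)⁻¹)
    (hQ : ∀ z y, 0 < y → PU w z y * PU (fun t => (w t)⁻¹) z y ≤ Q) (Pf : Pois f)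
    (hX : Integrable fun t => f t ^ 2 * w t) {a b c : ℝ → ℝ → ℝ} (H : Harm (PU f) a b c) :
    ∫⁻ x, AF (Dens a b) 1 x * ENNReal.ofReal (w x) ≤
      2 * ENNReal.ofReal (20 * Q ^ 3 * (14 * (Real.pi * ∫ t, f t ^ 2 * w t))) := by
  set μ : Measure ℝ := volume.withDensity fun x => ENNReal.ofReal (w x) with hμ
  have mw' : Measurable fun x => ENNReal.ofReal (w x) := mw.ennreal_ofReal
  have hΨ := measurable_Dens H
  have e1 : ∫⁻ x, AF (Dens a b) 1 x * ENNReal.ofReal (w x) = ∫⁻ x in univ, AF (Dens a b) 1 x ∂μ := by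
    rw [Measure.restrict_univ, hμ, lintegral_withDensity_eq_lintegral_mul _ mw' (measurable_AF hΨ 1)]
    apply lintegral_congr
    intro x
    simp only [Pi.mul_apply]
    rw [mul_comm]
  rw [e1, lintegral_AF hΨ 1 μ univ]
  calc ∫⁻ q : ℝ × ℝ, Dens a b q * μ (univ ∩ Ioo (q.1 - 1 * q.2) (q.1 + 1 * q.2))
      ≤ ∫⁻ q : ℝ × ℝ, 2 * (Dens a b q * ENNReal.ofReal (q.2 * PU w q.1 q.2)) := by
        apply lintegral_mono
        intro q
        simp only
        by_cases hq : 0 < q.2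
        · rw [univ_inter, hμ, withDensity_apply _ measurableSet_Ioo, mul_left_comm]
          gcongr
          exact w_ball hw Pw q.1 hq
        · unfold Dens
          rw [if_neg hq, zero_mul]
          exact bot_le
    _ = 2 * ∫⁻ q : ℝ × ℝ, Dens a b q * ENNReal.ofReal (q.2 * PU w q.1 q.2) :=
        lintegral_const_mul' _ _ (by norm_num)
    _ ≤ _ := by
        gcongr
        exact bell_half hw Pw Ps hQ Pf hX H

end Pool.Agent.Y273.GL
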