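import Pool.Agent.Y273.GL.A2

set_option autoImplicit false
open MeasureTheory Set Filter Topology
open scoped ENNReal NNReal

namespace Pool.Agent.Y273.GL

lemma MF_ind (z x : ℝ) {y : ℝ} (hy : 0 < y) :
    ENNReal.ofReal (y / (|x - z| + y)) ≤ MF volume ((Ioo (z - y) (z + y)).indicator 1) x := by
  set d := |x - z| + y with hd
  have hd0 : 0 < d := by positivity
  have hx : x ∈ Ioo (z - d) (z + d) := by
    have := neg_abs_le (x - z)
    have := le_abs_self (x - z)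
    constructor <;> linarith
  refine le_trans (le_of_eq ?_) (le_MF volume _ hx)
  rw [lintegral_indicator_one measurableSet_Ioo, Measure.restrict_apply measurableSet_Ioo,
    inter_eq_left.2, Real.volume_Ioo, Real.volume_Ioo, ← ENNReal.ofReal_div_of_pos (by linarith)]
  · congr 1
    have : z + y - (z - y) = 2 * y := by ring
    have h2 : z + d - (z - d) = 2 * d := by ring
    rw [this, h2]
    field_simp
  · apply Ioo_subset_Ioo
    · have := abs_nonneg (x - z); linarith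
    · have := abs_nonneg (x - z); linarith

lemma tail2 {C1 : ℝ≥0} (hC : ∀ (W : ℝ → ℝ≥0∞) (K : ℝ≥0∞), Wt W →
    K ≠ ⊤ → ApB 2 W K → ∀ f : ℝ → ℝ≥0∞, Measurable f →
    ∫⁻ x, MF volume f x ^ (2:ℝ) * W x ≤ C1 * K ^ ((2:ℝ) / (2 - 1)) * ∫⁻ x, f x ^ (2:ℝ) * W x)
    {W : ℝ → ℝ≥0∞} {K : ℝ≥0∞} (hW : Wt W) (hK : K ≠ ⊤) (hA : ApB 2 W K) (z : ℝ) {y : ℝ}
    (hy : 0 < y) :
    ∫⁻ x, W x * ENNReal.ofReal (y / ((x - z) ^ 2 + y ^ 2)) ≤
      ENNReal.ofReal (2 / y) * (C1 * K ^ 2) * ∫⁻ x in Ioo (z - y) (z + y), W x := by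
  have h1 := hC W K hW hK hA _ (measurable_one.indicator (measurableSet_Ioo (a := z - y)
    (b := z + y)))
  have e1 : ∫⁻ x, ((Ioo (z - y) (z + y)).indicator 1 x : ℝ≥0∞) ^ (2:ℝ) * W x =
      ∫⁻ x in Ioo (z - y) (z + y), W x := by
    rw [← lintegral_indicator measurableSet_Ioo]
    apply lintegral_congr
    intro x
    by_cases hx : x ∈ Ioo (z - y) (z + y)
    · rw [indicator_of_mem hx, indicator_of_mem hx]; simp
    · rw [indicator_of_notMem hx, indicator_of_notMem hx]; simp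
  have e2 : K ^ ((2:ℝ) / (2 - 1)) = K ^ 2 := by
    have : (2:ℝ) / (2 - 1) = 2 := by norm_num
    rw [this]
    exact ENNReal.rpow_two K
  rw [e1, e2] at h1
  calc ∫⁻ x, W x * ENNReal.ofReal (y / ((x - z) ^ 2 + y ^ 2))
      ≤ ∫⁻ x, ENNReal.ofReal (2 / y) *
          (MF volume ((Ioo (z - y) (z + y)).indicator 1) x ^ (2:ℝ) * W x) := by
        apply lintegral_mono
        intro x
        simp only
        have h2 := MF_ind z x hy
        have h3 : ENNReal.ofReal (y / ((x - z) ^ 2 + y ^ 2)) ≤ ENNReal.ofReal (2 / y) *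
            ENNReal.ofReal (y / (|x - z| + y)) ^ (2:ℝ) := by
          rw [ENNReal.rpow_two, ← ENNReal.ofReal_pow (by positivity),
            ← ENNReal.ofReal_mul (by positivity)]
          apply ENNReal.ofReal_le_ofReal
          have h4 : (|x - z| + y) ^ 2 ≤ 2 * ((x - z) ^ 2 + y ^ 2) := by
            have := sq_abs (x - z)
            nlinarith [sq_nonneg (|x - z| - y)]
          have h5 : 0 < |x - z| + y := by positivity
          calc y / ((x - z) ^ 2 + y ^ 2) = 2 * y / (2 * ((x - z) ^ 2 + y ^ 2)) := by field_simp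
            _ ≤ 2 * y / (|x - z| + y) ^ 2 := by gcongr
            _ = 2 / y * (y / (|x - z| + y)) ^ 2 := by field_simp
        calc W x * ENNReal.ofReal (y / ((x - z) ^ 2 + y ^ 2)) ≤
            W x * (ENNReal.ofReal (2 / y) * ENNReal.ofReal (y / (|x - z| + y)) ^ (2:ℝ)) := by
              gcongr
          _ ≤ W x * (ENNReal.ofReal (2 / y) *
              MF volume ((Ioo (z - y) (z + y)).indicator 1) x ^ (2:ℝ)) := by gcongr
          _ = _ := by ring
    _ = ENNReal.ofReal (2 / y) * ∫⁻ x,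
          (MF volume ((Ioo (z - y) (z + y)).indicator 1) x ^ (2:ℝ) * W x) :=
        lintegral_const_mul' _ _ ENNReal.ofReal_ne_top
    _ ≤ ENNReal.ofReal (2 / y) * (C1 * K ^ 2 * ∫⁻ x in Ioo (z - y) (z + y), W x) := by gcongr
    _ = _ := by ring

lemma Wt.inv {W : ℝ → ℝ≥0∞} (h : Wt W) : Wt fun x => (W x)⁻¹ :=
  ⟨h.meas.inv, fun x => ENNReal.inv_ne_zero.2 (h.fin x), fun x => ENNReal.inv_ne_top.2 (h.pos x)⟩

lemma ApB2_iff {W : ℝ → ℝ≥0∞} {K : ℝ≥0∞} : ApB 2 W K ↔ ∀ a b : ℝ, a < b →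
    (∫⁻ x in Ioo a b, W x) / volume (Ioo a b) *
    ((∫⁻ x in Ioo a b, (W x)⁻¹) / volume (Ioo a b)) ≤ K := by
  unfold ApB
  have e1 : (2:ℝ) - 1 = 1 := by norm_num
  have e2 : -(1 / ((2:ℝ) - 1)) = -1 := by norm_num
  simp only [e1, ENNReal.rpow_one, div_one, ENNReal.rpow_neg_one]

lemma ApB2_inv {W : ℝ → ℝ≥0∞} {K : ℝ≥0∞} (h : ApB 2 W K) : ApB 2 (fun x => (W x)⁻¹) K := by
  rw [ApB2_iff] at h ⊢
  intro a b hab
  simp only [inv_inv]
  rw [mul_comm]
  exact h a b hab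

theorem areaA2 {K : ℝ≥0∞} (hK : K ≠ ⊤) : ∃ C : ℝ≥0, ∀ W : ℝ → ℝ≥0∞, Wt W → ApB 2 W K →
    ∀ f : ℝ → ℝ, Measurable f → ∫⁻ x, ENNReal.ofReal (f x ^ 2) * W x ≠ ⊤ →
    Pois f ∧ ∀ a b c, Harm (PU f) a b c →
      ∫⁻ x, AF (Dens a b) 1 x * W x ≤ C * ∫⁻ x, ENNReal.ofReal (f x ^ 2) * W x := by
  obtain ⟨C1, hC1⟩ := muckenhoupt (p := 2) (by norm_num)
  set A : ℝ≥0∞ := C1 * K ^ 2 with hA
  have hAt : A ≠ ⊤ := ENNReal.mul_ne_top ENNReal.coe_ne_top (ENNReal.pow_ne_top hK)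
  set Qe : ℝ≥0∞ := 16 * A ^ 2 * K with hQe
  have hQt : Qe ≠ ⊤ := ENNReal.mul_ne_top (ENNReal.mul_ne_top (by norm_num)
    (ENNReal.pow_ne_top hAt)) hK
  set Q : ℝ := Qe.toReal with hQ
  have hQ0 : 0 ≤ Q := ENNReal.toReal_nonneg
  refine ⟨Real.toNNReal (2 * (20 * Q ^ 3 * (14 * Real.pi))), fun W hW hAp f hf hfin => ?_⟩
  set w : ℝ → ℝ := fun t => (W t).toReal with hw
  have hwW : ∀ t, ENNReal.ofReal (w t) = W t := fun t => ENNReal.ofReal_toReal (hW.fin t)
  have hw0 : ∀ t, 0 < w t := fun t => ENNReal.toReal_pos (hW.pos t) (hW.fin t)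
  have hwi : ∀ t, ENNReal.ofReal ((w t)⁻¹) = (W t)⁻¹ := by
    intro t
    rw [ENNReal.ofReal_inv_of_pos (hw0 t), hwW]
  have mw : Measurable w := hW.meas.ennreal_toReal
  have hApi := ApB2_inv hAp
  -- tails
  have t1 : ∀ z y : ℝ, 0 < y → ∫⁻ x, W x * ENNReal.ofReal (y / ((x - z) ^ 2 + y ^ 2)) ≤
      ENNReal.ofReal (2 / y) * A * ∫⁻ x in Ioo (z - y) (z + y), W x :=
    fun z y hy => tail2 hC1 hW hK hAp z hy
  have t2 : ∀ z y : ℝ, 0 < y → ∫⁻ x, (W x)⁻¹ * ENNReal.ofReal (y / ((x - z) ^ 2 + y ^ 2)) ≤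
      ENNReal.ofReal (2 / y) * A * ∫⁻ x in Ioo (z - y) (z + y), (W x)⁻¹ :=
    fun z y hy => tail2 hC1 hW.inv hK hApi z hy
  have fin1 : ∀ a b : ℝ, a < b → ∫⁻ x in Ioo a b, W x ≠ ⊤ ∧ ∫⁻ x in Ioo a b, (W x)⁻¹ ≠ ⊤ := by
    intro a b hab
    refine ⟨(hAp.fin (by norm_num) hW hK hab).1, (hApi.fin (by norm_num) hW.inv hK hab).1⟩
  -- Poisson integrability
  have hpois : ∀ (V : ℝ → ℝ≥0∞) (v : ℝ → ℝ), Measurable v → (∀ t, 0 < v t) →
      (∀ t, ENNReal.ofReal (v t) = V t) →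
      (∀ z y : ℝ, 0 < y → ∫⁻ x, V x * ENNReal.ofReal (y / ((x - z) ^ 2 + y ^ 2)) ≤
      ENNReal.ofReal (2 / y) * A * ∫⁻ x in Ioo (z - y) (z + y), V x) →
      (∀ a b : ℝ, a < b → ∫⁻ x in Ioo a b, V x ≠ ⊤) → Pois v := by
    intro V v mv hv hvV ht hfinV
    unfold Pois
    refine ⟨?_, ?_⟩
    · apply Measurable.aestronglyMeasurable
      fun_prop
    · rw [hasFiniteIntegral_iff_ofReal]
      · have h1 := ht 0 1 one_pos
        refine lt_of_le_of_lt ?_ (lt_of_le_of_lt h1 ?_)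
        · apply lintegral_mono
          intro t
          simp only
          rw [← hvV, ← ENNReal.ofReal_mul (hv t).le]
          apply ENNReal.ofReal_le_ofReal
          apply le_of_eq
          rw [sub_zero, one_pow, mul_one_div, add_comm]
        · exact (ENNReal.mul_ne_top (ENNReal.mul_ne_top ENNReal.ofReal_ne_top hAt)
            (hfinV _ _ (by norm_num))).lt_top
      · refine Eventually.of_forall fun t => ?_
        have := hv t
        simp only [Pi.zero_apply]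
        positivity
  have Pw : Pois w := hpois W w mw hw0 hwW t1 (fun a b hab => (fin1 a b hab).1)
  have Ps : Pois fun t => (w t)⁻¹ := hpois (fun t => (W t)⁻¹) _ mw.inv
    (fun t => inv_pos.2 (hw0 t)) hwi t2 (fun a b hab => (fin1 a b hab).2)
  -- the product of the extensions
  have hPU : ∀ (V : ℝ → ℝ≥0∞) (v : ℝ → ℝ), Pois v → (∀ t, 0 < v t) →
      (∀ t, ENNReal.ofReal (v t) = V t) → ∀ z y : ℝ, 0 < y →
      ENNReal.ofReal (PU v z y) = ∫⁻ x, V x * ENNReal.ofReal (y / ((x - z) ^ 2 + y ^ 2)) := by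
    intro V v Pv hv hvV z y hy
    unfold PU
    rw [ofReal_integral_eq_lintegral_ofReal (Pv.int z hy)]
    · apply lintegral_congr
      intro t
      rw [← hvV, ENNReal.ofReal_mul (hv t).le]
    · refine Eventually.of_forall fun t => ?_
      have := hv t
      simp only [Pi.zero_apply]
      positivity
  have hprod : ∀ z y, 0 < y → PU w z y * PU (fun t => (w t)⁻¹) z y ≤ Q := by
    intro z y hy
    obtain ⟨f1, f2, f3⟩ := weight_facts hw0 Pw Ps z hy
    rw [← ENNReal.ofReal_le_ofReal_iff hQ0, hQ, ENNReal.ofReal_toReal hQt,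
      ENNReal.ofReal_mul f1.le, hPU W w Pw hw0 hwW z y hy,
      hPU (fun t => (W t)⁻¹) _ Ps (fun t => inv_pos.2 (hw0 t)) hwi z y hy]
    have hzy : z - y < z + y := by linarith
    have hAI := (ApB2_iff.1 hAp) (z - y) (z + y) hzy
    have hv0 := vol_ne_zero hzy
    have hvt : volume (Ioo (z - y) (z + y)) ≠ ⊤ := vol_ne_top
    set IW := ∫⁻ x in Ioo (z - y) (z + y), W x with hIW
    set IS := ∫⁻ x in Ioo (z - y) (z + y), (W x)⁻¹ with hIS
    set V := volume (Ioo (z - y) (z + y)) with hV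
    have hVv : V = ENNReal.ofReal (2 * y) := by
      rw [hV, Real.volume_Ioo]; congr 1; ring
    have hWS : IW * IS ≤ K * (V * V) := by
      calc IW * IS = (IW / V) * (IS / V) * (V * V) := by
            rw [div_eq_mul_inv, div_eq_mul_inv]
            calc IW * IS = IW * IS * (V⁻¹ * V) * (V⁻¹ * V) := by
                  rw [ENNReal.inv_mul_cancel hv0 hvt]; ring
              _ = _ := by ring
        _ ≤ K * (V * V) := by gcongr
    calc (∫⁻ x, W x * ENNReal.ofReal (y / ((x - z) ^ 2 + y ^ 2))) *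
        (∫⁻ x, (W x)⁻¹ * ENNReal.ofReal (y / ((x - z) ^ 2 + y ^ 2)))
        ≤ (ENNReal.ofReal (2 / y) * A * IW) * (ENNReal.ofReal (2 / y) * A * IS) :=
          mul_le_mul' (t1 z y hy) (t2 z y hy)
      _ = (ENNReal.ofReal (2 / y)) ^ 2 * A ^ 2 * (IW * IS) := by ring
      _ ≤ (ENNReal.ofReal (2 / y)) ^ 2 * A ^ 2 * (K * (V * V)) := by gcongr
      _ = (ENNReal.ofReal (2 / y) * V) ^ 2 * A ^ 2 * K := by ring
      _ = Qe := by
        rw [hVv, ← ENNReal.ofReal_mul (by positivity)]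
        have : 2 / y * (2 * y) = 4 := by field_simp; norm_num
        rw [this, hQe]
        congr 2
        simp
        norm_num
  -- integrability of `f² w`
  have hX0 : ∀ t, 0 ≤ f t ^ 2 * w t := fun t => mul_nonneg (sq_nonneg _) (hw0 t).le
  have hXl : ∫⁻ t, ENNReal.ofReal (f t ^ 2 * w t) = ∫⁻ x, ENNReal.ofReal (f x ^ 2) * W x := by
    apply lintegral_congr
    intro t
    rw [ENNReal.ofReal_mul (sq_nonneg _), hwW]
  have hX : Integrable fun t => f t ^ 2 * w t := by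
    refine ⟨by apply Measurable.aestronglyMeasurable; fun_prop, ?_⟩
    rw [hasFiniteIntegral_iff_ofReal (Eventually.of_forall hX0), hXl]
    exact hfin.lt_top
  have PX : Pois fun t => f t ^ 2 * w t := pois_of_integrable hX
  have Pf : Pois f := by
    unfold Pois at *
    refine Integrable.mono' (PX.add Ps) (by apply Measurable.aestronglyMeasurable; fun_prop) ?_
    refine Eventually.of_forall fun t => ?_
    simp only [Pi.add_apply]
    rw [norm_div, Real.norm_eq_abs, Real.norm_of_nonneg (by positivity : (0:ℝ) ≤ 1 + t ^ 2),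
      ← add_div]
    gcongr
    have h := hw0 t
    have e : f t ^ 2 * w t + (w t)⁻¹ - 2 * |f t| = (|f t| * w t - 1) ^ 2 / w t := by
      rw [← sq_abs (f t)]
      field_simp; ring
    have e2 : 0 ≤ (|f t| * w t - 1) ^ 2 / w t := by positivity
    linarith [abs_nonneg (f t)]
  refine ⟨Pf, fun a b c H => ?_⟩
  have key := area_real mw hw0 Pw Ps hprod Pf hX H
  simp only [hwW] at key
  refine key.trans (le_of_eq ?_)
  rw [← hXl, ← ofReal_integral_eq_lintegral_ofReal hX (Eventually.of_forall hX0)]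
  have h2 : (2:ℝ≥0∞) = ENNReal.ofReal 2 := by simp
  have hint0 : 0 ≤ ∫ t, f t ^ 2 * w t := integral_nonneg hX0
  rw [h2, ← ENNReal.ofReal_mul (by norm_num)]
  have h3 : ((Real.toNNReal (2 * (20 * Q ^ 3 * (14 * Real.pi))) : ℝ≥0) : ℝ≥0∞) =
      ENNReal.ofReal (2 * (20 * Q ^ 3 * (14 * Real.pi))) := rfl
  rw [h3, ← ENNReal.ofReal_mul (by positivity)]
  congr 1
  ring

end Pool.Agent.Y273.GL
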