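import Pool.Agent.Y273.GL.RdF

set_option autoImplicit false
open MeasureTheory Set Filter Topology
open scoped ENNReal NNReal

namespace Pool.Agent.Y273.GL

lemma rpow_ne_zero' {x : ℝ≥0∞} (h0 : x ≠ 0) (ht : x ≠ ⊤) (s : ℝ) : x ^ s ≠ 0 := by
  intro h
  rcases ENNReal.rpow_eq_zero_iff.1 h with h | h
  · exact h0 h.1
  · exact ht h.1

lemma rpow_ne_top' {x : ℝ≥0∞} (h0 : x ≠ 0) (ht : x ≠ ⊤) (s : ℝ) : x ^ s ≠ ⊤ := by
  intro h
  rcases ENNReal.rpow_eq_top_iff.1 h with h | h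
  · exact h0 h.1
  · exact ht h.1

lemma Wt.mul {U h : ℝ → ℝ≥0∞} (hU : Wt U) (hh : Wt h) : Wt fun x => U x * h x :=
  ⟨hU.meas.mul hh.meas, fun x => mul_ne_zero (hU.pos x) (hh.pos x),
    fun x => ENNReal.mul_ne_top (hU.fin x) (hh.fin x)⟩

lemma ApB2_w {p : ℝ} (hp1 : 1 < p) (hp2 : p < 2) {U h : ℝ → ℝ≥0∞} (hU : Wt U) (hh : Wt h)
    {K A : ℝ≥0∞} (hAt : A ≠ ⊤) (hA : ApB p U K)
    (hM : ∀ᵐ x, MF volume h x ≤ 2 * A * h x) :
    ApB 2 (fun x => U x * h x ^ (p - 2)) ((2 * A) ^ (2 - p) * K) := by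
  rw [ApB2_iff]
  intro a b hab
  set V := volume (Ioo a b) with hV
  have hv0 : V ≠ 0 := vol_ne_zero hab
  have hvt : V ≠ ⊤ := vol_ne_top
  have h2p : 0 < 2 - p := by linarith
  have hp10 : 0 < p - 1 := by linarith
  set m : ℝ≥0∞ := (∫⁻ x in Ioo a b, h x) / V with hm
  have hI0 : ∫⁻ x in Ioo a b, h x ≠ 0 := hh.int_ne_zero hab
  have hm0 : m ≠ 0 := ENNReal.div_ne_zero.2 ⟨hI0, hvt⟩
  have hmle : ∀ᵐ x ∂(volume.restrict (Ioo a b)), m ≤ 2 * A * h x := by
    rw [ae_restrict_iff' measurableSet_Ioo]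
    filter_upwards [hM] with x hx hxI
    exact (le_MF volume h hxI).trans hx
  have hmt : m ≠ ⊤ := by
    intro hmt
    have h1 : ∀ᵐ x ∂(volume.restrict (Ioo a b)), False := by
      filter_upwards [hmle] with x hx
      rw [hmt] at hx
      exact (ENNReal.mul_ne_top (ENNReal.mul_ne_top (by norm_num) hAt) (hh.fin x))
        (top_le_iff.1 hx)
    rw [eventually_false_iff_eq_bot, ae_eq_bot, Measure.restrict_eq_zero] at h1
    exact hv0 h1
  have hmp0 := rpow_ne_zero' hm0 hmt (2 - p)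
  have hmpt := rpow_ne_top' hm0 hmt (2 - p)
  -- the first average
  have b1 : (∫⁻ x in Ioo a b, U x * h x ^ (p - 2)) / V ≤
      (2 * A) ^ (2 - p) * (m ^ (2 - p))⁻¹ * ((∫⁻ x in Ioo a b, U x) / V) := by
    rw [← mul_div_assoc]
    gcongr
    rw [← lintegral_const_mul _ hU.meas]
    apply lintegral_mono_ae
    filter_upwards [hmle] with x hx
    have hp0 := rpow_ne_zero' (hh.pos x) (hh.fin x) (2 - p)
    have hpt := rpow_ne_top' (hh.pos x) (hh.fin x) (2 - p)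
    have e1 : h x ^ (p - 2) = (h x ^ (2 - p))⁻¹ := by
      rw [← ENNReal.rpow_neg]; congr 1; ring
    have h3 : m ^ (2 - p) ≤ (2 * A) ^ (2 - p) * h x ^ (2 - p) := by
      rw [← ENNReal.mul_rpow_of_nonneg _ _ h2p.le]
      gcongr
    rw [e1, mul_comm]
    gcongr
    calc (h x ^ (2 - p))⁻¹ = (h x ^ (2 - p))⁻¹ * (m ^ (2 - p) * (m ^ (2 - p))⁻¹) := by
          rw [ENNReal.mul_inv_cancel hmp0 hmpt, mul_one]
      _ ≤ (h x ^ (2 - p))⁻¹ * (((2 * A) ^ (2 - p) * h x ^ (2 - p)) * (m ^ (2 - p))⁻¹) := by gcongr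
      _ = (2 * A) ^ (2 - p) * (m ^ (2 - p))⁻¹ * ((h x ^ (2 - p))⁻¹ * h x ^ (2 - p)) := by ring
      _ = (2 * A) ^ (2 - p) * (m ^ (2 - p))⁻¹ := by
          rw [ENNReal.inv_mul_cancel hp0 hpt, mul_one]
  -- the second average
  have b2 : (∫⁻ x in Ioo a b, (U x * h x ^ (p - 2))⁻¹) / V ≤
      m ^ (2 - p) * ((∫⁻ x in Ioo a b, U x ^ (-(1 / (p - 1)))) / V) ^ (p - 1) := by
    have hconj : (1 / (2 - p)).HolderConjugate (1 / (p - 1)) := by
      rw [Real.holderConjugate_iff]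
      constructor
      · rw [lt_div_iff₀ h2p]; linarith
      · rw [one_div, one_div, inv_inv, inv_inv]; ring
    have h1 := ENNReal.lintegral_mul_le_Lp_mul_Lq (μ := volume.restrict (Ioo a b)) hconj
      (f := fun x => h x ^ (2 - p)) (g := fun x => (U x)⁻¹)
      (hh.meas.pow_const _).aemeasurable hU.meas.inv.aemeasurable
    have e1 : ∀ x, (h x ^ (2 - p)) ^ (1 / (2 - p)) = h x := by
      intro x
      rw [← ENNReal.rpow_mul, mul_one_div_cancel h2p.ne', ENNReal.rpow_one]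
    have e2 : ∀ x, ((U x)⁻¹) ^ (1 / (p - 1)) = U x ^ (-(1 / (p - 1))) := by
      intro x
      rw [ENNReal.inv_rpow, ENNReal.rpow_neg]
    have e3 : ∀ x, (U x * h x ^ (p - 2))⁻¹ = ((fun x => h x ^ (2 - p)) * fun x => (U x)⁻¹) x := by
      intro x
      rw [Pi.mul_apply, ENNReal.mul_inv (Or.inl (hU.pos x)) (Or.inl (hU.fin x)), mul_comm]
      congr 1
      rw [← ENNReal.rpow_neg]; congr 1; ring
    simp only [e1, e2, one_div_one_div] at h1
    have hVV : V = V ^ (2 - p) * V ^ (p - 1) := by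
      rw [← ENNReal.rpow_add _ _ hv0 hvt]
      have : 2 - p + (p - 1) = 1 := by ring
      rw [this, ENNReal.rpow_one]
    calc (∫⁻ x in Ioo a b, (U x * h x ^ (p - 2))⁻¹) / V
        ≤ ((∫⁻ x in Ioo a b, h x) ^ (2 - p) *
          (∫⁻ x in Ioo a b, U x ^ (-(1 / (p - 1)))) ^ (p - 1)) / V := by
          gcongr
          simp only [e3]
          exact h1
      _ = _ := by
          rw [hm, ENNReal.div_rpow_of_nonneg _ _ h2p.le, ENNReal.div_rpow_of_nonneg _ _ hp10.le]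
          nth_rewrite 1 [hVV]
          have hvp0 := rpow_ne_zero' hv0 hvt (2 - p)
          have hvpt := rpow_ne_top' hv0 hvt (2 - p)
          simp only [div_eq_mul_inv]
          rw [ENNReal.mul_inv (Or.inl hvp0) (Or.inl hvpt)]
          ring
  calc (∫⁻ x in Ioo a b, U x * h x ^ (p - 2)) / V *
      ((∫⁻ x in Ioo a b, (U x * h x ^ (p - 2))⁻¹) / V)
      ≤ ((2 * A) ^ (2 - p) * (m ^ (2 - p))⁻¹ * ((∫⁻ x in Ioo a b, U x) / V)) *
        (m ^ (2 - p) * ((∫⁻ x in Ioo a b, U x ^ (-(1 / (p - 1)))) / V) ^ (p - 1)) :=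
        mul_le_mul' b1 b2
    _ = (2 * A) ^ (2 - p) * ((m ^ (2 - p))⁻¹ * m ^ (2 - p)) *
        (((∫⁻ x in Ioo a b, U x) / V) *
          ((∫⁻ x in Ioo a b, U x ^ (-(1 / (p - 1)))) / V) ^ (p - 1)) := by ring
    _ ≤ (2 * A) ^ (2 - p) * 1 * K := by
        rw [ENNReal.inv_mul_cancel hmp0 hmpt]
        gcongr
        exact hA a b hab
    _ = _ := by rw [mul_one]

lemma PU_zero_ae {f : ℝ → ℝ} (hf : f =ᵐ[volume] 0) (z y : ℝ) : PU f z y = 0 := by
  unfold PU
  rw [integral_eq_zero_of_ae]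
  filter_upwards [hf] with t ht
  simp [ht]

lemma Dens_zero {f : ℝ → ℝ} (hf : f =ᵐ[volume] 0) {a b c : ℝ → ℝ → ℝ} (H : Harm (PU f) a b c)
    (q : ℝ × ℝ) : Dens a b q = 0 := by
  unfold Dens
  split_ifs with hq
  · have h1 : a q.1 q.2 = 0 := by
      have h2 := H.dz q.1 q.2 hq
      have h3 : HasDerivAt (fun z => PU f z q.2) 0 q.1 := by
        simp only [PU_zero_ae hf]
        exact hasDerivAt_const _ _
      exact h2.unique h3
    have h1' : b q.1 q.2 = 0 := by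
      have h2 := H.dy q.1 q.2 hq
      have h3 : HasDerivAt (fun y => PU f q.1 y) 0 q.2 := by
        simp only [PU_zero_ae hf]
        exact hasDerivAt_const _ _
      exact h2.unique h3
    rw [h1, h1']; simp
  · rfl

/-- the area function on `L^p(U)`, `U ∈ A_p`, `1 < p < 2` -/
theorem areaAp {p : ℝ} (hp1 : 1 < p) (hp2 : p < 2) {U : ℝ → ℝ≥0∞} (hU : Wt U) {K : ℝ≥0∞}
    (hK : K ≠ ⊤) (hA : ApB p U K) : ∃ C : ℝ≥0, ∀ f : ℝ → ℝ, Measurable f →
    ∫⁻ x, ENNReal.ofReal |f x| ^ p * U x ≠ ⊤ → Pois f ∧ ∀ a b c, Harm (PU f) a b c →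
      ∫⁻ x, AF (Dens a b) 1 x ^ (p / 2) * U x ≤ C * ∫⁻ x, ENNReal.ofReal |f x| ^ p * U x := by
  have hp0 : 0 < p := by linarith
  have h2p : 0 < 2 - p := by linarith
  obtain ⟨Cm, hCm⟩ := muckenhoupt hp1
  set B : ℝ≥0∞ := Cm * K ^ (p / (p - 1)) with hB
  have hpp : 0 < p / (p - 1) := div_pos hp0 (by linarith)
  have hBt : B ≠ ⊤ := ENNReal.mul_ne_top ENNReal.coe_ne_top
    (ENNReal.rpow_ne_top_of_nonneg hpp.le hK)
  set A : ℝ≥0∞ := max 1 (B ^ (1 / p)) with hAd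
  have hA1 : 1 ≤ A := le_max_left _ _
  have hAt : A ≠ ⊤ := (max_lt ENNReal.one_lt_top
    (ENNReal.rpow_ne_top_of_nonneg (by positivity) hBt).lt_top).ne
  have hBA : B ≤ A ^ p := by
    calc B = (B ^ (1 / p)) ^ p := by
          rw [← ENNReal.rpow_mul, one_div_mul_cancel hp0.ne', ENNReal.rpow_one]
      _ ≤ A ^ p := by gcongr; exact le_max_right _ _
  have hM : ∀ g : ℝ → ℝ≥0∞, Measurable g →
      ∫⁻ x, MF volume g x ^ p * U x ≤ A ^ p * ∫⁻ x, g x ^ p * U x := by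
    intro g hg
    exact (hCm U K hU hK hA g hg).trans (by gcongr)
  set K2 : ℝ≥0∞ := (2 * A) ^ (2 - p) * K with hK2
  have hK2t : K2 ≠ ⊤ := ENNReal.mul_ne_top (ENNReal.rpow_ne_top_of_nonneg h2p.le
    (ENNReal.mul_ne_top (by norm_num) hAt)) hK
  obtain ⟨C2, hC2⟩ := areaA2 hK2t
  set Ce : ℝ≥0∞ := (C2 : ℝ≥0∞) ^ (p / 2) * (2 ^ p) ^ (1 - p / 2) with hCe
  have hCet : Ce ≠ ⊤ := by
    apply ENNReal.mul_ne_top
    · exact ENNReal.rpow_ne_top_of_nonneg (by positivity) ENNReal.coe_ne_top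
    · apply ENNReal.rpow_ne_top_of_nonneg (by linarith)
      exact ENNReal.rpow_ne_top_of_nonneg hp0.le (by norm_num)
  refine ⟨Ce.toNNReal, fun f hf hfin => ?_⟩
  rw [ENNReal.coe_toNNReal hCet]
  set F : ℝ → ℝ≥0∞ := fun x => ENNReal.ofReal |f x| with hF
  have hFm : Measurable F := by
    rw [hF]; fun_prop
  by_cases hF0 : F =ᵐ[volume] 0
  · have hf0 : f =ᵐ[volume] 0 := by
      filter_upwards [hF0] with x hx
      simp only [hF, Pi.zero_apply, ENNReal.ofReal_eq_zero] at hx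
      simpa using le_antisymm hx (abs_nonneg _)
    refine ⟨?_, fun a b c H => ?_⟩
    · unfold Pois
      refine (integrable_zero ℝ ℝ volume).congr ?_
      filter_upwards [hf0] with x hx
      simp [hx]
    · have : ∀ x, AF (Dens a b) 1 x = 0 := by
        intro x
        unfold AF
        simp [Dens_zero hf0 H]
      simp only [this]
      rw [ENNReal.zero_rpow_of_pos (by positivity)]
      simp
  obtain ⟨h, hh, hFh, hMh, hhn⟩ := rdf hp1 hU hA1 hAt hM hFm hfin hF0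
  set W : ℝ → ℝ≥0∞ := fun x => U x * h x ^ (p - 2) with hW
  have hWt : Wt W := hU.mul (hh.rpow _)
  have hWA : ApB 2 W K2 := ApB2_w hp1 hp2 hU hh hAt hA hMh
  have hinner : ∫⁻ x, ENNReal.ofReal (f x ^ 2) * W x ≤ ∫⁻ x, F x ^ p * U x := by
    apply lintegral_mono_ae
    filter_upwards [hFh] with x hx
    have e1 : ENNReal.ofReal (f x ^ 2) = F x ^ (2:ℝ) := by
      rw [ENNReal.rpow_two, hF]
      simp only
      rw [← ENNReal.ofReal_pow (abs_nonneg _), sq_abs]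
    have e2 : F x ^ (2:ℝ) = F x ^ p * F x ^ (2 - p) := by
      rw [← ENNReal.rpow_add_of_nonneg _ _ hp0.le h2p.le]
      congr 1; ring
    rw [e1, e2]
    calc F x ^ p * F x ^ (2 - p) * W x ≤ F x ^ p * h x ^ (2 - p) * W x := by
          gcongr
      _ = F x ^ p * U x * (h x ^ (2 - p) * h x ^ (p - 2)) := by
          simp only [hW]; ring
      _ = F x ^ p * U x := by
          rw [← ENNReal.rpow_add _ _ (hh.pos x) (hh.fin x)]
          have : 2 - p + (p - 2) = 0 := by ring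
          rw [this, ENNReal.rpow_zero, mul_one]
  have hinner_t : ∫⁻ x, ENNReal.ofReal (f x ^ 2) * W x ≠ ⊤ :=
    (lt_of_le_of_lt hinner hfin.lt_top).ne
  obtain ⟨Pf, hAF⟩ := hC2 W hWt hWA f hf hinner_t
  refine ⟨Pf, fun a b c H => ?_⟩
  have hΨ := measurable_Dens H
  have hAFm := measurable_AF hΨ 1
  have hconj : (2 / p).HolderConjugate (1 / (1 - p / 2)) := by
    rw [Real.holderConjugate_iff]
    constructor
    · rw [lt_div_iff₀ hp0]; linarith
    · rw [one_div, inv_inv, inv_div]; ring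
  have h1 := ENNReal.lintegral_mul_le_Lp_mul_Lq (μ := volume) hconj
    (f := fun x => (AF (Dens a b) 1 x * W x) ^ (p / 2))
    (g := fun x => (h x ^ p * U x) ^ (1 - p / 2))
    ((hAFm.mul hWt.meas).pow_const _).aemeasurable
    (((hh.meas.pow_const _).mul hU.meas).pow_const _).aemeasurable
  have hp2' : 0 < 1 - p / 2 := by linarith
  have e1 : ∀ x, ((AF (Dens a b) 1 x * W x) ^ (p / 2)) ^ (2 / p) = AF (Dens a b) 1 x * W x := by
    intro x
    rw [← ENNReal.rpow_mul]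
    have : p / 2 * (2 / p) = 1 := by field_simp
    rw [this, ENNReal.rpow_one]
  have e2 : ∀ x, ((h x ^ p * U x) ^ (1 - p / 2)) ^ (1 / (1 - p / 2)) = h x ^ p * U x := by
    intro x
    rw [← ENNReal.rpow_mul, mul_one_div_cancel hp2'.ne', ENNReal.rpow_one]
  simp only [e1, e2, one_div_one_div] at h1
  have e3 : (1:ℝ) / (2 / p) = p / 2 := by rw [one_div_div]
  rw [e3] at h1
  calc ∫⁻ x, AF (Dens a b) 1 x ^ (p / 2) * U x
      = ∫⁻ x, ((fun x => (AF (Dens a b) 1 x * W x) ^ (p / 2)) *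
          fun x => (h x ^ p * U x) ^ (1 - p / 2)) x := by
        apply lintegral_congr
        intro x
        simp only [Pi.mul_apply]
        rw [ENNReal.mul_rpow_of_nonneg _ _ (by positivity : (0:ℝ) ≤ p / 2), mul_assoc]
        congr 1
        simp only [hW]
        rw [ENNReal.mul_rpow_of_ne_zero (hU.pos x) (rpow_ne_zero' (hh.pos x) (hh.fin x) _),
          ENNReal.mul_rpow_of_ne_zero (rpow_ne_zero' (hh.pos x) (hh.fin x) _) (hU.pos x),
          ← ENNReal.rpow_mul, ← ENNReal.rpow_mul]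
        calc U x = U x ^ (p / 2 + (1 - p / 2)) *
              h x ^ ((p - 2) * (p / 2) + p * (1 - p / 2)) := by
              have t1 : p / 2 + (1 - p / 2) = 1 := by ring
              have t2 : (p - 2) * (p / 2) + p * (1 - p / 2) = 0 := by ring
              rw [t1, t2, ENNReal.rpow_one, ENNReal.rpow_zero, mul_one]
          _ = _ := by
              rw [ENNReal.rpow_add _ _ (hU.pos x) (hU.fin x),
                ENNReal.rpow_add _ _ (hh.pos x) (hh.fin x)]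
              ring
    _ ≤ (∫⁻ x, AF (Dens a b) 1 x * W x) ^ (p / 2) * (∫⁻ x, h x ^ p * U x) ^ (1 - p / 2) := h1
    _ ≤ (C2 * ∫⁻ x, F x ^ p * U x) ^ (p / 2) * (2 ^ p * ∫⁻ x, F x ^ p * U x) ^ (1 - p / 2) := by
        gcongr
        exact (hAF a b c H).trans (by gcongr)
    _ = Ce * (∫⁻ x, F x ^ p * U x) := by
        rw [ENNReal.mul_rpow_of_nonneg _ _ (by positivity : (0:ℝ) ≤ p / 2),
          ENNReal.mul_rpow_of_nonneg _ _ hp2'.le]
        have e4 : (∫⁻ x, F x ^ p * U x) = (∫⁻ x, F x ^ p * U x) ^ (p / 2) *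
            (∫⁻ x, F x ^ p * U x) ^ (1 - p / 2) := by
          rw [← ENNReal.rpow_add_of_nonneg _ _ (by positivity) hp2'.le]
          have t1 : p / 2 + (1 - p / 2) = 1 := by ring
          rw [t1, ENNReal.rpow_one]
        nth_rewrite 3 [e4]
        rw [hCe]
        ring

end Pool.Agent.Y273.GL
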