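import Mathlib

set_option autoImplicit false
open MeasureTheory Set Filter Topology
open scoped ENNReal NNReal

namespace Pool.Agent.Y273.GL

/-- the auxiliary concave function of the weight and its dual -/
noncomputable def T0 (w s : ℝ) : ℝ := 2 * s - 1 / (2 * w ^ 2 * s)
noncomputable def T1 (w s w1 s1 : ℝ) : ℝ := 2 * s1 + (2 * w1 * s + w * s1) / (2 * w ^ 3 * s ^ 2)
noncomputable def T2 (w s w1 s1 w2 s2 : ℝ) : ℝ :=
  2 * s2 + (2 * w2 * s + 3 * w1 * s1 + w * s2) / (2 * w ^ 3 * s ^ 2) -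
    (2 * w1 * s + w * s1) * (3 * w1 * s + 2 * w * s1) / (2 * w ^ 4 * s ^ 3)
noncomputable def B1 (X1 Y Y1 T T' : ℝ) : ℝ := X1 - 2 * Y * Y1 / T + Y ^ 2 * T' / T ^ 2
noncomputable def B2 (X2 Y Y1 Y2 T T' T'' : ℝ) : ℝ :=
  X2 - 2 * Y * Y2 / T + Y ^ 2 * T'' / T ^ 2 - 2 / T * (Y1 - Y / T * T') ^ 2

lemma dT0 {w s : ℝ → ℝ} {w1 s1 x : ℝ} (hw : HasDerivAt w w1 x) (hs : HasDerivAt s s1 x)
    (pw : 0 < w x) (ps : 0 < s x) :
    HasDerivAt (fun x => T0 (w x) (s x)) (T1 (w x) (s x) w1 s1) x := by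
  have h1 := ((hw.pow 2).mul hs).const_mul 2
  have hne : 2 * (w x ^ 2 * s x) ≠ 0 := by positivity
  have h2 := (hs.const_mul 2).sub (h1.fun_inv hne)
  have e : (fun x => T0 (w x) (s x)) = fun x => 2 * s x - (2 * (w x ^ 2 * s x))⁻¹ := by
    funext x; unfold T0; rw [one_div]; ring_nf
  rw [e]
  refine h2.congr_deriv ?_
  simp only [T1, Pi.pow_apply, Pi.mul_apply]
  field_simp
  ring

lemma dT1 {w s w1 s1 : ℝ → ℝ} {w2 s2 x : ℝ} (hw : HasDerivAt w (w1 x) x)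
    (hs : HasDerivAt s (s1 x) x) (hw1 : HasDerivAt w1 w2 x) (hs1 : HasDerivAt s1 s2 x)
    (pw : 0 < w x) (ps : 0 < s x) :
    HasDerivAt (fun x => T1 (w x) (s x) (w1 x) (s1 x)) (T2 (w x) (s x) (w1 x) (s1 x) w2 s2) x := by
  have h1 := ((hw.pow 3).mul (hs.pow 2)).const_mul 2
  have hne : 2 * (w x ^ 3 * s x ^ 2) ≠ 0 := by positivity
  have h3 := ((hw1.mul hs).const_mul 2).add (hw.mul hs1)
  have h4 := (hs1.const_mul 2).add (h3.fun_div h1 hne)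
  have e : (fun x => T1 (w x) (s x) (w1 x) (s1 x)) = fun x => 2 * s1 x +
      (2 * (w1 x * s x) + w x * s1 x) / (2 * (w x ^ 3 * s x ^ 2)) := by
    funext x; unfold T1; ring_nf
  rw [e]
  refine h4.congr_deriv ?_
  simp only [T2, Pi.pow_apply, Pi.mul_apply, Pi.add_apply]
  field_simp
  ring

lemma dB0 {X Y T : ℝ → ℝ} {X1 Y1 T' x : ℝ} (hX : HasDerivAt X X1 x) (hY : HasDerivAt Y Y1 x)
    (hT : HasDerivAt T T' x) (pT : 0 < T x) :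
    HasDerivAt (fun x => X x - Y x ^ 2 / T x) (B1 X1 (Y x) Y1 (T x) T') x := by
  have h := hX.sub ((hY.fun_pow 2).fun_div hT pT.ne')
  refine h.congr_deriv ?_
  simp only [B1]
  field_simp
  ring

lemma dB1 {X1 Y Y1 T T' : ℝ → ℝ} {X2 Y2 T'' x : ℝ} (hX1 : HasDerivAt X1 X2 x)
    (hY : HasDerivAt Y (Y1 x) x) (hY1 : HasDerivAt Y1 Y2 x) (hT : HasDerivAt T (T' x) x)
    (hT' : HasDerivAt T' T'' x) (pT : 0 < T x) :
    HasDerivAt (fun x => B1 (X1 x) (Y x) (Y1 x) (T x) (T' x))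
      (B2 X2 (Y x) (Y1 x) Y2 (T x) (T' x) T'') x := by
  have h1 := (((hY.mul hY1).const_mul 2).fun_div hT pT.ne')
  have hne : T x ^ 2 ≠ 0 := by positivity
  have h2 := (((hY.fun_pow 2).mul hT').fun_div (hT.fun_pow 2) hne)
  have h := (hX1.sub h1).add h2
  have e : (fun x => B1 (X1 x) (Y x) (Y1 x) (T x) (T' x)) = fun x => X1 x -
      2 * (Y x * Y1 x) / T x + Y x ^ 2 * T' x / T x ^ 2 := by
    funext x; unfold B1; ring_nf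
  rw [e]
  refine h.congr_deriv ?_
  simp only [B2, Pi.mul_apply]
  field_simp
  ring

/-- the dissipation in one direction -/
noncomputable def Dis (w s Y w1 s1 Y1 : ℝ) : ℝ :=
  2 / T0 w s * (Y1 - Y / T0 w s * T1 w s w1 s1) ^ 2 +
    (Y / T0 w s) ^ 2 * ((6 * w1 ^ 2 * s ^ 2 + 4 * w1 * s1 * w * s + 2 * w ^ 2 * s1 ^ 2) /
      (2 * w ^ 4 * s ^ 3))

lemma lap {w s Y X2 Y2 w2 s2 wz sz Yz wy sy Yy : ℝ} (hw : 0 < w) (hs : 0 < s) (hT : 0 < T0 w s) :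
    -(B2 X2 Y Yz Y2 (T0 w s) (T1 w s wz sz) (T2 w s wz sz w2 s2) +
      B2 (-X2) Y Yy (-Y2) (T0 w s) (T1 w s wy sy) (T2 w s wy sy (-w2) (-s2))) =
      Dis w s Y wz sz Yz + Dis w s Y wy sy Yy := by
  have e : T2 w s wz sz w2 s2 + T2 w s wy sy (-w2) (-s2) =
      -((6 * wz ^ 2 * s ^ 2 + 4 * wz * sz * w * s + 2 * w ^ 2 * sz ^ 2) / (2 * w ^ 4 * s ^ 3)) -
      ((6 * wy ^ 2 * s ^ 2 + 4 * wy * sy * w * s + 2 * w ^ 2 * sy ^ 2) / (2 * w ^ 4 * s ^ 3)) := by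
    unfold T2
    field_simp
    ring
  have e2 : T2 w s wy sy (-w2) (-s2) =
      -((6 * wz ^ 2 * s ^ 2 + 4 * wz * sz * w * s + 2 * w ^ 2 * sz ^ 2) / (2 * w ^ 4 * s ^ 3)) -
      ((6 * wy ^ 2 * s ^ 2 + 4 * wy * sy * w * s + 2 * w ^ 2 * sy ^ 2) / (2 * w ^ 4 * s ^ 3)) -
      T2 w s wz sz w2 s2 := by linarith
  unfold B2 Dis
  rw [e2]
  generalize T0 w s = T at *
  generalize T1 w s wz sz = A at *
  generalize T1 w s wy sy = B at *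
  generalize T2 w s wz sz w2 s2 = C at *
  generalize ((6 * wz ^ 2 * s ^ 2 + 4 * wz * sz * w * s + 2 * w ^ 2 * sz ^ 2) /
    (2 * w ^ 4 * s ^ 3)) = D at *
  generalize ((6 * wy ^ 2 * s ^ 2 + 4 * wy * sy * w * s + 2 * w ^ 2 * sy ^ 2) /
    (2 * w ^ 4 * s ^ 3)) = E at *
  field_simp
  ring

lemma T0_bounds {w s : ℝ} (hw : 0 < w) (hs : 0 < s) (h1 : 1 ≤ w * s) :
    s ≤ T0 w s ∧ T0 w s ≤ 2 * s := by
  unfold T0
  have h2 : 0 < 1 / (2 * w ^ 2 * s) := by positivity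
  have h3 : 1 / (2 * w ^ 2 * s) ≤ s := by
    rw [div_le_iff₀ (by positivity)]
    nlinarith [mul_pos hw hs]
  constructor <;> linarith

lemma quad_ineq {δ ξ η : ℝ} (h0 : 0 ≤ δ) (h1 : δ ≤ 1) :
    (2 * η + δ * (ξ + η / 2)) ^ 2 ≤ 8 * (3 * ξ ^ 2 + 2 * ξ * η + η ^ 2) := by
  have hA : 0 < 24 - δ ^ 2 := by nlinarith
  have key : 0 ≤ (24 - δ ^ 2) * (8 * (3 * ξ ^ 2 + 2 * ξ * η + η ^ 2) -
      (2 * η + δ * (ξ + η / 2)) ^ 2) := by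
    have e : (24 - δ ^ 2) * (8 * (3 * ξ ^ 2 + 2 * ξ * η + η ^ 2) -
      (2 * η + δ * (ξ + η / 2)) ^ 2) =
      ((24 - δ ^ 2) * ξ + (8 - 2 * δ - δ ^ 2 / 2) * η) ^ 2 +
        ((24 - δ ^ 2) * (8 - (2 + δ / 2) ^ 2) - (8 - 2 * δ - δ ^ 2 / 2) ^ 2) * η ^ 2 := by ring
    rw [e]
    have h3 : 0 ≤ (24 - δ ^ 2) * (8 - (2 + δ / 2) ^ 2) - (8 - 2 * δ - δ ^ 2 / 2) ^ 2 := by
      nlinarith [mul_nonneg h0 (sub_nonneg.2 h1), mul_nonneg (mul_nonneg h0 h0) (sub_nonneg.2 h1),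
        mul_nonneg (mul_nonneg (mul_nonneg h0 h0) h0) (sub_nonneg.2 h1)]
    positivity
  have := nonneg_of_mul_nonneg_right key hA
  linarith

lemma key_ineq {w s Q Y w1 s1 Y1 : ℝ} (hw : 0 < w) (hs : 0 < s) (h1 : 1 ≤ w * s)
    (hQ : w * s ≤ Q) : w * Y1 ^ 2 ≤ 20 * Q ^ 3 * Dis w s Y w1 s1 Y1 := by
  obtain ⟨hT1, hT2⟩ := T0_bounds hw hs h1
  have hT : 0 < T0 w s := hs.trans_le hT1
  have hQ1 : 1 ≤ Q := h1.trans hQ
  have hQ3 : Q ≤ Q ^ 3 := by nlinarith [mul_self_nonneg (Q - 1), mul_nonneg (sub_nonneg.2 hQ1) (by linarith : (0:ℝ) ≤ Q)]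
  set h := Y / T0 w s with hh
  set ξ := w1 / w with hξ
  set η := s1 / s with hη
  set δ := 1 / (w * s) ^ 2 with hδ
  have hδ0 : 0 < δ := by positivity
  have hδ1 : δ ≤ 1 := by
    rw [hδ, div_le_one (by positivity)]
    exact one_le_pow₀ h1
  have hδQ : 1 ≤ Q ^ 2 * δ := by
    rw [hδ, mul_one_div, one_le_div (by positivity)]
    gcongr
  have e1 : T1 w s w1 s1 = s * (2 * η + δ * (ξ + η / 2)) := by
    unfold T1
    rw [hξ, hη, hδ]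
    field_simp
  have e2 : (6 * w1 ^ 2 * s ^ 2 + 4 * w1 * s1 * w * s + 2 * w ^ 2 * s1 ^ 2) / (2 * w ^ 4 * s ^ 3) =
      s * δ * (3 * ξ ^ 2 + 2 * ξ * η + η ^ 2) := by
    rw [hξ, hη, hδ]
    field_simp
    ring
  unfold Dis
  rw [← hh, e1, e2]
  set P := 3 * ξ ^ 2 + 2 * ξ * η + η ^ 2 with hP
  have hP0 : 0 ≤ P := by rw [hP]; nlinarith [sq_nonneg (ξ + η), sq_nonneg ξ]
  have hq := quad_ineq (ξ := ξ) (η := η) hδ0.le hδ1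
  rw [← hP] at hq
  set A := 2 * η + δ * (ξ + η / 2) with hA
  set Z := Y1 - h * (s * A) with hZ
  have eY : Y1 = Z + h * (s * A) := by rw [hZ]; ring
  have i1 : w * Y1 ^ 2 ≤ 2 * w * Z ^ 2 + 2 * w * (h ^ 2 * (s ^ 2 * A ^ 2)) := by
    rw [eY]
    nlinarith [mul_nonneg hw.le (sq_nonneg (Z - h * (s * A)))]
  have i2 : 2 * w * Z ^ 2 ≤ 2 * Q * (2 / T0 w s * Z ^ 2) := by
    have : w * T0 w s ≤ 2 * Q := by nlinarith
    have h3 : 2 * w * Z ^ 2 = (w * T0 w s) * (2 / T0 w s * Z ^ 2) := by field_simp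
    rw [h3]
    gcongr
  have i3 : 2 * w * (h ^ 2 * (s ^ 2 * A ^ 2)) ≤ 16 * Q ^ 3 * (h ^ 2 * (s * δ * P)) := by
    calc 2 * w * (h ^ 2 * (s ^ 2 * A ^ 2)) = 2 * h ^ 2 * s * ((w * s) * A ^ 2) := by ring
      _ ≤ 2 * h ^ 2 * s * (Q * (8 * P)) := by gcongr
      _ = 16 * Q * (h ^ 2 * (s * P)) * 1 := by ring
      _ ≤ 16 * Q * (h ^ 2 * (s * P)) * (Q ^ 2 * δ) := by gcongr
      _ = _ := by ring
  have p1 : 0 ≤ 2 / T0 w s * Z ^ 2 := by positivity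
  have p2 : 0 ≤ h ^ 2 * (s * δ * P) := by positivity
  have i4 : 2 * Q * (2 / T0 w s * Z ^ 2) ≤ 20 * Q ^ 3 * (2 / T0 w s * Z ^ 2) := by
    gcongr
    linarith
  have i5 : 16 * Q ^ 3 * (h ^ 2 * (s * δ * P)) ≤ 20 * Q ^ 3 * (h ^ 2 * (s * δ * P)) := by
    gcongr
    norm_num
  calc w * Y1 ^ 2 ≤ _ := i1
    _ ≤ 20 * Q ^ 3 * (2 / T0 w s * Z ^ 2) + 20 * Q ^ 3 * (h ^ 2 * (s * δ * P)) := by linarith
    _ = _ := by ring

lemma Dis_nonneg {w s Y w1 s1 Y1 : ℝ} (hw : 0 < w) (hs : 0 < s) (h1 : 1 ≤ w * s) :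
    0 ≤ Dis w s Y w1 s1 Y1 := by
  have h := key_ineq (Y := Y) (w1 := w1) (s1 := s1) (Y1 := Y1) hw hs h1 le_rfl
  have h2 : 0 ≤ w * Y1 ^ 2 := by positivity
  have h3 : 0 < 20 * (w * s) ^ 3 := by positivity
  exact nonneg_of_mul_nonneg_right (h2.trans h) h3

end Pool.Agent.Y273.GL
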