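import Mathlib

set_option autoImplicit false
open MeasureTheory Set Filter Topology
open scoped ENNReal NNReal

namespace Pool.Agent.Y273.GL

lemma ibp {φ φ1 φ2 g g1 g2 : ℝ → ℝ} {p q : ℝ} (h : p ≤ q)
    (hφ : ∀ x ∈ Icc p q, HasDerivAt φ (φ1 x) x) (hφ1 : ∀ x ∈ Icc p q, HasDerivAt φ1 (φ2 x) x)
    (hg : ∀ x ∈ Icc p q, HasDerivAt g (g1 x) x) (hg1 : ∀ x ∈ Icc p q, HasDerivAt g1 (g2 x) x)
    (cφ : ContinuousOn φ2 (Icc p q)) (cg : ContinuousOn g2 (Icc p q)) :
    ∫ x in Icc p q, g x * φ2 x = (g q * φ1 q - g1 q * φ q) - (g p * φ1 p - g1 p * φ p) +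
      ∫ x in Icc p q, g2 x * φ x := by
  have c0 : ContinuousOn φ (Icc p q) := fun x hx => (hφ x hx).continuousAt.continuousWithinAt
  have c1 : ContinuousOn g (Icc p q) := fun x hx => (hg x hx).continuousAt.continuousWithinAt
  have i1 : IntegrableOn (fun x => g x * φ2 x) (Icc p q) :=
    (c1.mul cφ).integrableOn_compact isCompact_Icc
  have i2 : IntegrableOn (fun x => g2 x * φ x) (Icc p q) :=
    (cg.mul c0).integrableOn_compact isCompact_Icc
  have key := intervalIntegral.integral_eq_sub_of_hasDerivAt (a := p) (b := q)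
    (f := fun x => g x * φ1 x - g1 x * φ x) (f' := fun x => g x * φ2 x - g2 x * φ x) (by
      intro x hx
      rw [uIcc_of_le h] at hx
      have h1 := ((hg x hx).mul (hφ1 x hx)).sub ((hg1 x hx).mul (hφ x hx))
      refine h1.congr_deriv ?_
      ring) (by
      rw [intervalIntegrable_iff_integrableOn_Icc_of_le h]
      exact i1.sub i2)
  rw [intervalIntegral.integral_of_le h, ← integral_Icc_eq_integral_Ioc, integral_sub i1 i2] at key
  linarith

/-- the two cut-off functions -/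
noncomputable def ca (R z : ℝ) : ℝ := (1 - z ^ 2 / R ^ 2) ^ 2
noncomputable def cb (e R y : ℝ) : ℝ := (y - e) * (1 - y / R) ^ 2

lemma z_dir {R : ℝ} (hR : 0 < R) {φ φ1 φ2 X : ℝ → ℝ}
    (hφ : ∀ x, HasDerivAt φ (φ1 x) x) (hφ1 : ∀ x, HasDerivAt φ1 (φ2 x) x)
    (cφ : Continuous φ2) (h0 : ∀ x, 0 ≤ φ x) (hX : ∀ x, φ x ≤ X x) (cX : Continuous X) :
    -∫ z in Icc (-R) R, ca R z * φ2 z ≤ 8 / R ^ 2 * ∫ z in Icc (-R) R, X z := by
  have hRR : R ^ 2 ≠ 0 := by positivity
  have h := ibp (φ := φ) (φ1 := φ1) (φ2 := φ2) (g := ca R)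
    (g1 := fun z => -(4 * z / R ^ 2) * (1 - z ^ 2 / R ^ 2))
    (g2 := fun z => -(4 / R ^ 2) + 12 * z ^ 2 / R ^ 4) (p := -R) (q := R) (by linarith)
    (fun x _ => hφ x) (fun x _ => hφ1 x) (by
      intro x _
      have h1 : HasDerivAt (fun z : ℝ => 1 - z ^ 2 / R ^ 2) (-(2 * x / R ^ 2)) x := by
        have := (((hasDerivAt_id x).pow 2).div_const (R ^ 2)).const_sub 1
        simpa using this
      have h2 := h1.pow 2
      refine h2.congr_deriv ?_
      simp
      ring) (by
      intro x _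
      have h1 : HasDerivAt (fun z : ℝ => 1 - z ^ 2 / R ^ 2) (-(2 * x / R ^ 2)) x := by
        have := (((hasDerivAt_id x).pow 2).div_const (R ^ 2)).const_sub 1
        simpa using this
      have h3 : HasDerivAt (fun z : ℝ => -(4 * z / R ^ 2)) (-(4 / R ^ 2)) x := by
        have h4 : HasDerivAt (fun z : ℝ => 4 * z / R ^ 2) (4 / R ^ 2) x := by
          simpa using ((hasDerivAt_id x).const_mul 4).div_const (R ^ 2)
        exact h4.neg
      have h2 := h3.mul h1
      refine h2.congr_deriv ?_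
      field_simp
      ring) cφ.continuousOn (by fun_prop)
  have e1 : ca R R = 0 := by unfold ca; field_simp; ring
  have e2 : ca R (-R) = 0 := by unfold ca; field_simp; ring
  have e3 : (1 - R ^ 2 / R ^ 2) = 0 := by field_simp; ring
  have e4 : (1 - (-R) ^ 2 / R ^ 2) = 0 := by field_simp; ring
  simp only [e1, e2, e3, e4] at h
  simp only [zero_mul, mul_zero, zero_add, sub_self] at h
  have c0 : Continuous φ := continuous_iff_continuousAt.2 fun x => (hφ x).continuousAt
  rw [h, ← integral_neg, ← integral_const_mul]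
  have hc : Continuous fun z : ℝ => -((-(4 / R ^ 2) + 12 * z ^ 2 / R ^ 4) * φ z) := by fun_prop
  apply setIntegral_mono_on (hc.continuousOn.integrableOn_compact isCompact_Icc)
    ((continuous_const.mul cX).continuousOn.integrableOn_compact isCompact_Icc) measurableSet_Icc
  intro z hz
  have hz2 : z ^ 2 ≤ R ^ 2 := sq_le_sq' hz.1 hz.2
  have h5 : -(-(4 / R ^ 2) + 12 * z ^ 2 / R ^ 4) ≤ 8 / R ^ 2 := by
    have : 0 ≤ 12 * z ^ 2 / R ^ 4 := by positivity
    have h6 : 4 / R ^ 2 ≤ 8 / R ^ 2 := by gcongr; norm_num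
    linarith
  calc -((-(4 / R ^ 2) + 12 * z ^ 2 / R ^ 4) * φ z)
      = -(-(4 / R ^ 2) + 12 * z ^ 2 / R ^ 4) * φ z := by ring
    _ ≤ 8 / R ^ 2 * φ z := by gcongr; exact h0 z
    _ ≤ 8 / R ^ 2 * X z := by gcongr; exact hX z

lemma y_dir {e R : ℝ} (he : 0 < e) (heR : e < R) {φ φ1 φ2 X : ℝ → ℝ}
    (hφ : ∀ x ∈ Icc e R, HasDerivAt φ (φ1 x) x) (hφ1 : ∀ x ∈ Icc e R, HasDerivAt φ1 (φ2 x) x)
    (cφ : ContinuousOn φ2 (Icc e R)) (h0 : ∀ x ∈ Icc e R, 0 ≤ φ x)
    (hX : ∀ x ∈ Icc e R, φ x ≤ X x) (cX : ContinuousOn X (Icc e R)) :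
    -∫ y in Icc e R, cb e R y * φ2 y ≤ 6 / R * ∫ y in Icc e R, X y := by
  have hR : 0 < R := he.trans heR
  have hRR : R ≠ 0 := hR.ne'
  have h := ibp (φ := φ) (φ1 := φ1) (φ2 := φ2) (g := cb e R)
    (g1 := fun y => (1 - y / R) ^ 2 - 2 / R * ((y - e) * (1 - y / R)))
    (g2 := fun y => -(4 / R) * (1 - y / R) + 2 / R ^ 2 * (y - e)) (p := e) (q := R) heR.le
    hφ hφ1 (by
      intro x _
      have h1 : HasDerivAt (fun z : ℝ => 1 - z / R) (-(1 / R)) x := by
        have := ((hasDerivAt_id x).div_const R).const_sub 1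
        simpa using this
      have h2 : HasDerivAt (fun z : ℝ => z - e) 1 x := (hasDerivAt_id x).sub_const e
      refine (h2.mul (h1.pow 2)).congr_deriv ?_
      simp
      ring) (by
      intro x _
      have h1 : HasDerivAt (fun z : ℝ => 1 - z / R) (-(1 / R)) x := by
        have := ((hasDerivAt_id x).div_const R).const_sub 1
        simpa using this
      have h2 : HasDerivAt (fun z : ℝ => z - e) 1 x := (hasDerivAt_id x).sub_const e
      refine ((h1.pow 2).sub ((h2.mul h1).const_mul (2 / R))).congr_deriv ?_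
      simp
      field_simp
      ring) cφ (by fun_prop)
  have e1 : cb e R R = 0 := by unfold cb; field_simp; ring
  have e2 : cb e R e = 0 := by unfold cb; ring
  have e3 : (1 - R / R) = 0 := by field_simp; ring
  simp only [e1, e2, e3] at h
  have hge : 0 ≤ ((1 - e / R) ^ 2 - 2 / R * ((e - e) * (1 - e / R))) * φ e := by
    have h5 := h0 e (left_mem_Icc.2 heR.le)
    have : ((1 - e / R) ^ 2 - 2 / R * ((e - e) * (1 - e / R))) = (1 - e / R) ^ 2 := by ring
    rw [this]
    positivity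
  have h6 : -∫ y in Icc e R, cb e R y * φ2 y ≤
      -∫ y in Icc e R, (-(4 / R) * (1 - y / R) + 2 / R ^ 2 * (y - e)) * φ y := by
    rw [h]
    have : (0:ℝ) ^ 2 - 2 / R * ((R - e) * 0) = 0 := by ring
    rw [this]
    linarith
  refine h6.trans ?_
  have c0 : ContinuousOn φ (Icc e R) := fun x hx => (hφ x hx).continuousAt.continuousWithinAt
  rw [← integral_neg, ← integral_const_mul]
  have hc : ContinuousOn (fun y : ℝ => -((-(4 / R) * (1 - y / R) + 2 / R ^ 2 * (y - e)) * φ y))
      (Icc e R) := by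
    apply ContinuousOn.neg
    apply ContinuousOn.mul _ c0
    fun_prop
  apply setIntegral_mono_on (hc.integrableOn_compact isCompact_Icc)
    ((continuousOn_const.mul cX).integrableOn_compact isCompact_Icc) measurableSet_Icc
  intro y hy
  have h5 : -(-(4 / R) * (1 - y / R) + 2 / R ^ 2 * (y - e)) ≤ 6 / R := by
    have h7 : 0 ≤ 2 / R ^ 2 * (y - e) := mul_nonneg (by positivity) (by linarith [hy.1])
    have h8 : 0 ≤ y / R := div_nonneg (by linarith [hy.1]) hR.le
    have h9 : 4 / R * (1 - y / R) ≤ 4 / R * 1 := by gcongr; linarith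
    have h10 : 4 / R ≤ 6 / R := by gcongr; norm_num
    linarith
  calc -((-(4 / R) * (1 - y / R) + 2 / R ^ 2 * (y - e)) * φ y)
      = -(-(4 / R) * (1 - y / R) + 2 / R ^ 2 * (y - e)) * φ y := by ring
    _ ≤ 6 / R * φ y := by gcongr; exact h0 y hy
    _ ≤ 6 / R * X y := by gcongr; exact hX y hy

/-- Green's formula on a rectangle, one sided -/
theorem green {e R N : ℝ} (he : 0 < e) (heR : e < R) {B Bz Bzz By Byy X : ℝ → ℝ → ℝ}
    (hz : ∀ z y, 0 < y → HasDerivAt (fun z => B z y) (Bz z y) z)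
    (hzz : ∀ z y, 0 < y → HasDerivAt (fun z => Bz z y) (Bzz z y) z)
    (hy : ∀ z y, 0 < y → HasDerivAt (fun y => B z y) (By z y) y)
    (hyy : ∀ z y, 0 < y → HasDerivAt (fun y => By z y) (Byy z y) y)
    (czz : ContinuousOn (fun p : ℝ × ℝ => Bzz p.1 p.2) {p | 0 < p.2})
    (cyy : ContinuousOn (fun p : ℝ × ℝ => Byy p.1 p.2) {p | 0 < p.2})
    (cX : ContinuousOn (fun p : ℝ × ℝ => X p.1 p.2) {p | 0 < p.2})
    (h0 : ∀ z y, 0 < y → 0 ≤ B z y) (hX : ∀ z y, 0 < y → B z y ≤ X z y)
    (hN : ∀ y, 0 < y → ∫ z in Icc (-R) R, X z y ≤ N) :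
    ∫ p in Icc (-R) R ×ˢ Icc e R, ca R p.1 * cb e R p.2 * (-(Bzz p.1 p.2 + Byy p.1 p.2)) ≤
      14 * N := by
  have hR : 0 < R := he.trans heR
  have hsub : Icc (-R) R ×ˢ Icc e R ⊆ {p : ℝ × ℝ | 0 < p.2} := by
    intro p hp
    exact he.trans_le hp.2.1
  have hK : IsCompact (Icc (-R) R ×ˢ Icc e R) := isCompact_Icc.prod isCompact_Icc
  have cca : Continuous fun p : ℝ × ℝ => ca R p.1 := by unfold ca; fun_prop
  have ccb : Continuous fun p : ℝ × ℝ => cb e R p.2 := by unfold cb; fun_prop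
  -- integrability
  have I1 : IntegrableOn (fun p : ℝ × ℝ => ca R p.1 * cb e R p.2 * Bzz p.1 p.2)
      (Icc (-R) R ×ˢ Icc e R) :=
    ((cca.mul ccb).continuousOn.mul (czz.mono hsub)).integrableOn_compact hK
  have I2 : IntegrableOn (fun p : ℝ × ℝ => ca R p.1 * cb e R p.2 * Byy p.1 p.2)
      (Icc (-R) R ×ˢ Icc e R) :=
    ((cca.mul ccb).continuousOn.mul (cyy.mono hsub)).integrableOn_compact hK
  have I3 : IntegrableOn (fun p : ℝ × ℝ => X p.1 p.2) (Icc (-R) R ×ˢ Icc e R) :=
    (cX.mono hsub).integrableOn_compact hK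
  have hprod : (volume : Measure (ℝ × ℝ)).restrict (Icc (-R) R ×ˢ Icc e R) =
      (volume.restrict (Icc (-R) R)).prod (volume.restrict (Icc e R)) := by
    rw [Measure.prod_restrict]; rfl
  unfold IntegrableOn at I1 I2 I3
  rw [hprod] at I1 I2 I3 ⊢
  have hcont_z : ∀ (G : ℝ → ℝ → ℝ), ContinuousOn (fun p : ℝ × ℝ => G p.1 p.2) {p | 0 < p.2} →
      ∀ y, 0 < y → Continuous fun z => G z y := by
    intro G hG y hy
    have h1 : Continuous fun z : ℝ => ((z, y) : ℝ × ℝ) := by fun_prop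
    exact hG.comp_continuous h1 (fun z => hy)
  have hcont_y : ∀ (G : ℝ → ℝ → ℝ), ContinuousOn (fun p : ℝ × ℝ => G p.1 p.2) {p | 0 < p.2} →
      ∀ z, ContinuousOn (fun y => G z y) (Icc e R) := by
    intro G hG z
    have h1 : Continuous fun y : ℝ => ((z, y) : ℝ × ℝ) := by fun_prop
    exact hG.comp h1.continuousOn (fun y hy => he.trans_le hy.1)
  have ha1 : ∀ z ∈ Icc (-R) R, 0 ≤ ca R z ∧ ca R z ≤ 1 := by
    intro z hz
    have hz2 : z ^ 2 ≤ R ^ 2 := sq_le_sq' hz.1 hz.2
    have h1 : 0 ≤ z ^ 2 / R ^ 2 := by positivity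
    have h2 : z ^ 2 / R ^ 2 ≤ 1 := by rw [div_le_one (by positivity)]; exact hz2
    unfold ca
    refine ⟨by positivity, ?_⟩
    apply pow_le_one₀ <;> linarith
  have hb1 : ∀ y ∈ Icc e R, 0 ≤ cb e R y ∧ cb e R y ≤ R := by
    intro y hy
    have h1 : 0 ≤ y / R := div_nonneg (by linarith [hy.1]) hR.le
    have h2 : y / R ≤ 1 := by rw [div_le_one hR]; exact hy.2
    have h3 : 0 ≤ y - e := by linarith [hy.1]
    unfold cb
    refine ⟨by positivity, ?_⟩
    calc (y - e) * (1 - y / R) ^ 2 ≤ (y - e) * 1 := by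
          gcongr
          apply pow_le_one₀ <;> linarith
      _ ≤ R := by linarith [hy.2]
  have hXz : ∀ y, 0 < y → 0 ≤ ∫ z in Icc (-R) R, X z y := by
    intro y hy
    apply integral_nonneg
    intro z
    exact (h0 z y hy).trans (hX z y hy)
  -- the z-part
  have A1 : -∫ p, ca R p.1 * cb e R p.2 * Bzz p.1 p.2
      ∂((volume.restrict (Icc (-R) R)).prod (volume.restrict (Icc e R))) ≤
      ∫ p, 8 / R * X p.1 p.2 ∂((volume.restrict (Icc (-R) R)).prod (volume.restrict (Icc e R))) := by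
    rw [integral_prod_symm _ I1, integral_prod_symm _ (I3.const_mul _), ← integral_neg]
    apply integral_mono_ae I1.integral_prod_right.neg (I3.const_mul _).integral_prod_right
    rw [EventuallyLE, ae_restrict_iff' measurableSet_Icc]
    refine Eventually.of_forall fun y hyI => ?_
    have hy0 : 0 < y := he.trans_le hyI.1
    have h1 := z_dir hR (fun z => hz z y hy0) (fun z => hzz z y hy0) (hcont_z _ czz y hy0)
      (fun z => h0 z y hy0) (fun z => hX z y hy0) (hcont_z _ cX y hy0)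
    simp only [Pi.neg_apply]
    have e1 : ∫ z in Icc (-R) R, ca R z * cb e R y * Bzz z y =
        cb e R y * ∫ z in Icc (-R) R, ca R z * Bzz z y := by
      rw [← integral_const_mul]
      congr 1
      funext z
      ring
    rw [e1, integral_const_mul, ← mul_neg]
    calc cb e R y * -∫ z in Icc (-R) R, ca R z * Bzz z y
        ≤ cb e R y * (8 / R ^ 2 * ∫ z in Icc (-R) R, X z y) := by
          gcongr
          exact (hb1 y hyI).1
      _ ≤ R * (8 / R ^ 2 * ∫ z in Icc (-R) R, X z y) := by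
          gcongr
          · exact mul_nonneg (by positivity) (hXz y hy0)
          · exact (hb1 y hyI).2
      _ = 8 / R * ∫ z in Icc (-R) R, X z y := by field_simp
  have A2 : -∫ p, ca R p.1 * cb e R p.2 * Byy p.1 p.2
      ∂((volume.restrict (Icc (-R) R)).prod (volume.restrict (Icc e R))) ≤
      ∫ p, 6 / R * X p.1 p.2 ∂((volume.restrict (Icc (-R) R)).prod (volume.restrict (Icc e R))) := by
    rw [integral_prod _ I2, integral_prod _ (I3.const_mul _), ← integral_neg]
    apply integral_mono_ae I2.integral_prod_left.neg (I3.const_mul _).integral_prod_left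
    rw [EventuallyLE, ae_restrict_iff' measurableSet_Icc]
    refine Eventually.of_forall fun z hzI => ?_
    have hpos : ∀ y ∈ Icc e R, 0 < y := fun y hyI => he.trans_le hyI.1
    have h1 := y_dir he heR (fun y hyI => hy z y (hpos y hyI)) (fun y hyI => hyy z y (hpos y hyI))
      (hcont_y _ cyy z) (fun y hyI => h0 z y (hpos y hyI)) (fun y hyI => hX z y (hpos y hyI))
      (hcont_y _ cX z)
    simp only [Pi.neg_apply]
    have e1 : ∫ y in Icc e R, ca R z * cb e R y * Byy z y =
        ca R z * ∫ y in Icc e R, cb e R y * Byy z y := by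
      rw [← integral_const_mul]
      congr 1
      funext y
      ring
    have hXy : 0 ≤ ∫ y in Icc e R, X z y := by
      apply setIntegral_nonneg measurableSet_Icc
      intro y hyI
      exact (h0 z y (hpos y hyI)).trans (hX z y (hpos y hyI))
    rw [e1, integral_const_mul, ← mul_neg]
    calc ca R z * -∫ y in Icc e R, cb e R y * Byy z y
        ≤ ca R z * (6 / R * ∫ y in Icc e R, X z y) := by
          gcongr
          exact (ha1 z hzI).1
      _ ≤ 1 * (6 / R * ∫ y in Icc e R, X z y) := by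
          gcongr
          exact (ha1 z hzI).2
      _ = 6 / R * ∫ y in Icc e R, X z y := by ring
  have A3 : ∫ p, X p.1 p.2 ∂((volume.restrict (Icc (-R) R)).prod (volume.restrict (Icc e R))) ≤
      R * N := by
    rw [integral_prod_symm _ I3]
    have hN0 : 0 ≤ N := (hXz R hR).trans (hN R hR)
    calc ∫ y in Icc e R, ∫ z in Icc (-R) R, X z y ≤ ∫ _y in Icc e R, N := by
          apply setIntegral_mono_on I3.integral_prod_right (by simp) measurableSet_Icc
          intro y hyI
          exact hN y (he.trans_le hyI.1)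
      _ = (R - e) * N := by
          rw [setIntegral_const, smul_eq_mul, measureReal_def, Real.volume_Icc,
            ENNReal.toReal_ofReal (by linarith)]
      _ ≤ R * N := by gcongr; linarith
  have e0 : (fun p : ℝ × ℝ => ca R p.1 * cb e R p.2 * (-(Bzz p.1 p.2 + Byy p.1 p.2))) =
      fun p => -((ca R p.1 * cb e R p.2 * Bzz p.1 p.2) + (ca R p.1 * cb e R p.2 * Byy p.1 p.2)) := by
    funext p; ring
  rw [e0, integral_neg, integral_add I1 I2]
  rw [integral_const_mul] at A1 A2
  have A4 : (14 / R) * ∫ p, X p.1 p.2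
      ∂((volume.restrict (Icc (-R) R)).prod (volume.restrict (Icc e R))) ≤ 14 / R * (R * N) := by
    gcongr
  have e5 : 14 / R * (R * N) = 14 * N := by field_simp
  rw [e5] at A4
  have e6 : ∀ A : ℝ, 8 / R * A + 6 / R * A = 14 / R * A := by intro A; ring
  linarith [e6 (∫ p, X p.1 p.2
      ∂((volume.restrict (Icc (-R) R)).prod (volume.restrict (Icc e R))))]

end Pool.Agent.Y273.GL
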