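import Pool.Agent.Y273.GL.Poi
import Pool.Agent.Y273.GL.Green
import Pool.Agent.Y273.GL.BellAlg

set_option autoImplicit false
open MeasureTheory Set Filter Topology
open scoped ENNReal NNReal

namespace Pool.Agent.Y273.GL

lemma int_ker (z : ℝ) {y : ℝ} (hy : 0 < y) : ∫ t : ℝ, y / ((t - z) ^ 2 + y ^ 2) = Real.pi := by
  have h1 : ∫ t : ℝ, y / ((t - z) ^ 2 + y ^ 2) = ∫ t : ℝ, y / (t ^ 2 + y ^ 2) :=
    integral_sub_right_eq_self (fun t : ℝ => y / (t ^ 2 + y ^ 2)) z
  rw [h1]
  have h2 : (fun t : ℝ => y / (t ^ 2 + y ^ 2)) = fun t => (fun u : ℝ => y⁻¹ * (1 + u ^ 2)⁻¹) (t / y) := by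
    funext t
    simp only
    field_simp
    ring
  rw [h2, Measure.integral_comp_div (fun u : ℝ => y⁻¹ * (1 + u ^ 2)⁻¹) y, integral_const_mul,
    integral_univ_inv_one_add_sq, abs_of_pos hy, smul_eq_mul]
  field_simp

lemma int_ker' (t : ℝ) {y : ℝ} (hy : 0 < y) : ∫ z : ℝ, y / ((t - z) ^ 2 + y ^ 2) = Real.pi := by
  rw [← int_ker t hy]
  congr 1
  funext z
  congr 2
  ring

lemma pois_one : Pois (fun _ => (1:ℝ)) := by
  unfold Pois
  have := integrable_inv_one_add_sq
  refine this.congr (Eventually.of_forall fun t => ?_)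
  simp only
  rw [one_div]

lemma integrable_ker (z : ℝ) {y : ℝ} (hy : 0 < y) :
    Integrable fun t : ℝ => y / ((t - z) ^ 2 + y ^ 2) := by
  simpa using pois_one.int z hy

lemma integrable_ker' (t : ℝ) {y : ℝ} (hy : 0 < y) :
    Integrable fun z : ℝ => y / ((t - z) ^ 2 + y ^ 2) := by
  refine (integrable_ker t hy).congr (Eventually.of_forall fun z => ?_)
  simp only
  congr 2
  ring

lemma PU_one (z : ℝ) {y : ℝ} (hy : 0 < y) : PU (fun _ => 1) z y = Real.pi := by
  unfold PU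
  simp only [one_mul]
  exact int_ker z hy

lemma pois_of_integrable {g : ℝ → ℝ} (hg : Integrable g) : Pois g := by
  unfold Pois
  have h : Integrable fun t => g t * (1 + t ^ 2)⁻¹ := by
    refine hg.mul_bdd (c := 1) ?_ ?_
    · apply Continuous.aestronglyMeasurable
      apply Continuous.inv₀ (by fun_prop)
      intro t; positivity
    · refine Eventually.of_forall fun t => ?_
      rw [Real.norm_of_nonneg (by positivity)]
      exact inv_le_one_of_one_le₀ (by nlinarith [sq_nonneg t])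
  refine h.congr (Eventually.of_forall fun t => ?_)
  simp only
  rw [div_eq_mul_inv]

lemma PU_cs {f X s : ℝ → ℝ} (hf : Pois f) (hX : Pois X) (hs : Pois s)
    (h : ∀ τ t : ℝ, 2 * τ * f t ≤ X t + τ ^ 2 * s t) (z : ℝ) {y : ℝ} (hy : 0 < y) (τ : ℝ) :
    2 * τ * PU f z y ≤ PU X z y + τ ^ 2 * PU s z y := by
  unfold PU
  rw [← integral_const_mul, ← integral_const_mul, ← integral_add (hX.int z hy)
    ((hs.int z hy).const_mul _)]
  apply integral_mono ((hf.int z hy).const_mul _) ((hX.int z hy).add ((hs.int z hy).const_mul _))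
  intro t
  have hk : 0 ≤ y / ((t - z) ^ 2 + y ^ 2) := by positivity
  have := mul_le_mul_of_nonneg_right (h τ t) hk
  simp only [Pi.add_apply]
  linarith

lemma quad_le {a b c : ℝ} (hc : 0 < c) (h : ∀ τ : ℝ, 2 * τ * a ≤ b + τ ^ 2 * c) : a ^ 2 ≤ b * c := by
  have h1 := h (a / c)
  have e : b + (a / c) ^ 2 * c - 2 * (a / c) * a = b - a ^ 2 / c := by field_simp; ring
  have h2 : a ^ 2 / c ≤ b := by linarith
  rwa [div_le_iff₀ hc] at h2

/-- basic facts on a weight and its dual -/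
lemma weight_facts {w : ℝ → ℝ} (hw : ∀ t, 0 < w t) (Pw : Pois w) (Ps : Pois fun t => (w t)⁻¹)
    (z : ℝ) {y : ℝ} (hy : 0 < y) :
    0 < PU w z y ∧ 0 < PU (fun t => (w t)⁻¹) z y ∧ 1 ≤ PU w z y * PU (fun t => (w t)⁻¹) z y := by
  have A : ∀ τ : ℝ, 2 * τ * Real.pi ≤ PU w z y + τ ^ 2 * PU (fun t => (w t)⁻¹) z y := by
    intro τ
    rw [← PU_one z hy]
    apply PU_cs pois_one Pw Ps _ z hy
    intro τ t
    have h := hw t
    rw [← sub_nonneg]
    have e : w t + τ ^ 2 * (w t)⁻¹ - 2 * τ * 1 = (w t - τ) ^ 2 / w t := by field_simp; ring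
    rw [e]; positivity
  have B : ∀ τ : ℝ, 2 * τ * Real.pi ≤ PU (fun t => (w t)⁻¹) z y + τ ^ 2 * PU w z y := by
    intro τ
    rw [← PU_one z hy]
    apply PU_cs pois_one Ps Pw _ z hy
    intro τ t
    have h := hw t
    rw [← sub_nonneg]
    have e : (w t)⁻¹ + τ ^ 2 * w t - 2 * τ * 1 = (1 - τ * w t) ^ 2 / w t := by field_simp; ring
    rw [e]; positivity
  have pos : ∀ b c : ℝ, (∀ τ : ℝ, 2 * τ * Real.pi ≤ b + τ ^ 2 * c) → 0 < c := by
    intro b c h
    by_contra hc
    push Not at hc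
    have h1 := h (|b| + 1)
    have h2 : (|b| + 1) ^ 2 * c ≤ 0 := mul_nonpos_of_nonneg_of_nonpos (by positivity) hc
    have h3 := le_abs_self b
    have h4 := Real.pi_gt_three
    nlinarith [abs_nonneg b]
  have hs := pos _ _ A
  have hww := pos _ _ B
  refine ⟨hww, hs, ?_⟩
  have := quad_le hs A
  have h4 := Real.pi_gt_three
  nlinarith

lemma int_PU {X : ℝ → ℝ} (hX : Integrable X) (h0 : ∀ t, 0 ≤ X t) (R : ℝ) {y : ℝ} (hy : 0 < y) :
    ∫ z in Icc (-R) R, PU X z y ≤ Real.pi * ∫ t, X t := by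
  have PX : Pois X := pois_of_integrable hX
  obtain ⟨a, b, c, H⟩ := exists_harm PX
  have hc : Continuous fun z => PU X z y := by
    have h1 : Continuous fun z : ℝ => ((z, y) : ℝ × ℝ) := by fun_prop
    exact H.cu.comp_continuous h1 (fun z => hy)
  have hPU0 : ∀ z, 0 ≤ PU X z y := by
    intro z
    apply integral_nonneg
    intro t
    have := h0 t
    simp only [Pi.zero_apply]
    positivity
  have hpi : 0 ≤ Real.pi * ∫ t, X t := mul_nonneg Real.pi_pos.le (integral_nonneg h0)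
  rw [← ENNReal.ofReal_le_ofReal_iff hpi]
  rw [ofReal_integral_eq_lintegral_ofReal (hc.continuousOn.integrableOn_compact isCompact_Icc)
    (Eventually.of_forall hPU0)]
  have hXm : AEMeasurable (fun t => ENNReal.ofReal (X t)) :=
    hX.aestronglyMeasurable.aemeasurable.ennreal_ofReal
  calc ∫⁻ z in Icc (-R) R, ENNReal.ofReal (PU X z y)
      ≤ ∫⁻ z, ENNReal.ofReal (PU X z y) := setLIntegral_le_lintegral _ _
    _ = ∫⁻ z, ∫⁻ t, ENNReal.ofReal (X t) * ENNReal.ofReal (y / ((t - z) ^ 2 + y ^ 2)) := by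
        apply lintegral_congr
        intro z
        unfold PU
        rw [ofReal_integral_eq_lintegral_ofReal (PX.int z hy)]
        · apply lintegral_congr
          intro t
          rw [ENNReal.ofReal_mul (h0 t)]
        · refine Eventually.of_forall fun t => ?_
          have := h0 t
          simp only [Pi.zero_apply]
          positivity
    _ = ∫⁻ t, ∫⁻ z, ENNReal.ofReal (X t) * ENNReal.ofReal (y / ((t - z) ^ 2 + y ^ 2)) := by
        apply lintegral_lintegral_swap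
        have hm2 : AEMeasurable (fun p : ℝ × ℝ => ENNReal.ofReal (X p.2))
          (volume.prod volume) := hXm.comp_snd
        have hm3 : AEMeasurable (fun p : ℝ × ℝ => ENNReal.ofReal (y / ((p.2 - p.1) ^ 2 + y ^ 2)))
          (volume.prod volume) := by
          apply Measurable.aemeasurable
          fun_prop
        exact hm2.mul hm3
    _ = ∫⁻ t, ENNReal.ofReal (X t) * ENNReal.ofReal Real.pi := by
        apply lintegral_congr
        intro t
        rw [lintegral_const_mul' _ _ ENNReal.ofReal_ne_top]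
        congr 1
        rw [← int_ker' t hy, ofReal_integral_eq_lintegral_ofReal (integrable_ker' t hy)]
        exact Eventually.of_forall fun z => by simp only [Pi.zero_apply]; positivity
    _ = ENNReal.ofReal (Real.pi * ∫ t, X t) := by
        rw [lintegral_mul_const' _ _ ENNReal.ofReal_ne_top,
          ← ofReal_integral_eq_lintegral_ofReal hX (Eventually.of_forall h0), mul_comm,
          ENNReal.ofReal_mul Real.pi_pos.le]

section cont

variable {α : Type*} [TopologicalSpace α] {S : Set α}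

lemma cont_T0 {w s : α → ℝ} (cw : ContinuousOn w S) (cs : ContinuousOn s S)
    (pw : ∀ x ∈ S, 0 < w x) (ps : ∀ x ∈ S, 0 < s x) :
    ContinuousOn (fun x => T0 (w x) (s x)) S := by
  unfold T0
  apply (continuousOn_const.mul cs).sub
  apply continuousOn_const.div ((continuousOn_const.mul (cw.pow 2)).mul cs)
  intro x hx
  have := pw x hx
  have := ps x hx
  show 2 * w x ^ 2 * s x ≠ 0
  positivity

lemma cont_T1 {w s w1 s1 : α → ℝ} (cw : ContinuousOn w S) (cs : ContinuousOn s S)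
    (cw1 : ContinuousOn w1 S) (cs1 : ContinuousOn s1 S)
    (pw : ∀ x ∈ S, 0 < w x) (ps : ∀ x ∈ S, 0 < s x) :
    ContinuousOn (fun x => T1 (w x) (s x) (w1 x) (s1 x)) S := by
  unfold T1
  apply (continuousOn_const.mul cs1).add
  apply ContinuousOn.div
  · exact ((continuousOn_const.mul cw1).mul cs).add (cw.mul cs1)
  · exact (continuousOn_const.mul (cw.pow 3)).mul (cs.pow 2)
  · intro x hx
    have := pw x hx
    have := ps x hx
    positivity

lemma cont_T2 {w s w1 s1 w2 s2 : α → ℝ} (cw : ContinuousOn w S) (cs : ContinuousOn s S)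
    (cw1 : ContinuousOn w1 S) (cs1 : ContinuousOn s1 S) (cw2 : ContinuousOn w2 S)
    (cs2 : ContinuousOn s2 S) (pw : ∀ x ∈ S, 0 < w x) (ps : ∀ x ∈ S, 0 < s x) :
    ContinuousOn (fun x => T2 (w x) (s x) (w1 x) (s1 x) (w2 x) (s2 x)) S := by
  unfold T2
  apply ContinuousOn.sub
  · apply (continuousOn_const.mul cs2).add
    apply ContinuousOn.div
    · exact (((continuousOn_const.mul cw2).mul cs).add ((continuousOn_const.mul cw1).mul cs1)).add
        (cw.mul cs2)
    · exact (continuousOn_const.mul (cw.pow 3)).mul (cs.pow 2)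
    · intro x hx
      have := pw x hx
      have := ps x hx
      positivity
  · apply ContinuousOn.div
    · exact (((continuousOn_const.mul cw1).mul cs).add (cw.mul cs1)).mul
        (((continuousOn_const.mul cw1).mul cs).add ((continuousOn_const.mul cw).mul cs1))
    · exact (continuousOn_const.mul (cw.pow 4)).mul (cs.pow 3)
    · intro x hx
      have := pw x hx
      have := ps x hx
      positivity

lemma cont_B2 {X2 Y Y1 Y2 T T' T'' : α → ℝ} (cX2 : ContinuousOn X2 S) (cY : ContinuousOn Y S)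
    (cY1 : ContinuousOn Y1 S) (cY2 : ContinuousOn Y2 S) (cT : ContinuousOn T S)
    (cT' : ContinuousOn T' S) (cT'' : ContinuousOn T'' S) (pT : ∀ x ∈ S, 0 < T x) :
    ContinuousOn (fun x => B2 (X2 x) (Y x) (Y1 x) (Y2 x) (T x) (T' x) (T'' x)) S := by
  unfold B2
  have hT : ∀ x ∈ S, T x ≠ 0 := fun x hx => (pT x hx).ne'
  apply ContinuousOn.sub
  · apply ContinuousOn.add
    · exact cX2.sub (((continuousOn_const.mul cY).mul cY2).div cT hT)
    · exact ((cY.pow 2).mul cT'').div (cT.pow 2) fun x hx => pow_ne_zero 2 (hT x hx)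
  · exact (continuousOn_const.div cT hT).mul ((cY1.sub ((cY.div cT hT).mul cT')).pow 2)

end cont

/-- the weighted gradient estimate on a rectangle -/
lemma bell_rect {w f : ℝ → ℝ} {Q : ℝ} (hw : ∀ t, 0 < w t) (Pw : Pois w)
    (Ps : Pois fun t => (w t)⁻¹)
    (hQ : ∀ z y, 0 < y → PU w z y * PU (fun t => (w t)⁻¹) z y ≤ Q) (Pf : Pois f)
    (hX : Integrable fun t => f t ^ 2 * w t) {a b c : ℝ → ℝ → ℝ} (H : Harm (PU f) a b c)
    {e R : ℝ} (he : 0 < e) (heR : e < R) :
    ∫ p in Icc (-R) R ×ˢ Icc e R, ca R p.1 * cb e R p.2 *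
      (PU w p.1 p.2 * (a p.1 p.2 ^ 2 + b p.1 p.2 ^ 2)) ≤
      20 * Q ^ 3 * (14 * (Real.pi * ∫ t, f t ^ 2 * w t)) := by
  have PX : Pois fun t => f t ^ 2 * w t := pois_of_integrable hX
  obtain ⟨aw, bw, cw, Hw⟩ := exists_harm Pw
  obtain ⟨as, bs, cs, Hs⟩ := exists_harm Ps
  obtain ⟨aX, bX, cX, HX⟩ := exists_harm PX
  set s : ℝ → ℝ := fun t => (w t)⁻¹ with hs
  set X : ℝ → ℝ := fun t => f t ^ 2 * w t with hXX
  have hX0 : ∀ t, 0 ≤ X t := fun t => mul_nonneg (sq_nonneg _) (hw t).le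
  have hR : 0 < R := he.trans heR
  have facts : ∀ z y, 0 < y → 0 < PU w z y ∧ 0 < PU s z y ∧ 1 ≤ PU w z y * PU s z y :=
    fun z y hy => weight_facts hw Pw Ps z hy
  have hT : ∀ z y, 0 < y → 0 < T0 (PU w z y) (PU s z y) := by
    intro z y hy
    obtain ⟨h1, h2, h3⟩ := facts z y hy
    exact h2.trans_le (T0_bounds h1 h2 h3).1
  have hCS : ∀ z y, 0 < y → PU f z y ^ 2 ≤ PU X z y * PU s z y := by
    intro z y hy
    apply quad_le (facts z y hy).2.1
    apply PU_cs Pf PX Ps _ z hy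
    intro τ t
    have h := hw t
    rw [← sub_nonneg]
    have e : f t ^ 2 * w t + τ ^ 2 * (w t)⁻¹ - 2 * τ * f t = (f t * w t - τ) ^ 2 / w t := by
      field_simp; ring
    rw [e]; positivity
  have hPX0 : ∀ z y, 0 < y → 0 ≤ PU X z y := by
    intro z y hy
    apply integral_nonneg
    intro t
    have := hX0 t
    simp only [Pi.zero_apply]
    positivity
  set S : Set (ℝ × ℝ) := {p | 0 < p.2} with hS
  have pwS : ∀ p ∈ S, 0 < PU w p.1 p.2 := fun p hp => (facts _ _ hp).1
  have psS : ∀ p ∈ S, 0 < PU s p.1 p.2 := fun p hp => (facts _ _ hp).2.1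
  have pTS : ∀ p ∈ S, 0 < T0 (PU w p.1 p.2) (PU s p.1 p.2) := fun p hp => hT _ _ hp
  have cT := cont_T0 Hw.cu Hs.cu pwS psS
  have hgreen := green (e := e) (R := R) (N := Real.pi * ∫ t, X t) he heR
    (B := fun z y => PU X z y - PU f z y ^ 2 / T0 (PU w z y) (PU s z y))
    (Bz := fun z y => B1 (aX z y) (PU f z y) (a z y) (T0 (PU w z y) (PU s z y))
      (T1 (PU w z y) (PU s z y) (aw z y) (as z y)))
    (Bzz := fun z y => B2 (cX z y) (PU f z y) (a z y) (c z y) (T0 (PU w z y) (PU s z y))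
      (T1 (PU w z y) (PU s z y) (aw z y) (as z y))
      (T2 (PU w z y) (PU s z y) (aw z y) (as z y) (cw z y) (cs z y)))
    (By := fun z y => B1 (bX z y) (PU f z y) (b z y) (T0 (PU w z y) (PU s z y))
      (T1 (PU w z y) (PU s z y) (bw z y) (bs z y)))
    (Byy := fun z y => B2 (-cX z y) (PU f z y) (b z y) (-c z y) (T0 (PU w z y) (PU s z y))
      (T1 (PU w z y) (PU s z y) (bw z y) (bs z y))
      (T2 (PU w z y) (PU s z y) (bw z y) (bs z y) (-cw z y) (-cs z y)))
    (X := fun z y => PU X z y)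
    (fun z y hy => dB0 (HX.dz z y hy) (H.dz z y hy)
      (dT0 (Hw.dz z y hy) (Hs.dz z y hy) (facts z y hy).1 (facts z y hy).2.1) (hT z y hy))
    (fun z y hy => dB1 (HX.dzz z y hy) (H.dz z y hy) (H.dzz z y hy)
      (dT0 (Hw.dz z y hy) (Hs.dz z y hy) (facts z y hy).1 (facts z y hy).2.1)
      (dT1 (Hw.dz z y hy) (Hs.dz z y hy) (Hw.dzz z y hy) (Hs.dzz z y hy)
        (facts z y hy).1 (facts z y hy).2.1) (hT z y hy))
    (fun z y hy => dB0 (HX.dy z y hy) (H.dy z y hy)
      (dT0 (Hw.dy z y hy) (Hs.dy z y hy) (facts z y hy).1 (facts z y hy).2.1) (hT z y hy))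
    (fun z y hy => dB1 (HX.dyy z y hy) (H.dy z y hy) (H.dyy z y hy)
      (dT0 (Hw.dy z y hy) (Hs.dy z y hy) (facts z y hy).1 (facts z y hy).2.1)
      (dT1 (Hw.dy z y hy) (Hs.dy z y hy) (Hw.dyy z y hy) (Hs.dyy z y hy)
        (facts z y hy).1 (facts z y hy).2.1) (hT z y hy))
    (cont_B2 HX.cc H.cu H.ca H.cc cT (cont_T1 Hw.cu Hs.cu Hw.ca Hs.ca pwS psS)
      (cont_T2 Hw.cu Hs.cu Hw.ca Hs.ca Hw.cc Hs.cc pwS psS) pTS)
    (cont_B2 HX.cc.neg H.cu H.cb H.cc.neg cT (cont_T1 Hw.cu Hs.cu Hw.cb Hs.cb pwS psS)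
      (cont_T2 Hw.cu Hs.cu Hw.cb Hs.cb Hw.cc.neg Hs.cc.neg pwS psS) pTS)
    HX.cu
    (by
      intro z y hy
      obtain ⟨h1, h2, h3⟩ := facts z y hy
      rw [sub_nonneg, div_le_iff₀ (hT z y hy)]
      refine (hCS z y hy).trans ?_
      exact mul_le_mul_of_nonneg_left (T0_bounds h1 h2 h3).1 (hPX0 z y hy))
    (by
      intro z y hy
      have := hT z y hy
      have : 0 ≤ PU f z y ^ 2 / T0 (PU w z y) (PU s z y) := by positivity
      linarith)
    (fun y hy => int_PU hX hX0 R hy)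
  -- comparison
  have hsub : Icc (-R) R ×ˢ Icc e R ⊆ S := by
    intro p hp
    exact he.trans_le hp.2.1
  have hK : IsCompact (Icc (-R) R ×ˢ Icc e R) := isCompact_Icc.prod isCompact_Icc
  have cca : Continuous fun p : ℝ × ℝ => ca R p.1 := by unfold ca; fun_prop
  have ccb : Continuous fun p : ℝ × ℝ => cb e R p.2 := by unfold cb; fun_prop
  have hQ0 : 0 ≤ 20 * Q ^ 3 := by
    have := (facts 0 1 one_pos).2.2.trans (hQ 0 1 one_pos)
    positivity
  refine le_trans ?_ (mul_le_mul_of_nonneg_left hgreen hQ0)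
  rw [← integral_const_mul]
  apply setIntegral_mono_on
  · exact ((cca.mul ccb).continuousOn.mul (Hw.cu.mul ((H.ca.pow 2).add (H.cb.pow 2)) |>.mono
      hsub)).integrableOn_compact hK
  · refine ContinuousOn.integrableOn_compact hK ?_
    apply continuousOn_const.mul
    apply (cca.mul ccb).continuousOn.mul
    apply ContinuousOn.neg
    exact ((cont_B2 HX.cc H.cu H.ca H.cc cT (cont_T1 Hw.cu Hs.cu Hw.ca Hs.ca pwS psS)
      (cont_T2 Hw.cu Hs.cu Hw.ca Hs.ca Hw.cc Hs.cc pwS psS) pTS).add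
      (cont_B2 HX.cc.neg H.cu H.cb H.cc.neg cT (cont_T1 Hw.cu Hs.cu Hw.cb Hs.cb pwS psS)
      (cont_T2 Hw.cu Hs.cu Hw.cb Hs.cb Hw.cc.neg Hs.cc.neg pwS psS) pTS)).mono hsub
  · exact measurableSet_Icc.prod measurableSet_Icc
  · rintro ⟨z, y⟩ hp
    have hy : 0 < y := hsub hp
    obtain ⟨h1, h2, h3⟩ := facts z y hy
    simp only
    rw [lap h1 h2 (hT z y hy)]
    have k1 := key_ineq (Y := PU f z y) (w1 := aw z y) (s1 := as z y) (Y1 := a z y) h1 h2 h3
      (hQ z y hy)
    have k2 := key_ineq (Y := PU f z y) (w1 := bw z y) (s1 := bs z y) (Y1 := b z y) h1 h2 h3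
      (hQ z y hy)
    have ha0 : 0 ≤ ca R z := by unfold ca; positivity
    have hb0 : 0 ≤ cb e R y := by
      unfold cb
      have : 0 ≤ y - e := by linarith [hp.2.1]
      positivity
    calc ca R z * cb e R y * (PU w z y * (a z y ^ 2 + b z y ^ 2))
        = ca R z * cb e R y * (PU w z y * a z y ^ 2 + PU w z y * b z y ^ 2) := by ring
      _ ≤ ca R z * cb e R y * (20 * Q ^ 3 * Dis (PU w z y) (PU s z y) (PU f z y) (aw z y) (as z y)
            (a z y) + 20 * Q ^ 3 * Dis (PU w z y) (PU s z y) (PU f z y) (bw z y) (bs z y)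
            (b z y)) := by
          apply mul_le_mul_of_nonneg_left _ (mul_nonneg ha0 hb0)
          exact add_le_add k1 k2
      _ = _ := by ring

end Pool.Agent.Y273.GL
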