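import Mathlib

set_option autoImplicit false
open MeasureTheory Set Filter Topology
open scoped ENNReal NNReal

namespace Pool.Agent.Y273.GL

/-- the condition `B_r` with constant `K` -/
def RB (r : ℝ) (U : ℝ → ℝ≥0∞) (K : ℝ≥0∞) : Prop :=
  ∀ c l : ℝ, 0 < l → ∫⁻ x, U x * ENNReal.ofReal (l ^ r / (l ^ r + |x - c| ^ r)) ≤
    K * ∫⁻ x in Ioo (c - l / 2) (c + l / 2), U x

/-- the tail integral -/
noncomputable def TB (r : ℝ) (U : ℝ → ℝ≥0∞) (c l : ℝ) : ℝ≥0∞ :=
  ∫⁻ x, U x * ENNReal.ofReal (1 / (l ^ r + |x - c| ^ r))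

lemma real_ineq {A D E : ℝ} (hA : 0 < A) (hD : 0 ≤ D) (hDA : D ≤ A / 2) (hE : 2 * A ≤ E) :
    1 / (E + D) + 1 / (4 * A) ≤ 1 / (A + D) := by
  have h1 : 0 < E + D := by linarith
  have h2 : 0 < A + D := by linarith
  have h3 : 1 / (E + D) ≤ 1 / (2 * A + D) := by
    apply one_div_le_one_div_of_le <;> linarith
  refine (add_le_add_left h3 _).trans ?_
  rw [div_add_div _ _ (by positivity) (by positivity), div_le_div_iff₀ (by positivity) h2]
  nlinarith [mul_nonneg hD (sub_nonneg.2 hDA), mul_pos hA hA, mul_nonneg hA.le hD,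
    mul_nonneg hA.le (sub_nonneg.2 hDA)]

lemma half_rpow {r l d : ℝ} (hr : 1 ≤ r) (hl : 0 < l) (hd : 0 ≤ d) (h : d ≤ l / 2) :
    d ^ r ≤ l ^ r / 2 := by
  calc d ^ r ≤ (l / 2) ^ r := Real.rpow_le_rpow hd h (by linarith)
    _ = l ^ r * (1 / 2) ^ r := by
      rw [← Real.mul_rpow hl.le (by norm_num)]; congr 1; ring
    _ ≤ l ^ r * (1 / 2) := by
      gcongr
      calc ((1:ℝ) / 2) ^ r ≤ (1 / 2) ^ (1:ℝ) :=
            Real.rpow_le_rpow_of_exponent_ge (by norm_num) (by norm_num) hr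
        _ = 1 / 2 := by norm_num
    _ = l ^ r / 2 := by ring

lemma two_rpow_ge {r l : ℝ} (hr : 1 ≤ r) (hl : 0 < l) : 2 * l ^ r ≤ (2 * l) ^ r := by
  rw [Real.mul_rpow (by norm_num) hl.le]
  gcongr
  calc (2:ℝ) = 2 ^ (1:ℝ) := by norm_num
    _ ≤ 2 ^ r := Real.rpow_le_rpow_of_exponent_le (by norm_num) hr

lemma TB_step {r : ℝ} (hr : 1 ≤ r) {U : ℝ → ℝ≥0∞} (hU : Measurable U) {K : ℝ≥0∞} (hK1 : 1 ≤ K)
    (hKt : K ≠ ⊤) (hfin : ∀ a b : ℝ, ∫⁻ x in Ioo a b, U x ≠ ⊤) (hB : RB r U K) (c : ℝ) {l : ℝ}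
    (hl : 0 < l) : TB r U c (2 * l) ≤ (1 - (4 * K)⁻¹) * TB r U c l := by
  have hlr : 0 < l ^ r := Real.rpow_pos_of_pos hl r
  have hK0 : K ≠ 0 := fun h => by rw [h] at hK1; exact absurd hK1 (by norm_num)
  have h4K0 : 4 * K ≠ 0 := mul_ne_zero (by norm_num) hK0
  have h4Kt : 4 * K ≠ ⊤ := ENNReal.mul_ne_top (by norm_num) hKt
  have hI : MeasurableSet (Ioo (c - l / 2) (c + l / 2)) := measurableSet_Ioo
  -- the `B_r` condition in terms of `TB`
  have hTB : ENNReal.ofReal (l ^ r) * TB r U c l ≤ K * ∫⁻ x in Ioo (c - l / 2) (c + l / 2), U x := by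
    refine le_trans (le_of_eq ?_) (hB c l hl)
    unfold TB
    rw [← lintegral_const_mul' _ _ ENNReal.ofReal_ne_top]
    apply lintegral_congr
    intro x
    rw [mul_left_comm, ← ENNReal.ofReal_mul hlr.le]
    congr 2
    ring
  have hfinT : TB r U c l ≠ ⊤ := by
    intro h
    rw [h, ENNReal.mul_top (by simpa using hlr)] at hTB
    exact (ENNReal.mul_ne_top hKt (hfin _ _)) (top_le_iff.1 hTB)
  have hstep : TB r U c (2 * l) + ENNReal.ofReal (1 / (4 * l ^ r)) *
      ∫⁻ x in Ioo (c - l / 2) (c + l / 2), U x ≤ TB r U c l := by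
    unfold TB
    rw [← lintegral_indicator hI, ← lintegral_const_mul' _ _ ENNReal.ofReal_ne_top,
      ← lintegral_add_right _ ((hU.indicator hI).const_mul _)]
    apply lintegral_mono
    intro x
    simp only
    have hd : 0 ≤ |x - c| := abs_nonneg _
    have hE := two_rpow_ge hr hl
    have hdr : 0 ≤ |x - c| ^ r := Real.rpow_nonneg hd r
    by_cases hx : x ∈ Ioo (c - l / 2) (c + l / 2)
    · rw [indicator_of_mem hx]
      have hdx : |x - c| ≤ l / 2 := by
        rw [abs_le]; constructor <;> linarith [hx.1, hx.2]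
      have h1 := real_ineq hlr hdr (half_rpow hr hl hd hdx) hE
      calc U x * ENNReal.ofReal (1 / ((2 * l) ^ r + |x - c| ^ r)) +
          ENNReal.ofReal (1 / (4 * l ^ r)) * U x =
          U x * ENNReal.ofReal (1 / ((2 * l) ^ r + |x - c| ^ r) + 1 / (4 * l ^ r)) := by
            rw [ENNReal.ofReal_add (by positivity) (by positivity)]; ring
        _ ≤ _ := by gcongr
    · rw [indicator_of_notMem hx, mul_zero, add_zero]
      gcongr
      linarith
  have h1 : (4 * K)⁻¹ * TB r U c l ≤ ENNReal.ofReal (1 / (4 * l ^ r)) *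
      ∫⁻ x in Ioo (c - l / 2) (c + l / 2), U x := by
    have h2 : ENNReal.ofReal (l ^ r) ≠ 0 := by simpa using hlr
    have h3 : TB r U c l ≤ (ENNReal.ofReal (l ^ r))⁻¹ *
        (K * ∫⁻ x in Ioo (c - l / 2) (c + l / 2), U x) := by
      rw [← ENNReal.div_eq_inv_mul, ENNReal.le_div_iff_mul_le (Or.inl h2)
        (Or.inl ENNReal.ofReal_ne_top), mul_comm]
      exact hTB
    calc (4 * K)⁻¹ * TB r U c l ≤ (4 * K)⁻¹ * ((ENNReal.ofReal (l ^ r))⁻¹ *
        (K * ∫⁻ x in Ioo (c - l / 2) (c + l / 2), U x)) := by gcongr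
      _ = (K⁻¹ * K) * (4⁻¹ * (ENNReal.ofReal (l ^ r))⁻¹) *
          ∫⁻ x in Ioo (c - l / 2) (c + l / 2), U x := by
        rw [ENNReal.mul_inv (Or.inl (by norm_num)) (Or.inl (by norm_num))]; ring
      _ = _ := by
        rw [ENNReal.inv_mul_cancel hK0 hKt, one_mul]
        congr 1
        rw [one_div, mul_inv, ENNReal.ofReal_mul (by norm_num), ENNReal.ofReal_inv_of_pos hlr,
          ENNReal.ofReal_inv_of_pos (by norm_num)]
        simp
  rw [ENNReal.sub_mul (fun _ _ => hfinT), one_mul]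
  apply ENNReal.le_sub_of_add_le_right
  · exact ENNReal.mul_ne_top (ENNReal.inv_ne_top.2 h4K0) hfinT
  · exact (add_le_add_right h1 _).trans hstep

lemma TB_iter {r : ℝ} (hr : 1 ≤ r) {U : ℝ → ℝ≥0∞} (hU : Measurable U) {K : ℝ≥0∞} (hK1 : 1 ≤ K)
    (hKt : K ≠ ⊤) (hfin : ∀ a b : ℝ, ∫⁻ x in Ioo a b, U x ≠ ⊤) (hB : RB r U K) (c : ℝ) {l : ℝ}
    (hl : 0 < l) (k : ℕ) : TB r U c (2 ^ k * l) ≤ (1 - (4 * K)⁻¹) ^ k * TB r U c l := by
  induction k with
  | zero => simp
  | succ k ih =>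
    calc TB r U c (2 ^ (k + 1) * l) = TB r U c (2 * (2 ^ k * l)) := by congr 1; ring
      _ ≤ (1 - (4 * K)⁻¹) * TB r U c (2 ^ k * l) :=
          TB_step hr hU hK1 hKt hfin hB c (by positivity)
      _ ≤ (1 - (4 * K)⁻¹) * ((1 - (4 * K)⁻¹) ^ k * TB r U c l) := by gcongr
      _ = _ := by rw [pow_succ]; ring

/-- the growth estimate, with a power gain -/
lemma grow {r : ℝ} (hr : 1 ≤ r) {U : ℝ → ℝ≥0∞} (hU : Measurable U) {K : ℝ≥0∞} (hK1 : 1 ≤ K)
    (hKt : K ≠ ⊤) (hfin : ∀ a b : ℝ, ∫⁻ x in Ioo a b, U x ≠ ⊤) (hB : RB r U K) (z : ℝ) {y : ℝ}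
    (hy : 0 < y) (k : ℕ) : ∫⁻ x in Ioo (z - 2 ^ k * y) (z + 2 ^ k * y), U x ≤
      ENNReal.ofReal (2 * (2 ^ k) ^ r) * (1 - (4 * K)⁻¹) ^ k * K *
        ∫⁻ x in Ioo (z - y) (z + y), U x := by
  set l : ℝ := 2 * y with hl
  have hl0 : 0 < l := by positivity
  have hlr : 0 < l ^ r := Real.rpow_pos_of_pos hl0 r
  set L : ℝ := 2 ^ k * l with hL
  have hL0 : 0 < L := by positivity
  have hLr : 0 < L ^ r := Real.rpow_pos_of_pos hL0 r
  have e1 : Ioo (z - 2 ^ k * y) (z + 2 ^ k * y) = Ioo (z - L / 2) (z + L / 2) := by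
    congr 1 <;> rw [hL, hl] <;> ring
  have e2 : Ioo (z - y) (z + y) = Ioo (z - l / 2) (z + l / 2) := by
    congr 1 <;> rw [hl] <;> ring
  rw [e1, e2]
  have hI : MeasurableSet (Ioo (z - L / 2) (z + L / 2)) := measurableSet_Ioo
  have h1 : ∫⁻ x in Ioo (z - L / 2) (z + L / 2), U x ≤ ENNReal.ofReal (2 * L ^ r) * TB r U z L := by
    unfold TB
    rw [← lintegral_indicator hI, ← lintegral_const_mul' _ _ ENNReal.ofReal_ne_top]
    apply lintegral_mono
    intro x
    simp only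
    by_cases hx : x ∈ Ioo (z - L / 2) (z + L / 2)
    · rw [indicator_of_mem hx]
      have hd : 0 ≤ |x - z| := abs_nonneg _
      have hdx : |x - z| ≤ L / 2 := by
        rw [abs_le]; constructor <;> linarith [hx.1, hx.2]
      have h2 := half_rpow hr hL0 hd hdx
      have hdr : 0 ≤ |x - z| ^ r := Real.rpow_nonneg hd r
      rw [mul_left_comm, ← ENNReal.ofReal_mul (by positivity)]
      calc U x = U x * 1 := (mul_one _).symm
        _ ≤ U x * ENNReal.ofReal (2 * L ^ r * (1 / (L ^ r + |x - z| ^ r))) := by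
          gcongr
          rw [← ENNReal.ofReal_one]
          apply ENNReal.ofReal_le_ofReal
          rw [mul_one_div, le_div_iff₀ (by positivity)]
          linarith
    · rw [indicator_of_notMem hx]; exact bot_le
  have hTB : TB r U z l ≤ (ENNReal.ofReal (l ^ r))⁻¹ *
      (K * ∫⁻ x in Ioo (z - l / 2) (z + l / 2), U x) := by
    rw [← ENNReal.div_eq_inv_mul, ENNReal.le_div_iff_mul_le (Or.inl (by simpa using hlr))
        (Or.inl ENNReal.ofReal_ne_top), mul_comm]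
    refine le_trans (le_of_eq ?_) (hB z l hl0)
    unfold TB
    rw [← lintegral_const_mul' _ _ ENNReal.ofReal_ne_top]
    apply lintegral_congr
    intro x
    rw [mul_left_comm, ← ENNReal.ofReal_mul hlr.le]
    congr 2
    ring
  calc ∫⁻ x in Ioo (z - L / 2) (z + L / 2), U x ≤ ENNReal.ofReal (2 * L ^ r) * TB r U z L := h1
    _ ≤ ENNReal.ofReal (2 * L ^ r) * ((1 - (4 * K)⁻¹) ^ k * ((ENNReal.ofReal (l ^ r))⁻¹ *
      (K * ∫⁻ x in Ioo (z - l / 2) (z + l / 2), U x))) := by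
        gcongr
        exact (TB_iter hr hU hK1 hKt hfin hB z hl0 k).trans (by gcongr)
    _ = (ENNReal.ofReal (2 * L ^ r) * (ENNReal.ofReal (l ^ r))⁻¹) * (1 - (4 * K)⁻¹) ^ k * K *
        ∫⁻ x in Ioo (z - l / 2) (z + l / 2), U x := by ring
    _ = _ := by
        congr 3
        rw [← ENNReal.ofReal_inv_of_pos hlr, ← ENNReal.ofReal_mul (by positivity)]
        congr 1
        rw [hL, Real.mul_rpow (by positivity) hl0.le]
        field_simp

/-- pointwise domination of the kernel by dyadic dilates -/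
lemma kernel_dyadic {q : ℝ} (hq : 0 < q) (c : ℝ) {l : ℝ} (hl : 0 < l) (x : ℝ) :
    ENNReal.ofReal (l ^ q / (l ^ q + |x - c| ^ q)) ≤
      ∑' k : ℕ, ENNReal.ofReal ((4:ℝ) ^ q * ((2:ℝ) ^ k) ^ (-q)) *
        (Ioo (c - 2 ^ k * (l / 2)) (c + 2 ^ k * (l / 2))).indicator 1 x := by
  classical
  have hlq : 0 < l ^ q := Real.rpow_pos_of_pos hl q
  have hd : 0 ≤ |x - c| := abs_nonneg _
  have hdq : 0 ≤ |x - c| ^ q := Real.rpow_nonneg hd q
  have hex : ∃ k : ℕ, |x - c| < 2 ^ k * (l / 2) := by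
    obtain ⟨k, hk⟩ := pow_unbounded_of_one_lt (|x - c| / (l / 2)) (one_lt_two (α := ℝ))
    exact ⟨k, (div_lt_iff₀ (by positivity)).1 hk⟩
  set k := Nat.find hex with hk
  have hk1 : |x - c| < 2 ^ k * (l / 2) := Nat.find_spec hex
  have hmem : x ∈ Ioo (c - 2 ^ k * (l / 2)) (c + 2 ^ k * (l / 2)) := by
    rw [abs_lt] at hk1
    constructor <;> linarith [hk1.1, hk1.2]
  refine le_trans ?_ (ENNReal.le_tsum k)
  rw [indicator_of_mem hmem, Pi.one_apply, mul_one]
  apply ENNReal.ofReal_le_ofReal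
  have h4 : (1:ℝ) ≤ 4 ^ q := Real.one_le_rpow (by norm_num) hq.le
  rcases Nat.eq_zero_or_pos k with h0 | hpos
  · rw [h0, pow_zero, Real.one_rpow, mul_one]
    refine le_trans ?_ h4
    rw [div_le_one (by positivity)]
    linarith
  · have hk2 : ¬ (|x - c| < 2 ^ (k - 1) * (l / 2)) := Nat.find_min hex (Nat.sub_lt hpos one_pos)
    push Not at hk2
    have e : (2:ℝ) ^ k = 2 * 2 ^ (k - 1) := by
      rw [← pow_succ']; congr 1; omega
    have h5 : 2 ^ k * l / 4 ≤ |x - c| := by rw [e]; linarith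
    have h6 : (2 ^ k * l / 4) ^ q ≤ |x - c| ^ q := Real.rpow_le_rpow (by positivity) h5 hq.le
    have h7 : ((2:ℝ) ^ k * l / 4) ^ q = (2 ^ k) ^ q * l ^ q / 4 ^ q := by
      rw [Real.div_rpow (by positivity) (by norm_num), Real.mul_rpow (by positivity) hl.le]
    rw [h7] at h6
    rw [Real.rpow_neg (by positivity)]
    have h2k : 0 < ((2:ℝ) ^ k) ^ q := Real.rpow_pos_of_pos (by positivity) q
    have h8 : 0 < (4:ℝ) ^ q := by positivity
    rw [div_le_iff₀ (by positivity)]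
    calc l ^ q = 4 ^ q * ((2 ^ k) ^ q)⁻¹ * ((2 ^ k) ^ q * l ^ q / 4 ^ q) := by
          field_simp
      _ ≤ 4 ^ q * ((2 ^ k) ^ q)⁻¹ * (l ^ q + |x - c| ^ q) := by
          gcongr
          linarith

/-- the class `B_r` is open in `r` -/
theorem RB_open {r : ℝ} (hr : 1 < r) {U : ℝ → ℝ≥0∞} (hU : Measurable U) {K : ℝ≥0∞}
    (hKt : K ≠ ⊤) (hfin : ∀ a b : ℝ, ∫⁻ x in Ioo a b, U x ≠ ⊤) (hB : RB r U K) :
    ∃ q, 1 < q ∧ q < r ∧ ∃ K' : ℝ≥0∞, K' ≠ ⊤ ∧ RB q U K' := by
  -- enlarge the constant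
  set K1 : ℝ≥0∞ := max K 1 with hK1
  have hK11 : 1 ≤ K1 := le_max_right _ _
  have hK1t : K1 ≠ ⊤ := (max_lt hKt.lt_top ENNReal.one_lt_top).ne
  have hB1 : RB r U K1 := fun c l hl => (hB c l hl).trans (by gcongr; exact le_max_left _ _)
  have hK10 : K1 ≠ 0 := fun h => by rw [h] at hK11; exact absurd hK11 (by norm_num)
  set rho : ℝ := 1 - 1 / (4 * K1.toReal) with hrho
  have hKr : 1 ≤ K1.toReal := by
    rw [← ENNReal.toReal_one]; exact (ENNReal.toReal_le_toReal ENNReal.one_ne_top hK1t).2 hK11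
  have h4 : 1 / (4 * K1.toReal) ≤ 1 / 4 := by
    apply one_div_le_one_div_of_le <;> linarith
  have h4p : 0 < 1 / (4 * K1.toReal) := by positivity
  have hrho0 : 0 < rho := by rw [hrho]; linarith
  have hrho1 : rho < 1 := by rw [hrho]; linarith
  have hrhoE : 1 - (4 * K1)⁻¹ = ENNReal.ofReal rho := by
    rw [hrho, ENNReal.ofReal_sub _ h4p.le, ENNReal.ofReal_one]
    congr 1
    rw [one_div, ENNReal.ofReal_inv_of_pos (by positivity), ENNReal.ofReal_mul (by norm_num),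
      ENNReal.ofReal_toReal hK1t]
    simp
  -- the new exponent
  obtain ⟨e, he0, he1⟩ : ∃ e : ℝ, 0 < e ∧ (2:ℝ) ^ e * rho < 1 := by
    have hc : ContinuousAt (fun e : ℝ => (2:ℝ) ^ e * rho) 0 := by
      apply ContinuousAt.mul _ continuousAt_const
      exact (Real.continuous_const_rpow (by norm_num)).continuousAt
    have h0 : (fun e : ℝ => (2:ℝ) ^ e * rho) 0 < 1 := by simpa using hrho1
    have := hc.eventually (gt_mem_nhds h0)
    have h2 : ∀ᶠ e : ℝ in 𝓝[>] 0, (2:ℝ) ^ e * rho < 1 := this.filter_mono nhdsWithin_le_nhds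
    obtain ⟨e, he, he'⟩ := (h2.and self_mem_nhdsWithin).exists
    exact ⟨e, he', he⟩
  set q : ℝ := max (r - e) ((1 + r) / 2) with hq
  have hq1 : 1 < q := lt_of_lt_of_le (by linarith) (le_max_right _ _)
  have hqr : q < r := max_lt (by linarith) (by linarith)
  have hqe : r - q ≤ e := by linarith [le_max_left (r - e) ((1 + r) / 2)]
  set θ : ℝ := (2:ℝ) ^ (r - q) * rho with hθ
  have hθ0 : 0 ≤ θ := by positivity
  have hθ1 : θ < 1 := by
    refine lt_of_le_of_lt ?_ he1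
    rw [hθ]
    gcongr
    norm_num
  refine ⟨q, hq1, hqr, ∑' k : ℕ, ENNReal.ofReal (4 ^ q * 2 * K1.toReal * θ ^ k), ?_, ?_⟩
  · have hs : Summable fun k : ℕ => 4 ^ q * 2 * K1.toReal * θ ^ k :=
      (summable_geometric_of_lt_one hθ0 hθ1).mul_left _
    rw [← ENNReal.ofReal_tsum_of_nonneg (fun k => by positivity) hs]
    exact ENNReal.ofReal_ne_top
  · intro c l hl
    have hm : ∀ k : ℕ, Measurable
        ((Ioo (c - 2 ^ k * (l / 2)) (c + 2 ^ k * (l / 2))).indicator (1 : ℝ → ℝ≥0∞)) :=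
      fun k => measurable_one.indicator measurableSet_Ioo
    calc ∫⁻ x, U x * ENNReal.ofReal (l ^ q / (l ^ q + |x - c| ^ q))
        ≤ ∫⁻ x, ∑' k : ℕ, U x * (ENNReal.ofReal ((4:ℝ) ^ q * ((2:ℝ) ^ k) ^ (-q)) *
        (Ioo (c - 2 ^ k * (l / 2)) (c + 2 ^ k * (l / 2))).indicator 1 x) := by
          apply lintegral_mono
          intro x
          simp only
          rw [ENNReal.tsum_mul_left]
          gcongr
          exact kernel_dyadic (by linarith) c hl x
      _ = ∑' k : ℕ, ∫⁻ x, U x * (ENNReal.ofReal ((4:ℝ) ^ q * ((2:ℝ) ^ k) ^ (-q)) *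
        (Ioo (c - 2 ^ k * (l / 2)) (c + 2 ^ k * (l / 2))).indicator 1 x) := by
          apply lintegral_tsum
          intro k
          exact (hU.mul ((hm k).const_mul _)).aemeasurable
      _ = ∑' k : ℕ, ENNReal.ofReal ((4:ℝ) ^ q * ((2:ℝ) ^ k) ^ (-q)) *
          ∫⁻ x in Ioo (c - 2 ^ k * (l / 2)) (c + 2 ^ k * (l / 2)), U x := by
          congr 1
          funext k
          rw [← lintegral_indicator measurableSet_Ioo,
            ← lintegral_const_mul' _ _ ENNReal.ofReal_ne_top]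
          apply lintegral_congr
          intro x
          by_cases hx : x ∈ Ioo (c - 2 ^ k * (l / 2)) (c + 2 ^ k * (l / 2))
          · rw [indicator_of_mem hx, indicator_of_mem hx, Pi.one_apply]; ring
          · rw [indicator_of_notMem hx, indicator_of_notMem hx]; simp
      _ ≤ ∑' k : ℕ, ENNReal.ofReal ((4:ℝ) ^ q * ((2:ℝ) ^ k) ^ (-q)) *
          (ENNReal.ofReal (2 * (2 ^ k) ^ r) * (1 - (4 * K1)⁻¹) ^ k * K1 *
            ∫⁻ x in Ioo (c - l / 2) (c + l / 2), U x) := by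
          apply ENNReal.tsum_le_tsum
          intro k
          gcongr
          exact grow hr.le hU hK11 hK1t hfin hB1 c (half_pos hl) k
      _ = ∑' k : ℕ, ENNReal.ofReal (4 ^ q * 2 * K1.toReal * θ ^ k) *
            ∫⁻ x in Ioo (c - l / 2) (c + l / 2), U x := by
          congr 1
          funext k
          rw [← mul_assoc]
          congr 1
          rw [hrhoE, ← ENNReal.ofReal_pow hrho0.le]
          have e0 : ENNReal.ofReal ((4:ℝ) ^ q * ((2:ℝ) ^ k) ^ (-q)) *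
              (ENNReal.ofReal (2 * (2 ^ k) ^ r) * ENNReal.ofReal (rho ^ k) *
                ENNReal.ofReal K1.toReal) =
              ENNReal.ofReal (4 ^ q * 2 * K1.toReal * θ ^ k) := by
            rw [← ENNReal.ofReal_mul (by positivity), ← ENNReal.ofReal_mul (by positivity),
              ← ENNReal.ofReal_mul (by positivity)]
            congr 1
            have e1 : θ ^ k = (2 ^ k) ^ (-q) * (2 ^ k) ^ r * rho ^ k := by
              rw [hθ, mul_pow, ← Real.rpow_natCast ((2:ℝ) ^ (r - q)) k,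
                ← Real.rpow_mul (by norm_num),
                ← Real.rpow_natCast (2:ℝ) k, ← Real.rpow_mul (by norm_num),
                ← Real.rpow_mul (by norm_num), ← Real.rpow_add (by norm_num)]
              congr 2
              ring
            rw [e1]; ring
          rw [ENNReal.ofReal_toReal hK1t] at e0
          exact e0
      _ = _ := ENNReal.tsum_mul_right

end Pool.Agent.Y273.GL
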