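import Mathlib

set_option autoImplicit false
open MeasureTheory Set Filter Topology
open scoped ENNReal NNReal

namespace Pool.Agent.Y273.GL

/-- A weight: a nonnegative locally integrable function on the line. -/
def IsWeight (U : ℝ → ℝ) : Prop := (∀ x, 0 ≤ U x) ∧ LocallyIntegrable U

/-- The Muckenhoupt condition `A_r`. -/
def CondA (r : ℝ) (U : ℝ → ℝ) : Prop :=
  ∃ C : ℝ≥0, ∀ a b : ℝ, a < b →
    (∫⁻ x in Ioo a b, ENNReal.ofReal (U x)) / ENNReal.ofReal (b - a) *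
      ((∫⁻ x in Ioo a b, ENNReal.ofReal (U x) ^ (-(1 / (r - 1)))) /
        ENNReal.ofReal (b - a)) ^ (r - 1) ≤ C

/-- The condition `B_r`, for the interval with centre `c` and length `l`. -/
def CondB (r : ℝ) (U : ℝ → ℝ) : Prop :=
  ∃ C : ℝ≥0, ∀ c l : ℝ, 0 < l →
    ∫⁻ x, ENNReal.ofReal (l ^ (r - 1) * U x / (l ^ r + |x - c| ^ r)) ≤
      C / ENNReal.ofReal l * ∫⁻ x in Ioo (c - l / 2) (c + l / 2), ENNReal.ofReal (U x)

variable {𝕜 : Type} [RCLike 𝕜]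

/-- The Poisson integral `f(z, y)`. -/
noncomputable def poisson (f : ℝ → 𝕜) (z y : ℝ) : 𝕜 :=
  (1 / Real.pi) • ∫ x : ℝ, (y / (x ^ 2 + y ^ 2)) • f (z - x)

/-- `|∇ f(z, y)|²`, the gradient being taken in `(z, y)`. -/
noncomputable def gradSq (f : ℝ → 𝕜) (z y : ℝ) : ℝ :=
  ‖deriv (fun z' => poisson f z' y) z‖ ^ 2 + ‖deriv (fun y' => poisson f z y') y‖ ^ 2

/-- The Littlewood–Paley function `g^*_λ(f)(x)`. -/
noncomputable def gStar (lam : ℝ) (f : ℝ → 𝕜) (x : ℝ) : ℝ≥0∞ :=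
  (∫⁻ z : ℝ, ∫⁻ y in Ioi (0 : ℝ),
    ENNReal.ofReal ((y / (|x - z| + y)) ^ lam * gradSq f z y)) ^ (1 / 2 : ℝ)

/-- The weighted inequality `(∗)`. -/
def Star (𝕜 : Type) [RCLike 𝕜] (lam p : ℝ) (U : ℝ → ℝ) : Prop :=
  ∃ C : ℝ≥0, ∀ f : ℝ → 𝕜, AEStronglyMeasurable f volume →
    ∫⁻ x, ENNReal.ofReal (‖f x‖ ^ p * U x) < ⊤ →
    ∫⁻ x, gStar lam f x ^ p * ENNReal.ofReal (U x) ≤
      C * ∫⁻ x, ENNReal.ofReal (‖f x‖ ^ p * U x)

end Pool.Agent.Y273.GL
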