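import Pool.Agent.Y273.GL.Suff
import Pool.Agent.Y273.GL.Defs

set_option autoImplicit false
open MeasureTheory Set Filter Topology
open scoped ENNReal NNReal

namespace Pool.Agent.Y273.GL

variable {𝕜 : Type} [RCLike 𝕜]

lemma norm_I_le_one : ‖(RCLike.I : 𝕜)‖ ≤ 1 := by
  rcases (RCLike.I_mul_I_ax : (RCLike.I : 𝕜) = 0 ∨ (RCLike.I : 𝕜) * RCLike.I = -1) with h | h
  · rw [h]; simp
  · have h1 : ‖(RCLike.I : 𝕜)‖ * ‖(RCLike.I : 𝕜)‖ = 1 := by
      rw [← norm_mul, h]; simp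
    nlinarith [norm_nonneg (RCLike.I : 𝕜)]

lemma poisson_eq (f : ℝ → 𝕜) (z y : ℝ) :
    poisson f z y = (1 / Real.pi) • ∫ t : ℝ, (y / ((t - z) ^ 2 + y ^ 2)) • f t := by
  unfold poisson
  congr 1
  rw [← integral_sub_left_eq_self (fun t : ℝ => (y / ((t - z) ^ 2 + y ^ 2)) • f t) volume z]
  congr 1
  funext x
  congr 3
  ring

lemma poisson_congr {f g : ℝ → 𝕜} (h : f =ᵐ[volume] g) : poisson f = poisson g := by
  funext z y
  rw [poisson_eq, poisson_eq]
  congr 1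
  apply integral_congr_ae
  filter_upwards [h] with t ht
  rw [ht]

lemma integrable_smul {f : ℝ → 𝕜} (hf : AEStronglyMeasurable f volume)
    (P1 : Pois fun t => RCLike.re (f t)) (P2 : Pois fun t => RCLike.im (f t)) (z : ℝ) {y : ℝ}
    (hy : 0 < y) : Integrable fun t : ℝ => (y / ((t - z) ^ 2 + y ^ 2)) • f t := by
  have h1 := (P1.int z hy).norm.add (P2.int z hy).norm
  refine h1.mono' ?_ ?_
  · apply AEStronglyMeasurable.smul _ hf
    apply Continuous.aestronglyMeasurable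
    apply Continuous.div (by fun_prop) (by fun_prop)
    intro t; positivity
  · refine Eventually.of_forall fun t => ?_
    simp only [Pi.add_apply]
    rw [norm_smul, norm_mul, norm_mul, ← add_mul, mul_comm]
    gcongr
    have h2 : ‖f t‖ ≤ ‖((RCLike.re (f t) : ℝ) : 𝕜)‖ + ‖((RCLike.im (f t) : ℝ) : 𝕜) * RCLike.I‖ := by
      nth_rewrite 1 [← RCLike.re_add_im (f t)]
      exact norm_add_le _ _
    refine h2.trans ?_
    rw [norm_mul, RCLike.norm_ofReal, RCLike.norm_ofReal]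
    have h3 : ‖(RCLike.I : 𝕜)‖ ≤ 1 := norm_I_le_one
    have h4 := abs_nonneg (RCLike.im (f t))
    simp only [Real.norm_eq_abs]
    nlinarith

lemma poisson_decomp {f : ℝ → 𝕜} (hf : AEStronglyMeasurable f volume)
    (P1 : Pois fun t => RCLike.re (f t)) (P2 : Pois fun t => RCLike.im (f t)) (z : ℝ) {y : ℝ}
    (hy : 0 < y) : poisson f z y =
      ((1 / Real.pi * PU (fun t => RCLike.re (f t)) z y : ℝ) : 𝕜) +
        ((1 / Real.pi * PU (fun t => RCLike.im (f t)) z y : ℝ) : 𝕜) * RCLike.I := by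
  have hi := integrable_smul hf P1 P2 z hy
  have e1 : RCLike.re (poisson f z y) = 1 / Real.pi * PU (fun t => RCLike.re (f t)) z y := by
    rw [poisson_eq, RCLike.smul_re]
    congr 1
    have h := RCLike.reCLM.integral_comp_comm hi
    simp only [RCLike.reCLM_apply] at h
    rw [← h]
    unfold PU
    congr 1
    funext t
    rw [RCLike.smul_re, mul_comm]
  have e2 : RCLike.im (poisson f z y) = 1 / Real.pi * PU (fun t => RCLike.im (f t)) z y := by
    rw [poisson_eq, RCLike.smul_im]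
    congr 1
    have h := RCLike.imCLM.integral_comp_comm hi
    simp only [RCLike.imCLM_apply] at h
    rw [← h]
    unfold PU
    congr 1
    funext t
    rw [RCLike.smul_im, mul_comm]
  rw [← e1, ← e2, RCLike.re_add_im]

lemma hasDerivAt_coe {u : ℝ → ℝ} {u' x : ℝ} (h : HasDerivAt u u' x) :
    HasDerivAt (fun x => ((u x : ℝ) : 𝕜)) ((u' : ℝ) : 𝕜) x :=
  (RCLike.ofRealCLM (K := 𝕜)).hasFDerivAt.comp_hasDerivAt x h

lemma hasDerivAt_pair {u v : ℝ → ℝ} {u' v' x : ℝ} (h : HasDerivAt u u' x) (k : HasDerivAt v v' x) :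
    HasDerivAt (fun x => ((1 / Real.pi * u x : ℝ) : 𝕜) + ((1 / Real.pi * v x : ℝ) : 𝕜) * RCLike.I)
      (((1 / Real.pi * u' : ℝ) : 𝕜) + ((1 / Real.pi * v' : ℝ) : 𝕜) * RCLike.I) x :=
  (hasDerivAt_coe (h.const_mul _)).add ((hasDerivAt_coe (k.const_mul _)).mul_const _)

lemma norm_pair_sq (u v : ℝ) :
    ‖((1 / Real.pi * u : ℝ) : 𝕜) + ((1 / Real.pi * v : ℝ) : 𝕜) * RCLike.I‖ ^ 2 ≤ u ^ 2 + v ^ 2 := by
  have h1 : ‖((1 / Real.pi * u : ℝ) : 𝕜) + ((1 / Real.pi * v : ℝ) : 𝕜) * RCLike.I‖ ≤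
      1 / Real.pi * |u| + 1 / Real.pi * |v| := by
    refine (norm_add_le _ _).trans ?_
    rw [norm_mul, RCLike.norm_ofReal, RCLike.norm_ofReal, abs_mul, abs_mul,
      abs_of_pos (by positivity : 0 < 1 / Real.pi)]
    have h3 : ‖(RCLike.I : 𝕜)‖ ≤ 1 := norm_I_le_one
    have h4 : 0 ≤ 1 / Real.pi * |v| := by positivity
    nlinarith
  have h2 : 1 / Real.pi ≤ 1 / 3 := one_div_le_one_div_of_le (by norm_num) Real.pi_gt_three.le
  have h3 : 1 / Real.pi * |u| + 1 / Real.pi * |v| ≤ 1 / 3 * |u| + 1 / 3 * |v| := by gcongr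
  have h4 := pow_le_pow_left₀ (norm_nonneg _) (h1.trans h3) 2
  refine h4.trans ?_
  rw [← sq_abs u, ← sq_abs v]
  nlinarith [sq_nonneg (|u| - |v|), sq_nonneg |u|, sq_nonneg |v|]

lemma gradSq_le {f : ℝ → 𝕜} (hf : AEStronglyMeasurable f volume)
    (P1 : Pois fun t => RCLike.re (f t)) (P2 : Pois fun t => RCLike.im (f t))
    {a1 b1 c1 a2 b2 c2 : ℝ → ℝ → ℝ} (H1 : Harm (PU fun t => RCLike.re (f t)) a1 b1 c1)
    (H2 : Harm (PU fun t => RCLike.im (f t)) a2 b2 c2) (z : ℝ) {y : ℝ} (hy : 0 < y) :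
    gradSq f z y ≤ (a1 z y ^ 2 + b1 z y ^ 2) + (a2 z y ^ 2 + b2 z y ^ 2) := by
  have d1 : HasDerivAt (fun z' => poisson f z' y) _ z :=
    (hasDerivAt_pair (𝕜 := 𝕜) (H1.dz z y hy) (H2.dz z y hy)).congr_of_eventuallyEq
      (Eventually.of_forall fun z' => poisson_decomp hf P1 P2 z' hy)
  have d2 : HasDerivAt (fun y' => poisson f z y') _ y :=
    (hasDerivAt_pair (𝕜 := 𝕜) (H1.dy z y hy) (H2.dy z y hy)).congr_of_eventuallyEq (by
      have : ∀ᶠ y' in 𝓝 y, 0 < y' := lt_mem_nhds hy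
      filter_upwards [this] with y' hy'
      exact poisson_decomp hf P1 P2 z hy')
  unfold gradSq
  rw [d1.deriv, d2.deriv]
  have k1 := norm_pair_sq (𝕜 := 𝕜) (a1 z y) (a2 z y)
  have k2 := norm_pair_sq (𝕜 := 𝕜) (b1 z y) (b2 z y)
  linarith

lemma measurable_GFker (lam x : ℝ) : Measurable fun q : ℝ × ℝ =>
    ENNReal.ofReal ((q.2 / (|x - q.1| + q.2)) ^ lam) := by
  apply Measurable.ennreal_ofReal
  apply Measurable.pow_const
  apply Measurable.div measurable_snd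
  apply Measurable.add _ measurable_snd
  exact (measurable_const.sub measurable_fst).abs

lemma Dens_off (a b : ℝ → ℝ → ℝ) (q : ℝ × ℝ) (hq : ¬ 0 < q.2) : Dens a b q = 0 := by
  unfold Dens; rw [if_neg hq]

lemma gStar_le {f : ℝ → 𝕜} (hf : AEStronglyMeasurable f volume)
    (P1 : Pois fun t => RCLike.re (f t)) (P2 : Pois fun t => RCLike.im (f t))
    {a1 b1 c1 a2 b2 c2 : ℝ → ℝ → ℝ} (H1 : Harm (PU fun t => RCLike.re (f t)) a1 b1 c1)
    (H2 : Harm (PU fun t => RCLike.im (f t)) a2 b2 c2) (lam x : ℝ) :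
    gStar lam f x ≤ (GF (Dens a1 b1) lam x + GF (Dens a2 b2) lam x) ^ (1 / 2 : ℝ) := by
  unfold gStar GF
  gcongr
  have m1 : Measurable fun q : ℝ × ℝ => Dens a1 b1 q *
      ENNReal.ofReal ((q.2 / (|x - q.1| + q.2)) ^ lam) :=
    (measurable_Dens H1).mul (measurable_GFker lam x)
  have m2 : Measurable fun q : ℝ × ℝ => Dens a2 b2 q *
      ENNReal.ofReal ((q.2 / (|x - q.1| + q.2)) ^ lam) :=
    (measurable_Dens H2).mul (measurable_GFker lam x)
  rw [← lintegral_add_left m1]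
  have e : (volume : Measure (ℝ × ℝ)) = volume.prod volume := rfl
  have m3 : Measurable fun q : ℝ × ℝ => Dens a1 b1 q *
      ENNReal.ofReal ((q.2 / (|x - q.1| + q.2)) ^ lam) + Dens a2 b2 q *
      ENNReal.ofReal ((q.2 / (|x - q.1| + q.2)) ^ lam) := m1.add m2
  rw [e, lintegral_prod _ m3.aemeasurable]
  apply lintegral_mono
  intro z
  simp only
  refine le_trans ?_ (setLIntegral_le_lintegral (Ioi 0) _)
  apply setLIntegral_mono' measurableSet_Ioi
  intro y hy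
  have hy0 : 0 < y := hy
  have h1 := gradSq_le hf P1 P2 H1 H2 z hy0
  have hk : 0 ≤ (y / (|x - z| + y)) ^ lam := by positivity
  unfold Dens
  rw [if_pos (by exact hy0), if_pos (by exact hy0), ← add_mul]
  calc ENNReal.ofReal ((y / (|x - z| + y)) ^ lam * gradSq f z y)
      = ENNReal.ofReal (gradSq f z y) * ENNReal.ofReal ((y / (|x - z| + y)) ^ lam) := by
        rw [mul_comm, ENNReal.ofReal_mul' hk]
    _ ≤ ENNReal.ofReal ((a1 z y ^ 2 + b1 z y ^ 2) + (a2 z y ^ 2 + b2 z y ^ 2)) *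
        ENNReal.ofReal ((y / (|x - z| + y)) ^ lam) :=
        mul_le_mul' (ENNReal.ofReal_le_ofReal h1) le_rfl
    _ = _ := by rw [ENNReal.ofReal_add (by positivity) (by positivity)]

end Pool.Agent.Y273.GL
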