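import Pool.Agent.Y273.GL.MainS

set_option autoImplicit false
open MeasureTheory Set Filter Topology
open scoped ENNReal NNReal

namespace Pool.Agent.Y273.GL

lemma IsWeight.aemeas {U : ℝ → ℝ} (hU : IsWeight U) :
    AEMeasurable (fun x => ENNReal.ofReal (U x)) volume :=
  hU.2.aestronglyMeasurable.aemeasurable.ennreal_ofReal

lemma IsWeight.fin {U : ℝ → ℝ} (hU : IsWeight U) (a b : ℝ) :
    ∫⁻ x in Ioo a b, ENNReal.ofReal (U x) ≠ ⊤ := by
  have h1 : IntegrableOn U (Icc a b) := hU.2.integrableOn_isCompact isCompact_Icc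
  have h2 : IntegrableOn U (Ioo a b) := h1.mono_set Ioo_subset_Icc_self
  have h3 := h2.2
  rw [hasFiniteIntegral_iff_ofReal (Eventually.of_forall fun x => hU.1 x)] at h3
  exact h3.ne

/-- an `A_p` weight vanishes almost everywhere or is positive almost everywhere -/
lemma CondA.pos {p : ℝ} (hp : 1 < p) {U : ℝ → ℝ} (hU : IsWeight U) (hA : CondA p U)
    (h0 : ¬ (fun x => ENNReal.ofReal (U x)) =ᵐ[volume] 0) :
    ∀ᵐ x, ENNReal.ofReal (U x) ≠ 0 := by
  set Ue : ℝ → ℝ≥0∞ := fun x => ENNReal.ofReal (U x) with hUe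
  have hm : AEMeasurable Ue volume := hU.aemeas
  obtain ⟨C, hC⟩ := hA
  have hp1 : 0 < p - 1 := by linarith
  -- some interval carries mass
  obtain ⟨n0, hn0⟩ : ∃ n : ℕ, ∫⁻ x in Ioo (-(n:ℝ)) n, Ue x ≠ 0 := by
    by_contra hcon
    push Not at hcon
    apply h0
    have hU : (⋃ n : ℕ, Ioo (-(n:ℝ)) n) = univ := by
      apply eq_univ_of_forall
      intro t
      obtain ⟨n, hn⟩ := exists_nat_gt |t|
      rw [mem_iUnion]
      exact ⟨n, abs_lt.1 hn⟩
    have h6 : ∫⁻ t, Ue t = 0 := by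
      rw [← setLIntegral_univ, ← hU]
      refine le_antisymm ((lintegral_iUnion_le _ _).trans ?_) bot_le
      simp only [hcon, tsum_zero]
      exact le_rfl
    exact (lintegral_eq_zero_iff' hm).1 h6
  have key : ∀ n : ℕ, ∀ᵐ x, x ∈ Ioo (-((n:ℝ) + n0 + 1)) ((n:ℝ) + n0 + 1) → Ue x ≠ 0 := by
    intro n
    rw [← ae_restrict_iff' measurableSet_Ioo]
    set L : ℝ := (n:ℝ) + n0 + 1 with hL
    have hL0 : 0 < L := by positivity
    have h1 := hC (-L) L (by linarith)
    have hmass : ∫⁻ x in Ioo (-L) L, Ue x ≠ 0 := by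
      intro h
      apply hn0
      refine le_antisymm (le_trans (lintegral_mono_set ?_) h.le) bot_le
      apply Ioo_subset_Ioo
      · rw [hL]; have : (0:ℝ) ≤ n := Nat.cast_nonneg n; linarith
      · rw [hL]; have : (0:ℝ) ≤ n := Nat.cast_nonneg n; linarith
    have h2 : ∫⁻ x in Ioo (-L) L, Ue x ^ (-(1 / (p - 1))) ≠ ⊤ := by
      intro htop
      rw [htop, ENNReal.top_div_of_ne_top ENNReal.ofReal_ne_top, ENNReal.top_rpow_of_pos hp1,
        ENNReal.mul_top] at h1
      · exact ENNReal.coe_ne_top (top_le_iff.1 h1)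
      · exact ENNReal.div_ne_zero.2 ⟨hmass, ENNReal.ofReal_ne_top⟩
    have h3 := ae_lt_top' ((hm.pow_const _).restrict) h2
    filter_upwards [h3] with x hx h4
    rw [h4, ENNReal.zero_rpow_of_neg] at hx
    · exact absurd hx (lt_irrefl _)
    · have : 0 < 1 / (p - 1) := by positivity
      linarith
  rw [← ae_all_iff] at key
  filter_upwards [key] with x hx
  obtain ⟨n, hn⟩ := exists_nat_gt |x|
  rw [abs_lt] at hn
  have : (0:ℝ) ≤ n0 := Nat.cast_nonneg n0
  exact hx n ⟨by linarith [hn.1], by linarith [hn.2]⟩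

/-- a positive representative -/
lemma exists_rep {U : ℝ → ℝ} (hU : IsWeight U) (hpos : ∀ᵐ x, ENNReal.ofReal (U x) ≠ 0) :
    ∃ V : ℝ → ℝ≥0∞, Wt V ∧ V =ᵐ[volume] fun x => ENNReal.ofReal (U x) := by
  classical
  set U0 := hU.aemeas.mk _ with hU0
  have hm : Measurable U0 := hU.aemeas.measurable_mk
  have hae : (fun x => ENNReal.ofReal (U x)) =ᵐ[volume] U0 := hU.aemeas.ae_eq_mk
  refine ⟨fun x => if U0 x = 0 ∨ U0 x = ⊤ then 1 else U0 x, ⟨?_, ?_, ?_⟩, ?_⟩
  · apply Measurable.ite _ measurable_const hm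
    exact (measurableSet_eq_fun hm measurable_const).union
      (measurableSet_eq_fun hm measurable_const)
  · intro x
    split_ifs with h
    · exact one_ne_zero
    · push Not at h; exact h.1
  · intro x
    split_ifs with h
    · exact ENNReal.one_ne_top
    · push Not at h; exact h.2
  · filter_upwards [hae, hpos] with x hx h0
    rw [← hx, if_neg]
    push Not
    exact ⟨h0, ENNReal.ofReal_ne_top⟩

lemma measurable_GF {Ψ : ℝ × ℝ → ℝ≥0∞} (hΨ : Measurable Ψ) (lam : ℝ) : Measurable (GF Ψ lam) := by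
  unfold GF
  apply Measurable.lintegral_prod_right' (f := fun p : ℝ × (ℝ × ℝ) =>
    Ψ p.2 * ENNReal.ofReal ((p.2.2 / (|p.1 - p.2.1| + p.2.2)) ^ lam))
  apply (hΨ.comp measurable_snd).mul
  apply Measurable.ennreal_ofReal
  apply Measurable.pow_const
  have h1 : Measurable fun p : ℝ × (ℝ × ℝ) => p.2.2 := measurable_snd.comp measurable_snd
  have h2 : Measurable fun p : ℝ × (ℝ × ℝ) => |p.1 - p.2.1| :=
    (measurable_fst.sub (measurable_fst.comp measurable_snd)).abs
  exact h1.div (h2.add h1)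

/-- sufficiency -/
theorem suff {𝕜 : Type} [RCLike 𝕜] {lam p : ℝ} (h1 : 1 < lam) (h2 : lam ≤ 2) (hp1 : 2 / lam < p)
    (hp2 : p < 2) {U : ℝ → ℝ} (hU : IsWeight U) (hA : CondA p U) (hB : CondB (lam * p / 2) U) :
    Star 𝕜 lam p U := by
  have hp : 1 < p := by
    refine lt_of_le_of_lt ?_ hp1
    rw [le_div_iff₀ (by linarith)]; linarith
  have hp0 : 0 < p := by linarith
  by_cases h0 : (fun x => ENNReal.ofReal (U x)) =ᵐ[volume] 0
  · refine ⟨0, fun f _ _ => ?_⟩
    have : ∫⁻ x, gStar lam f x ^ p * ENNReal.ofReal (U x) = 0 := by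
      have e : (fun x => gStar lam f x ^ p * ENNReal.ofReal (U x)) =ᵐ[volume] fun _ => 0 := by
        filter_upwards [h0] with x hx
        simp only [Pi.zero_apply] at hx
        rw [hx, mul_zero]
      rw [lintegral_congr_ae e, lintegral_zero]
    rw [this]
    exact bot_le
  have hpos := hA.pos hp hU h0
  obtain ⟨V, hV, hVU⟩ := exists_rep hU hpos
  obtain ⟨CA, hCA⟩ := hA
  obtain ⟨CB, hCB⟩ := hB
  have hApB : ApB p V CA := by
    intro a b hab
    have e1 : ∫⁻ x in Ioo a b, V x = ∫⁻ x in Ioo a b, ENNReal.ofReal (U x) :=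
      lintegral_congr_ae (ae_restrict_of_ae hVU)
    have e2 : ∫⁻ x in Ioo a b, V x ^ (-(1 / (p - 1))) =
        ∫⁻ x in Ioo a b, ENNReal.ofReal (U x) ^ (-(1 / (p - 1))) := by
      apply lintegral_congr_ae
      filter_upwards [ae_restrict_of_ae hVU] with x hx
      rw [hx]
    rw [e1, e2, Real.volume_Ioo]
    exact hCA a b hab
  have hfin : ∀ a b : ℝ, ∫⁻ x in Ioo a b, V x ≠ ⊤ := by
    intro a b
    have e1 : ∫⁻ x in Ioo a b, V x = ∫⁻ x in Ioo a b, ENNReal.ofReal (U x) :=
      lintegral_congr_ae (ae_restrict_of_ae hVU)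
    rw [e1]
    exact hU.fin a b
  set r : ℝ := lam * p / 2 with hr
  set K : ℝ≥0∞ := max (CB : ℝ≥0∞) 1 with hK
  have hK1 : 1 ≤ K := le_max_right _ _
  have hKt : K ≠ ⊤ := (max_lt ENNReal.coe_lt_top ENNReal.one_lt_top).ne
  have hRB : RB r V K := by
    intro c l hl
    have hl0 : ENNReal.ofReal l ≠ 0 := by rw [Ne, ENNReal.ofReal_eq_zero]; push Not; exact hl
    have e1 : ∫⁻ x in Ioo (c - l / 2) (c + l / 2), V x =
        ∫⁻ x in Ioo (c - l / 2) (c + l / 2), ENNReal.ofReal (U x) :=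
      lintegral_congr_ae (ae_restrict_of_ae hVU)
    rw [e1]
    have e2 : ∫⁻ x, V x * ENNReal.ofReal (l ^ r / (l ^ r + |x - c| ^ r)) =
        ENNReal.ofReal l * ∫⁻ x, ENNReal.ofReal (l ^ (r - 1) * U x / (l ^ r + |x - c| ^ r)) := by
      rw [← lintegral_const_mul' _ _ ENNReal.ofReal_ne_top]
      apply lintegral_congr_ae
      filter_upwards [hVU] with x hx
      rw [hx, ← ENNReal.ofReal_mul (hU.1 x), ← ENNReal.ofReal_mul hl.le]
      congr 1
      have : l ^ r = l * l ^ (r - 1) := by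
        nth_rewrite 2 [← Real.rpow_one l]
        rw [← Real.rpow_add hl]
        congr 1; ring
      rw [this]; ring
    rw [e2]
    calc ENNReal.ofReal l * ∫⁻ x, ENNReal.ofReal (l ^ (r - 1) * U x / (l ^ r + |x - c| ^ r))
        ≤ ENNReal.ofReal l * (CB / ENNReal.ofReal l *
          ∫⁻ x in Ioo (c - l / 2) (c + l / 2), ENNReal.ofReal (U x)) := by
          gcongr
          exact hCB c l hl
      _ = CB * ∫⁻ x in Ioo (c - l / 2) (c + l / 2), ENNReal.ofReal (U x) := by
          rw [← mul_assoc, ENNReal.mul_div_cancel hl0 ENNReal.ofReal_ne_top]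
      _ ≤ _ := by
          gcongr
          exact le_max_left _ _
  obtain ⟨C1, hC1⟩ := areaAp hp hp2 hV ENNReal.coe_ne_top hApB
  obtain ⟨C2, hC2⟩ := GF_bound h1 h2 hp1 hp2 hV hK1 hKt hfin hRB
  refine ⟨2 * (C2 * C1), fun f hf hfin' => ?_⟩
  -- measurable representative
  set g := hf.mk f with hg
  have hgm : StronglyMeasurable g := hf.stronglyMeasurable_mk
  have hfg : f =ᵐ[volume] g := hf.ae_eq_mk
  have eStar : gStar lam f = gStar lam g := by
    unfold gStar gradSq
    rw [poisson_congr hfg]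
  set N : ℝ≥0∞ := ∫⁻ x, ENNReal.ofReal (‖f x‖ ^ p * U x) with hN
  have hNg : ∫⁻ x, ENNReal.ofReal ‖g x‖ ^ p * V x = N := by
    rw [hN]
    apply lintegral_congr_ae
    filter_upwards [hfg, hVU] with x hx hx2
    rw [hx2, ← hx, ENNReal.ofReal_rpow_of_nonneg (norm_nonneg _) hp0.le, ENNReal.ofReal_mul
      (by positivity)]
  have hre : Measurable fun x => RCLike.re (g x) := RCLike.measurable_re.comp hgm.measurable
  have him : Measurable fun x => RCLike.im (g x) := RCLike.measurable_im.comp hgm.measurable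
  have hreN : ∫⁻ x, ENNReal.ofReal |RCLike.re (g x)| ^ p * V x ≤ N := by
    rw [← hNg]
    apply lintegral_mono
    intro x
    simp only
    gcongr
    exact RCLike.abs_re_le_norm _
  have himN : ∫⁻ x, ENNReal.ofReal |RCLike.im (g x)| ^ p * V x ≤ N := by
    rw [← hNg]
    apply lintegral_mono
    intro x
    simp only
    gcongr
    exact RCLike.abs_im_le_norm _
  obtain ⟨P1, hA1⟩ := hC1 _ hre (lt_of_le_of_lt hreN hfin').ne
  obtain ⟨P2, hA2⟩ := hC1 _ him (lt_of_le_of_lt himN hfin').ne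
  obtain ⟨a1, b1, c1, H1⟩ := exists_harm P1
  obtain ⟨a2, b2, c2, H2⟩ := exists_harm P2
  have hΨ1 := measurable_Dens H1
  have hΨ2 := measurable_Dens H2
  have hp2' : 0 < p / 2 := by positivity
  have hmm : Measurable fun x => GF (Dens a1 b1) lam x ^ (p / 2) * V x :=
    ((measurable_GF hΨ1 lam).pow_const _).mul hV.meas
  have k1 : ∫⁻ x, GF (Dens a1 b1) lam x ^ (p / 2) * V x ≤ C2 * (C1 * N) := by
    refine (hC2 _ hΨ1 (Dens_off a1 b1)).trans ?_
    gcongr
    exact (hA1 a1 b1 c1 H1).trans (by gcongr)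
  have k2 : ∫⁻ x, GF (Dens a2 b2) lam x ^ (p / 2) * V x ≤ C2 * (C1 * N) := by
    refine (hC2 _ hΨ2 (Dens_off a2 b2)).trans ?_
    gcongr
    exact (hA2 a2 b2 c2 H2).trans (by gcongr)
  calc ∫⁻ x, gStar lam f x ^ p * ENNReal.ofReal (U x)
      = ∫⁻ x, gStar lam g x ^ p * V x := by
        apply lintegral_congr_ae
        filter_upwards [hVU] with x hx
        rw [hx, eStar]
    _ ≤ ∫⁻ x, (GF (Dens a1 b1) lam x ^ (p / 2) * V x + GF (Dens a2 b2) lam x ^ (p / 2) * V x) := by
        apply lintegral_mono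
        intro x
        simp only
        rw [← add_mul]
        gcongr
        calc gStar lam g x ^ p
            ≤ ((GF (Dens a1 b1) lam x + GF (Dens a2 b2) lam x) ^ (1 / 2 : ℝ)) ^ p := by
              gcongr
              exact gStar_le hgm.aestronglyMeasurable P1 P2 H1 H2 lam x
          _ = (GF (Dens a1 b1) lam x + GF (Dens a2 b2) lam x) ^ (p / 2) := by
              rw [← ENNReal.rpow_mul]
              congr 1; ring
          _ ≤ _ := ENNReal.rpow_add_le_add_rpow _ _ hp2'.le (by linarith)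
    _ = (∫⁻ x, GF (Dens a1 b1) lam x ^ (p / 2) * V x) +
          ∫⁻ x, GF (Dens a2 b2) lam x ^ (p / 2) * V x :=
        lintegral_add_left hmm _
    _ ≤ C2 * (C1 * N) + C2 * (C1 * N) := add_le_add k1 k2
    _ = _ := by
        push_cast
        ring

end Pool.Agent.Y273.GL
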