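import Mathlib

set_option autoImplicit false
open MeasureTheory Set Filter Topology
open scoped ENNReal NNReal

namespace Pool.Agent.Y273.GL

/-- uncentred maximal function with respect to the measure `μ`, over open intervals -/
noncomputable def MF (μ : Measure ℝ) (f : ℝ → ℝ≥0∞) (x : ℝ) : ℝ≥0∞ :=
  ⨆ (a : ℝ) (b : ℝ) (_ : x ∈ Ioo a b), (∫⁻ t in Ioo a b, f t ∂μ) / μ (Ioo a b)

lemma le_MF (μ : Measure ℝ) (f : ℝ → ℝ≥0∞) {x a b : ℝ} (hx : x ∈ Ioo a b) :
    (∫⁻ t in Ioo a b, f t ∂μ) / μ (Ioo a b) ≤ MF μ f x :=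
  le_iSup_of_le a (le_iSup_of_le b (le_iSup_of_le hx le_rfl))

lemma MF_le {μ : Measure ℝ} {f : ℝ → ℝ≥0∞} {x : ℝ} {c : ℝ≥0∞}
    (h : ∀ a b, x ∈ Ioo a b → (∫⁻ t in Ioo a b, f t ∂μ) / μ (Ioo a b) ≤ c) : MF μ f x ≤ c :=
  iSup_le fun a => iSup_le fun b => iSup_le fun hx => h a b hx

lemma MF_mono {μ : Measure ℝ} {f g : ℝ → ℝ≥0∞} (h : ∀ᵐ x ∂μ, f x ≤ g x) (x : ℝ) :
    MF μ f x ≤ MF μ g x := by
  refine MF_le fun a b hx => le_trans ?_ (le_MF μ g hx)
  gcongr ?_ / _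
  exact lintegral_mono_ae (ae_restrict_of_ae h)

lemma setOf_lt_MF (μ : Measure ℝ) (f : ℝ → ℝ≥0∞) (lam : ℝ≥0∞) :
    {x | lam < MF μ f x} =
      ⋃ s ∈ {s : ℝ × ℝ | lam < (∫⁻ t in Ioo s.1 s.2, f t ∂μ) / μ (Ioo s.1 s.2)},
        Ioo s.1 s.2 := by
  ext x
  simp only [mem_ofPred_eq, MF, lt_iSup_iff, mem_iUnion, exists_prop, Prod.exists]
  constructor
  · rintro ⟨a, b, hx, h⟩
    exact ⟨a, b, h, hx⟩
  · rintro ⟨a, b, h, hx⟩
    exact ⟨a, b, hx, h⟩

lemma isOpen_lt_MF (μ : Measure ℝ) (f : ℝ → ℝ≥0∞) (lam : ℝ≥0∞) : IsOpen {x | lam < MF μ f x} := by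
  rw [setOf_lt_MF]
  exact isOpen_biUnion fun s _ => isOpen_Ioo

lemma measurable_MF (μ : Measure ℝ) (f : ℝ → ℝ≥0∞) : Measurable (MF μ f) :=
  measurable_of_Ioi fun lam => (isOpen_lt_MF μ f lam).measurableSet

/-- In a finite family of intervals there is a subfamily with the same union and overlap at most
two. -/
lemma exists_sub (F : Finset (ℝ × ℝ)) : ∃ F' ⊆ F,
    (⋃ s ∈ F', Ioo s.1 s.2) = (⋃ s ∈ F, Ioo s.1 s.2) ∧
      ∀ x : ℝ, (F'.filter fun s => x ∈ Ioo s.1 s.2).card ≤ 2 := by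
  classical
  induction hn : F.card using Nat.strong_induction_on generalizing F with
  | _ n ih =>
    by_cases hF : ∀ x : ℝ, (F.filter fun s => x ∈ Ioo s.1 s.2).card ≤ 2
    · exact ⟨F, Finset.Subset.refl _, rfl, hF⟩
    · push Not at hF
      obtain ⟨x, hx⟩ := hF
      set G := F.filter fun s => x ∈ Ioo s.1 s.2 with hG
      have hGne : G.Nonempty := Finset.card_pos.1 (by omega)
      obtain ⟨s1, hs1, hmin⟩ := G.exists_min_image (fun s => s.1) hGne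
      obtain ⟨s2, hs2, hmax⟩ := G.exists_max_image (fun s => s.2) hGne
      obtain ⟨s3, hs3, h31⟩ : ∃ s ∈ G, s ∉ ({s1, s2} : Finset (ℝ × ℝ)) := by
        apply Finset.exists_mem_notMem_of_card_lt_card
        exact lt_of_le_of_lt Finset.card_le_two hx
      simp only [Finset.mem_insert, Finset.mem_singleton, not_or] at h31
      have hG1 := (Finset.mem_filter.1 hs1)
      have hG2 := (Finset.mem_filter.1 hs2)
      have hG3 := (Finset.mem_filter.1 hs3)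
      have hcard : (F.erase s3).card < n := by
        rw [Finset.card_erase_of_mem hG3.1, hn]
        have : 0 < F.card := Finset.card_pos.2 ⟨s3, hG3.1⟩
        omega
      obtain ⟨F', hF', hU, hov⟩ := ih _ hcard (F.erase s3) rfl
      refine ⟨F', hF'.trans (Finset.erase_subset _ _), ?_, hov⟩
      rw [hU]
      ext y
      simp only [mem_iUnion, exists_prop, Finset.mem_erase]
      constructor
      · rintro ⟨s, ⟨_, hs⟩, hy⟩
        exact ⟨s, hs, hy⟩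
      · rintro ⟨s, hs, hy⟩
        by_cases h3 : s = s3
        · subst h3
          rcases le_total y x with hyx | hyx
          · refine ⟨s1, ⟨fun h => h31.1 h.symm, hG1.1⟩, ?_⟩
            exact ⟨lt_of_le_of_lt (hmin s hs3) hy.1, lt_of_le_of_lt hyx hG1.2.2⟩
          · refine ⟨s2, ⟨fun h => h31.2 h.symm, hG2.1⟩, ?_⟩
            exact ⟨lt_of_lt_of_le hG2.2.1 hyx, lt_of_lt_of_le hy.2 (hmax s hs3)⟩
        · exact ⟨s, ⟨h3, hs⟩, hy⟩

lemma weak_finite (μ : Measure ℝ) {f : ℝ → ℝ≥0∞} (hf : Measurable f) (lam : ℝ≥0∞)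
    (F : Finset (ℝ × ℝ))
    (hF : ∀ s ∈ F, lam * μ (Ioo s.1 s.2) ≤ ∫⁻ t in Ioo s.1 s.2, f t ∂μ) :
    lam * μ (⋃ s ∈ F, Ioo s.1 s.2) ≤ 2 * ∫⁻ t, f t ∂μ := by
  classical
  obtain ⟨F', hF', hU, hov⟩ := exists_sub F
  rw [← hU]
  calc lam * μ (⋃ s ∈ F', Ioo s.1 s.2) ≤ lam * ∑ s ∈ F', μ (Ioo s.1 s.2) := by
        gcongr
        exact measure_biUnion_finset_le _ _
    _ = ∑ s ∈ F', lam * μ (Ioo s.1 s.2) := Finset.mul_sum _ _ _
    _ ≤ ∑ s ∈ F', ∫⁻ t in Ioo s.1 s.2, f t ∂μ := Finset.sum_le_sum fun s hs => hF s (hF' hs)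
    _ = ∑ s ∈ F', ∫⁻ t, (Ioo s.1 s.2).indicator f t ∂μ := by
        refine Finset.sum_congr rfl fun s _ => ?_
        rw [lintegral_indicator measurableSet_Ioo]
    _ = ∫⁻ t, ∑ s ∈ F', (Ioo s.1 s.2).indicator f t ∂μ := by
        rw [lintegral_finsetSum]
        intro s _
        exact hf.indicator measurableSet_Ioo
    _ ≤ ∫⁻ t, 2 * f t ∂μ := by
        apply lintegral_mono
        intro t
        have h1 : ∑ s ∈ F', (Ioo s.1 s.2).indicator f t =
            (F'.filter fun s => t ∈ Ioo s.1 s.2).card * f t := by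
          rw [← nsmul_eq_mul, ← Finset.sum_const, Finset.sum_filter]
          refine Finset.sum_congr rfl fun s _ => ?_
          by_cases h : t ∈ Ioo s.1 s.2
          · rw [indicator_of_mem h, if_pos h]
          · rw [indicator_of_notMem h, if_neg h]
        simp only
        rw [h1]
        gcongr
        exact_mod_cast hov t
    _ = 2 * ∫⁻ t, f t ∂μ := lintegral_const_mul _ hf

/-- weak type (1,1) with constant 2, for an arbitrary measure on the line -/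
theorem weak_type (μ : Measure ℝ) {f : ℝ → ℝ≥0∞} (hf : Measurable f) (lam : ℝ≥0∞) :
    lam * μ {x | lam < MF μ f x} ≤ 2 * ∫⁻ t, f t ∂μ := by
  rw [setOf_lt_MF]
  set S := {s : ℝ × ℝ | lam < (∫⁻ t in Ioo s.1 s.2, f t ∂μ) / μ (Ioo s.1 s.2)} with hS
  obtain ⟨T, hTS, hTc, hTU⟩ := TopologicalSpace.isOpen_biUnion_countable S
    (fun s : ℝ × ℝ => Ioo s.1 s.2) (fun s _ => isOpen_Ioo)
  rw [← hTU]
  rcases T.eq_empty_or_nonempty with h0 | hne
  · simp [h0]
  obtain ⟨s, rfl⟩ := hTc.exists_eq_range hne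
  have h1 : (⋃ i ∈ range s, Ioo i.1 i.2) = ⋃ n, Ioo (s n).1 (s n).2 := by
    simp
  rw [h1, measure_iUnion_eq_iSup_accumulate, ENNReal.mul_iSup]
  apply iSup_le
  intro n
  have h2 : accumulate (fun n => Ioo (s n).1 (s n).2) n =
      ⋃ t ∈ (Finset.range (n + 1)).image s, Ioo t.1 t.2 := by
    ext x
    simp only [mem_accumulate, Finset.mem_image, Finset.mem_range, mem_iUnion, exists_prop]
    constructor
    · rintro ⟨y, hy, hx⟩
      exact ⟨s y, ⟨y, by omega, rfl⟩, hx⟩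
    · rintro ⟨t, ⟨y, hy, rfl⟩, hx⟩
      exact ⟨y, by omega, hx⟩
  rw [h2]
  apply weak_finite μ hf
  intro t ht
  obtain ⟨y, _, rfl⟩ := Finset.mem_image.1 ht
  have h3 : s y ∈ S := hTS (mem_range_self y)
  exact ENNReal.mul_le_of_le_div (le_of_lt h3)

end Pool.Agent.Y273.GL
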