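import Pool.Agent.Y273.GL.MainSuff

set_option autoImplicit false
open MeasureTheory Set Filter Topology Complex
open scoped ENNReal NNReal

namespace Pool.Agent.Y273.GL

/-- the `y`-derivative of a Poisson extension, explicitly -/
lemma harm_dy {g : ℝ → ℝ} (hg : Pois g) (z : ℝ) {y : ℝ} (hy : 0 < y) :
    Integrable (fun t => g t * (((t - z) ^ 2 - y ^ 2) / ((t - z) ^ 2 + y ^ 2) ^ 2)) ∧
    HasDerivAt (fun y => PU g z y)
      (∫ t, g t * (((t - z) ^ 2 - y ^ 2) / ((t - z) ^ 2 + y ^ 2) ^ 2)) y := by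
  set ζ : ℂ := z + y * I with hζdef
  have hζ : 0 < ζ.im := by simpa [hζdef] using hy
  have hζim : ζ.im = y := by simp [hζdef]
  have hc : Integrable fun t => ((g t / (1 + t ^ 2) : ℝ) : ℂ) := hg.ofReal
  set y' := ζ.im / 2 with hy'
  have hy0 : 0 < y' := by positivity
  set R := ‖ζ‖ + y' with hR
  have hball : ∀ x ∈ Metric.ball ζ y', y' ≤ x.im ∧ ‖x‖ ≤ R := by
    intro x hx
    rw [Metric.mem_ball, dist_eq_norm] at hx
    constructor
    · have h1 := Complex.abs_im_le_norm (x - ζ)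
      have h2 := (neg_abs_le (x - ζ).im)
      simp only [Complex.sub_im] at h1 h2
      linarith
    · calc ‖x‖ = ‖ζ + (x - ζ)‖ := by congr 1; ring
        _ ≤ ‖ζ‖ + ‖x - ζ‖ := norm_add_le _ _
        _ ≤ R := by rw [hR]; linarith
  have key := hasDerivAt_integral_of_dominated_loc_of_deriv_le (μ := volume)
    (F := fun (x : ℂ) (t : ℝ) => ((g t / (1 + t ^ 2) : ℝ) : ℂ) * NK t x)
    (F' := fun (x : ℂ) (t : ℝ) => ((g t / (1 + t ^ 2) : ℝ) : ℂ) * ((1 + (t:ℂ) ^ 2) / (t - x) ^ 2))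
    (x₀ := ζ) (s := Metric.ball ζ y')
    (bound := fun t => ‖((g t / (1 + t ^ 2) : ℝ) : ℂ)‖ * (2 + (1 + 2 * R ^ 2) / y' ^ 2))
    (Metric.ball_mem_nhds ζ hy0) (by
      have : ∀ᶠ x in 𝓝 ζ, x ∈ Metric.ball ζ y' := Metric.ball_mem_nhds ζ hy0
      filter_upwards [this] with x hx
      exact (int_NK hg (hy0.trans_le (hball x hx).1)).aestronglyMeasurable) (int_NK hg hζ) (by
      apply hc.aestronglyMeasurable.mul
      apply Continuous.aestronglyMeasurable
      apply Continuous.div (by fun_prop) (by fun_prop)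
      intro t
      exact pow_ne_zero 2 (sub_ne hζ)) (by
      refine Eventually.of_forall fun t x hx => ?_
      rw [norm_mul]
      gcongr
      exact NK'_bound t hy0 (hball x hx).1 (hball x hx).2) (hc.norm.mul_const _) (by
      refine Eventually.of_forall fun t x hx => ?_
      exact (NK_deriv t (hy0.trans_le (hball x hx).1)).const_mul _)
  obtain ⟨hint, hder⟩ := key
  have hre : ∀ t : ℝ, (((g t / (1 + t ^ 2) : ℝ) : ℂ) * ((1 + (t:ℂ) ^ 2) / (t - ζ) ^ 2)).re =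
      g t * (((t - z) ^ 2 - y ^ 2) / ((t - z) ^ 2 + y ^ 2) ^ 2) := by
    intro t
    rw [Complex.re_ofReal_mul]
    have h0 : (t:ℂ) - ζ ≠ 0 := sub_ne hζ
    have e1 : (1 + (t:ℂ) ^ 2) / (t - ζ) ^ 2 =
        ((1 + t ^ 2 : ℝ) : ℂ) * (1 / (t - ζ) ^ 2) := by
      push_cast; ring
    rw [e1, Complex.re_ofReal_mul]
    have e2 : (1 / ((t:ℂ) - ζ) ^ 2).re = ((t - z) ^ 2 - y ^ 2) / ((t - z) ^ 2 + y ^ 2) ^ 2 := by
      have h2 : Complex.normSq (((t:ℂ) - ζ) ^ 2) = ((t - z) ^ 2 + y ^ 2) ^ 2 := by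
        rw [map_pow, Complex.normSq_apply, hζdef]; simp; ring
      rw [Complex.div_re, h2]
      simp [hζdef, sq]
    rw [e2]
    have : (1 + t ^ 2) ≠ 0 := by positivity
    field_simp
  refine ⟨?_, ?_⟩
  · have h1 : Integrable fun t => (((g t / (1 + t ^ 2) : ℝ) : ℂ) *
        ((1 + (t:ℂ) ^ 2) / (t - ζ) ^ 2)).re := hint.re
    refine h1.congr (Eventually.of_forall fun t => hre t)
  · have hF : HasDerivAt (FF g) (∫ t, ((g t / (1 + t ^ 2) : ℝ) : ℂ) *
        ((1 + (t:ℂ) ^ 2) / (t - ζ) ^ 2)) (z + y * I) := hder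
    have h1 := hasDerivAt_im (line_y z y hF)
    have e1 : ((∫ t, ((g t / (1 + t ^ 2) : ℝ) : ℂ) * ((1 + (t:ℂ) ^ 2) / (t - ζ) ^ 2)) * I).im =
        ∫ t, g t * (((t - z) ^ 2 - y ^ 2) / ((t - z) ^ 2 + y ^ 2) ^ 2) := by
      have h2 := Complex.reCLM.integral_comp_comm hint
      simp only [Complex.reCLM_apply] at h2
      rw [Complex.mul_I_im, ← h2]
      congr 1
      funext t
      exact hre t
    rw [e1] at h1
    refine h1.congr_of_eventuallyEq ?_
    have : ∀ᶠ y' in 𝓝 y, 0 < y' := lt_mem_nhds hy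
    filter_upwards [this] with y' hy'
    exact (im_FF hg z y' hy').symm

variable {𝕜 : Type} [RCLike 𝕜]

lemma poisson_real (f : ℝ → ℝ) (z y : ℝ) :
    poisson (fun t => ((f t : ℝ) : 𝕜)) z y = ((1 / Real.pi * PU f z y : ℝ) : 𝕜) := by
  rw [poisson_eq]
  have e : (fun t : ℝ => (y / ((t - z) ^ 2 + y ^ 2)) • ((f t : ℝ) : 𝕜)) =
      fun t => ((f t * (y / ((t - z) ^ 2 + y ^ 2)) : ℝ) : 𝕜) := by
    funext t
    rw [RCLike.real_smul_eq_coe_mul, ← RCLike.ofReal_mul, mul_comm]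
  rw [e, integral_ofReal, RCLike.real_smul_eq_coe_mul, ← RCLike.ofReal_mul]
  rfl

/-- lower bound for the gradient -/
lemma gradSq_ge {f : ℝ → ℝ} (hf : Integrable f) (h0 : ∀ t, 0 ≤ f t) {c l : ℝ} (hl : 0 < l)
    (hsupp : ∀ t, t ∉ Ioo (c - l / 2) (c + l / 2) → f t = 0) {z y : ℝ} (hz : |z - c| ≤ l)
    (hy : 4 * l ≤ y) :
    (1 / Real.pi * (12 / 25 / y ^ 2 * ∫ t, f t)) ^ 2 ≤ gradSq (fun t => ((f t : ℝ) : 𝕜)) z y := by
  have hy0 : 0 < y := by linarith
  obtain ⟨hint, hder⟩ := harm_dy (pois_of_integrable hf) z hy0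
  set b : ℝ := ∫ t, f t * (((t - z) ^ 2 - y ^ 2) / ((t - z) ^ 2 + y ^ 2) ^ 2) with hb
  have hbound : 12 / 25 / y ^ 2 * ∫ t, f t ≤ -b := by
    rw [hb, ← integral_neg, ← integral_const_mul]
    apply integral_mono (hf.const_mul _) hint.neg
    intro t
    simp only [Pi.neg_apply]
    by_cases ht : t ∈ Ioo (c - l / 2) (c + l / 2)
    · have h1 : |t - z| ≤ y / 2 := by
        have h2 : |t - c| ≤ l / 2 := by rw [abs_le]; constructor <;> linarith [ht.1, ht.2]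
        have h3 : |t - z| ≤ |t - c| + |c - z| := abs_sub_le _ _ _
        rw [abs_sub_comm c z] at h3
        linarith
      have h4 : (t - z) ^ 2 ≤ y ^ 2 / 4 := by
        rw [← sq_abs]
        nlinarith [abs_nonneg (t - z)]
      have h5 : 12 / 25 / y ^ 2 ≤ -(((t - z) ^ 2 - y ^ 2) / ((t - z) ^ 2 + y ^ 2) ^ 2) := by
        rw [← neg_div, div_div, div_le_div_iff₀ (by positivity) (by positivity)]
        set A := (t - z) ^ 2 with hA
        have hA0 : 0 ≤ A := sq_nonneg _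
        set Y := y ^ 2 with hY
        have hY0 : 0 < Y := by positivity
        nlinarith [mul_nonneg hA0 hY0.le, mul_nonneg hA0 (sub_nonneg.2 h4), mul_nonneg hY0.le (sub_nonneg.2 h4)]
      calc 12 / 25 / y ^ 2 * f t ≤ -(((t - z) ^ 2 - y ^ 2) / ((t - z) ^ 2 + y ^ 2) ^ 2) * f t :=
            mul_le_mul_of_nonneg_right h5 (h0 t)
        _ = _ := by ring
    · rw [hsupp t ht]; simp
  have hI0 : 0 ≤ ∫ t, f t := integral_nonneg h0
  unfold gradSq
  have d2 : HasDerivAt (fun y' => poisson (fun t => ((f t : ℝ) : 𝕜)) z y')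
      ((1 / Real.pi * b : ℝ) : 𝕜) y := by
    simp only [poisson_real]
    exact hasDerivAt_coe (hder.const_mul _)
  rw [d2.deriv, RCLike.norm_ofReal]
  have h6 : (1 / Real.pi * (12 / 25 / y ^ 2 * ∫ t, f t)) ^ 2 ≤ |1 / Real.pi * b| ^ 2 := by
    apply pow_le_pow_left₀ (by positivity)
    rw [abs_mul, abs_of_pos (by positivity : 0 < 1 / Real.pi)]
    gcongr
    exact hbound.trans (neg_le_abs b)
  have h7 : 0 ≤ ‖deriv (fun z' => poisson (fun t => ((f t : ℝ) : 𝕜)) z' y) z‖ ^ 2 := by positivity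
  linarith

end Pool.Agent.Y273.GL
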