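import Pool.Agent.Y273.GL.Nec

set_option autoImplicit false
open MeasureTheory Set Filter Topology
open scoped ENNReal NNReal

namespace Pool.Agent.Y273.GL

variable {𝕜 : Type} [RCLike 𝕜]

/-- lower bound for `g^*_λ` -/
lemma gStar_ge {lam : ℝ} (h1 : 1 < lam) (h2 : lam ≤ 2) {f : ℝ → ℝ} (hf : Integrable f)
    (h0 : ∀ t, 0 ≤ f t) {c l : ℝ} (hl : 0 < l)
    (hsupp : ∀ t, t ∉ Ioo (c - l / 2) (c + l / 2) → f t = 0) (x : ℝ) :
    ENNReal.ofReal (1 / 200 * ((∫ t, f t) / l) * (l / (|x - c| + l)) ^ (lam / 2)) ≤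
      gStar lam (fun t => ((f t : ℝ) : 𝕜)) x := by
  set A : ℝ := ∫ t, f t with hA
  have hA0 : 0 ≤ A := integral_nonneg h0
  have hd : 0 ≤ |x - c| := abs_nonneg _
  set κ : ℝ := l / (|x - c| + l) with hκ
  have hκ0 : 0 < κ := by positivity
  -- pointwise lower bound on the box
  set V : ℝ := 16 / 25 * κ ^ lam * (1 / Real.pi * (12 / 25 / (8 * l) ^ 2 * A)) ^ 2 with hV
  have hV0 : 0 ≤ V := by positivity
  have hbox : ∀ z ∈ Ioo (c - l) (c + l), ∀ y ∈ Ioo (4 * l) (8 * l),
      V ≤ (y / (|x - z| + y)) ^ lam * gradSq (fun t => ((f t : ℝ) : 𝕜)) z y := by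
    intro z hz y hy
    have hy0 : 0 < y := by linarith [hy.1]
    have hzc : |z - c| ≤ l := by rw [abs_le]; constructor <;> linarith [hz.1, hz.2]
    have hg := gradSq_ge (𝕜 := 𝕜) hf h0 hl hsupp hzc hy.1.le
    have hk1 : 4 / 5 * κ ≤ y / (|x - z| + y) := by
      have h3 : |x - z| ≤ |x - c| + |c - z| := abs_sub_le _ _ _
      rw [abs_sub_comm c z] at h3
      have h4 : |x - z| ≤ |x - c| + l := by linarith
      rw [hκ, ← mul_div_assoc, div_le_div_iff₀ (by positivity) (by positivity)]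
      nlinarith [abs_nonneg (x - z), hy.1, mul_nonneg hd hl.le, mul_nonneg hd (sub_nonneg.2 hy.1.le),
        mul_nonneg hl.le (sub_nonneg.2 h4), mul_nonneg hl.le (sub_nonneg.2 hy.1.le)]
    have hk2 : 16 / 25 * κ ^ lam ≤ (y / (|x - z| + y)) ^ lam := by
      calc 16 / 25 * κ ^ lam ≤ (4 / 5) ^ lam * κ ^ lam := by
            gcongr
            calc (16 / 25 : ℝ) = (4 / 5) ^ (2:ℝ) := by norm_num
              _ ≤ (4 / 5) ^ lam := Real.rpow_le_rpow_of_exponent_ge (by norm_num) (by norm_num) h2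
        _ = (4 / 5 * κ) ^ lam := by rw [Real.mul_rpow (by norm_num) hκ0.le]
        _ ≤ _ := Real.rpow_le_rpow (by positivity) hk1 (by linarith)
    have hg2 : (1 / Real.pi * (12 / 25 / (8 * l) ^ 2 * A)) ^ 2 ≤
        gradSq (fun t => ((f t : ℝ) : 𝕜)) z y := by
      refine le_trans ?_ hg
      have hyl : y ≤ 8 * l := hy.2.le
      gcongr
    rw [hV]
    exact mul_le_mul hk2 hg2 (by positivity) (by positivity)
  have hint : ENNReal.ofReal (V * (8 * l ^ 2)) ≤ ∫⁻ z : ℝ, ∫⁻ y in Ioi (0 : ℝ),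
      ENNReal.ofReal ((y / (|x - z| + y)) ^ lam * gradSq (fun t => ((f t : ℝ) : 𝕜)) z y) := by
    calc ENNReal.ofReal (V * (8 * l ^ 2))
        = ∫⁻ _z in Ioo (c - l) (c + l), ∫⁻ _y in Ioo (4 * l) (8 * l), ENNReal.ofReal V := by
          rw [setLIntegral_const, setLIntegral_const, Real.volume_Ioo, Real.volume_Ioo,
            ← ENNReal.ofReal_mul hV0, ← ENNReal.ofReal_mul (by nlinarith)]
          congr 1
          ring
      _ ≤ ∫⁻ z in Ioo (c - l) (c + l), ∫⁻ y in Ioo (4 * l) (8 * l),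
          ENNReal.ofReal ((y / (|x - z| + y)) ^ lam *
            gradSq (fun t => ((f t : ℝ) : 𝕜)) z y) := by
          apply setLIntegral_mono' measurableSet_Ioo
          intro z hz
          apply setLIntegral_mono' measurableSet_Ioo
          intro y hy
          exact ENNReal.ofReal_le_ofReal (hbox z hz y hy)
      _ ≤ ∫⁻ z in Ioo (c - l) (c + l), ∫⁻ y in Ioi (0:ℝ),
          ENNReal.ofReal ((y / (|x - z| + y)) ^ lam *
            gradSq (fun t => ((f t : ℝ) : 𝕜)) z y) := by
          apply lintegral_mono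
          intro z
          apply lintegral_mono_set
          intro y hy
          have : 0 < 4 * l := by positivity
          exact this.trans hy.1
      _ ≤ _ := setLIntegral_le_lintegral _ _
  unfold gStar
  have hsq : ENNReal.ofReal (1 / 200 * (A / l) * κ ^ (lam / 2)) =
      (ENNReal.ofReal ((1 / 200 * (A / l) * κ ^ (lam / 2)) ^ 2)) ^ (1 / 2 : ℝ) := by
    rw [ENNReal.ofReal_rpow_of_nonneg (by positivity) (by norm_num), ← Real.sqrt_eq_rpow,
      Real.sqrt_sq (by positivity)]
  rw [hsq]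
  apply ENNReal.rpow_le_rpow _ (by norm_num)
  refine le_trans (ENNReal.ofReal_le_ofReal ?_) hint
  have e1 : (κ ^ (lam / 2)) ^ 2 = κ ^ lam := by
    rw [← Real.rpow_natCast, ← Real.rpow_mul hκ0.le]
    congr 1
    push_cast
    ring
  have hpi2 : Real.pi ^ 2 < 10 := by
    have := Real.pi_lt_d2
    have h3 := Real.pi_pos
    nlinarith
  have e2 : V * (8 * l ^ 2) = (16 / 25 * (144 / 625) * 8 / 4096) / Real.pi ^ 2 *
      ((A / l) ^ 2 * κ ^ lam) := by
    rw [hV]
    field_simp
    ring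
  rw [e2, mul_pow, mul_pow, e1, mul_assoc]
  gcongr
  rw [le_div_iff₀ (by positivity)]
  nlinarith

/-- necessity of `B_{λp/2}` -/
theorem necB {lam p : ℝ} (h1 : 1 < lam) (h2 : lam ≤ 2) (hp1 : 2 / lam < p)
    {U : ℝ → ℝ} (hU : IsWeight U) (hS : Star 𝕜 lam p U) : CondB (lam * p / 2) U := by
  obtain ⟨C, hC⟩ := hS
  have hp : 1 < p := by
    refine lt_of_le_of_lt ?_ hp1
    rw [le_div_iff₀ (by linarith)]; linarith
  have hp0 : 0 < p := by linarith
  set r : ℝ := lam * p / 2 with hr
  have hr0 : 0 < r := by positivity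
  have hconst : (0:ℝ) ≤ 2 ^ r * 200 ^ p := by positivity
  refine ⟨Real.toNNReal (2 ^ r * 200 ^ p) * C, fun c l hl => ?_⟩
  set I : Set ℝ := Ioo (c - l / 2) (c + l / 2) with hI
  have hIm : MeasurableSet I := measurableSet_Ioo
  set f : ℝ → ℝ := I.indicator 1 with hf
  have hf0 : ∀ t, 0 ≤ f t := fun t => indicator_nonneg (fun _ _ => zero_le_one) t
  have hfi : Integrable f := by
    rw [hf]
    apply IntegrableOn.integrable_indicator _ hIm
    exact integrableOn_const (by rw [hI, Real.volume_Ioo]; exact ENNReal.ofReal_ne_top)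
  have hA : ∫ t, f t = l := by
    rw [hf, integral_indicator hIm]
    simp only [Pi.one_apply, integral_const, smul_eq_mul, mul_one, measureReal_def,
      Measure.restrict_apply_univ]
    rw [hI, Real.volume_Ioo, ENNReal.toReal_ofReal (by linarith)]
    ring
  have hcalc : ∫⁻ x, ENNReal.ofReal (‖((f x : ℝ) : 𝕜)‖ ^ p * U x) =
      ∫⁻ x in I, ENNReal.ofReal (U x) := by
    rw [← lintegral_indicator hIm]
    apply lintegral_congr
    intro x
    by_cases hx : x ∈ I
    · rw [indicator_of_mem hx]; simp [hf, indicator_of_mem hx]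
    · rw [indicator_of_notMem hx]; simp [hf, indicator_of_notMem hx, hp0.ne']
  have hfin : ∫⁻ x, ENNReal.ofReal (‖((f x : ℝ) : 𝕜)‖ ^ p * U x) < ⊤ := by
    rw [hcalc]; exact (hU.fin _ _).lt_top
  have hmeas : AEStronglyMeasurable (fun t => ((f t : ℝ) : 𝕜)) volume :=
    (RCLike.continuous_ofReal.measurable.comp
      (measurable_one.indicator hIm)).stronglyMeasurable.aestronglyMeasurable
  have hmain := hC _ hmeas hfin
  rw [hcalc] at hmain
  calc ∫⁻ x, ENNReal.ofReal (l ^ (r - 1) * U x / (l ^ r + |x - c| ^ r))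
      ≤ ∫⁻ x, ENNReal.ofReal (2 ^ r * 200 ^ p / l) *
          (gStar lam (fun t => ((f t : ℝ) : 𝕜)) x ^ p * ENNReal.ofReal (U x)) := by
        apply lintegral_mono
        intro x
        simp only
        have hd : 0 ≤ |x - c| := abs_nonneg _
        have h3 := gStar_ge (𝕜 := 𝕜) h1 h2 hfi hf0 hl (fun t ht => by
          rw [hf, indicator_of_notMem ht]) x
        rw [hA, div_self hl.ne', mul_one] at h3
        have h4 : ENNReal.ofReal ((1 / 200) ^ p * (l / (|x - c| + l)) ^ r) ≤
            gStar lam (fun t => ((f t : ℝ) : 𝕜)) x ^ p := by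
          refine le_trans (le_of_eq ?_) (ENNReal.rpow_le_rpow h3 hp0.le)
          rw [ENNReal.ofReal_rpow_of_nonneg (by positivity) hp0.le]
          congr 1
          rw [Real.mul_rpow (by norm_num) (by positivity), ← Real.rpow_mul (by positivity)]
          congr 2
          rw [hr]; ring
        have h5 : (|x - c| + l) ^ r ≤ 2 ^ r * (l ^ r + |x - c| ^ r) := by
          rcases le_total |x - c| l with h | h
          · calc (|x - c| + l) ^ r ≤ (2 * l) ^ r :=
                  Real.rpow_le_rpow (by positivity) (by linarith) hr0.le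
              _ = 2 ^ r * l ^ r := Real.mul_rpow (by norm_num) hl.le
              _ ≤ _ := by gcongr; have := Real.rpow_nonneg hd r; linarith
          · calc (|x - c| + l) ^ r ≤ (2 * |x - c|) ^ r :=
                  Real.rpow_le_rpow (by positivity) (by linarith) hr0.le
              _ = 2 ^ r * |x - c| ^ r := Real.mul_rpow (by norm_num) hd
              _ ≤ _ := by gcongr; have := Real.rpow_nonneg hl.le r; linarith
        have h6 : l ^ (r - 1) * U x / (l ^ r + |x - c| ^ r) ≤
            2 ^ r * 200 ^ p / l * ((1 / 200) ^ p * (l / (|x - c| + l)) ^ r * U x) := by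
          have hlr : l ^ (r - 1) = l ^ r / l := by
            rw [Real.rpow_sub hl, Real.rpow_one]
          have hpow : (200:ℝ) ^ p * (1 / 200) ^ p = 1 := by
            rw [← Real.mul_rpow (by norm_num) (by norm_num)]; norm_num
          have e1 : 2 ^ r * 200 ^ p / l * ((1 / 200) ^ p * (l / (|x - c| + l)) ^ r * U x) =
              2 ^ r * (l ^ r / l) * U x / (|x - c| + l) ^ r := by
            rw [Real.div_rpow hl.le (by positivity)]
            calc 2 ^ r * 200 ^ p / l * ((1 / 200) ^ p * (l ^ r / (|x - c| + l) ^ r) * U x)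
                = (200 ^ p * (1 / 200) ^ p) *
                  (2 ^ r * (l ^ r / l) * U x / (|x - c| + l) ^ r) := by ring
              _ = _ := by rw [hpow, one_mul]
          rw [e1, hlr, div_le_div_iff₀ (by positivity) (by positivity)]
          have hUx := hU.1 x
          have hpos : 0 ≤ l ^ r / l * U x := by positivity
          calc l ^ r / l * U x * (|x - c| + l) ^ r ≤
              l ^ r / l * U x * (2 ^ r * (l ^ r + |x - c| ^ r)) := by gcongr
            _ = _ := by ring
        calc ENNReal.ofReal (l ^ (r - 1) * U x / (l ^ r + |x - c| ^ r))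
            ≤ ENNReal.ofReal (2 ^ r * 200 ^ p / l *
              ((1 / 200) ^ p * (l / (|x - c| + l)) ^ r * U x)) := ENNReal.ofReal_le_ofReal h6
          _ = ENNReal.ofReal (2 ^ r * 200 ^ p / l) *
              (ENNReal.ofReal ((1 / 200) ^ p * (l / (|x - c| + l)) ^ r) *
                ENNReal.ofReal (U x)) := by
              rw [ENNReal.ofReal_mul (by positivity), ENNReal.ofReal_mul (by positivity)]
          _ ≤ _ := by gcongr
    _ = ENNReal.ofReal (2 ^ r * 200 ^ p / l) *
          ∫⁻ x, (gStar lam (fun t => ((f t : ℝ) : 𝕜)) x ^ p * ENNReal.ofReal (U x)) :=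
        lintegral_const_mul' _ _ ENNReal.ofReal_ne_top
    _ ≤ ENNReal.ofReal (2 ^ r * 200 ^ p / l) * (C * ∫⁻ x in I, ENNReal.ofReal (U x)) := by
        gcongr
    _ = _ := by
        rw [ENNReal.ofReal_div_of_pos hl, ENNReal.coe_mul]
        have e : ((Real.toNNReal (2 ^ r * 200 ^ p) : ℝ≥0) : ℝ≥0∞) =
          ENNReal.ofReal (2 ^ r * 200 ^ p) := rfl
        rw [e, div_eq_mul_inv, div_eq_mul_inv]
        ring

/-- necessity of `A_p` -/
theorem necA {lam p : ℝ} (h1 : 1 < lam) (h2 : lam ≤ 2) (hp1 : 2 / lam < p)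
    {U : ℝ → ℝ} (hU : IsWeight U) (hS : Star 𝕜 lam p U) : CondA p U := by
  obtain ⟨C, hC⟩ := hS
  have hp : 1 < p := by
    refine lt_of_le_of_lt ?_ hp1
    rw [le_div_iff₀ (by linarith)]; linarith
  have hp0 : 0 < p := by linarith
  have hp10 : 0 < p - 1 := by linarith
  refine ⟨Real.toNNReal (300 ^ p) * C, fun a b hab => ?_⟩
  set l : ℝ := b - a with hl'
  have hl : 0 < l := by rw [hl']; linarith
  set c : ℝ := (a + b) / 2 with hc
  have hIab : Ioo (c - l / 2) (c + l / 2) = Ioo a b := by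
    congr 1 <;> rw [hc, hl'] <;> ring
  set I : Set ℝ := Ioo a b with hI
  have hIm : MeasurableSet I := measurableSet_Ioo
  set Ue : ℝ → ℝ≥0∞ := fun x => ENNReal.ofReal (U x) with hUe
  have hUem : AEMeasurable Ue volume := hU.aemeas
  set L : ℝ≥0∞ := ENNReal.ofReal l with hL
  have hL0 : L ≠ 0 := by rw [hL, Ne, ENNReal.ofReal_eq_zero]; push Not; exact hl
  have hLt : L ≠ ⊤ := ENNReal.ofReal_ne_top
  set φ : ℕ → ℝ → ℝ≥0∞ := fun n x => min (n : ℝ≥0∞) (Ue x ^ (-(1 / (p - 1)))) with hφ
  have hφm : ∀ n, AEMeasurable (φ n) volume := fun n =>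
    aemeasurable_const.min (hUem.pow_const _)
  have hφt : ∀ n x, φ n x ≠ ⊤ := fun n x =>
    ((min_le_left _ _).trans_lt (ENNReal.natCast_lt_top n)).ne
  have hφU : ∀ n x, φ n x ^ p * Ue x ≤ φ n x := by
    intro n x
    have e1 : φ n x ^ p = φ n x * φ n x ^ (p - 1) := by
      nth_rewrite 2 [← ENNReal.rpow_one (φ n x)]
      rw [← ENNReal.rpow_add_of_nonneg _ _ zero_le_one hp10.le]
      congr 1; ring
    have e2 : φ n x ^ (p - 1) ≤ (Ue x)⁻¹ := by
      calc φ n x ^ (p - 1) ≤ (Ue x ^ (-(1 / (p - 1)))) ^ (p - 1) := by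
            gcongr
            exact min_le_right _ _
        _ = (Ue x)⁻¹ := by
            rw [← ENNReal.rpow_mul]
            have : -(1 / (p - 1)) * (p - 1) = -1 := by field_simp
            rw [this, ENNReal.rpow_neg_one]
    calc φ n x ^ p * Ue x = φ n x * (φ n x ^ (p - 1) * Ue x) := by rw [e1, mul_assoc]
      _ ≤ φ n x * ((Ue x)⁻¹ * Ue x) := by gcongr
      _ ≤ φ n x * 1 := by gcongr; exact ENNReal.inv_mul_le_one _
      _ = φ n x := mul_one _
  set J : ℕ → ℝ≥0∞ := fun n => ∫⁻ x in I, φ n x with hJ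
  have hJt : ∀ n, J n ≠ ⊤ := by
    intro n
    refine (lt_of_le_of_lt (b := ∫⁻ _x in I, (n : ℝ≥0∞)) (lintegral_mono fun x => min_le_left _ _)
      ?_).ne
    rw [setLIntegral_const]
    refine ENNReal.mul_lt_top (ENNReal.natCast_lt_top n) ?_
    rw [hI, Real.volume_Ioo]; exact ENNReal.ofReal_lt_top
  have hstep : ∀ n, (∫⁻ x in I, Ue x) / L * (J n / L) ^ (p - 1) ≤
      ((Real.toNNReal (300 ^ p) * C : ℝ≥0) : ℝ≥0∞) := by
    intro n
    set f : ℝ → ℝ := I.indicator fun x => (φ n x).toReal with hf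
    have hf0 : ∀ t, 0 ≤ f t := fun t => indicator_nonneg (fun _ _ => ENNReal.toReal_nonneg) t
    have hfI : ∀ x ∈ I, f x = (φ n x).toReal := fun x hx => indicator_of_mem hx _
    have hfI' : ∀ x ∉ I, f x = 0 := fun x hx => indicator_of_notMem hx _
    have hfm : AEMeasurable f volume := (hφm n).ennreal_toReal.indicator hIm
    have hfl : ∫⁻ x, ENNReal.ofReal (f x) = J n := by
      rw [hJ]
      simp only
      rw [← lintegral_indicator hIm]
      apply lintegral_congr
      intro x
      by_cases hx : x ∈ I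
      · rw [indicator_of_mem hx, hfI x hx, ENNReal.ofReal_toReal (hφt n x)]
      · rw [indicator_of_notMem hx, hfI' x hx, ENNReal.ofReal_zero]
    have hfi : Integrable f := by
      refine ⟨hfm.aestronglyMeasurable, ?_⟩
      rw [hasFiniteIntegral_iff_ofReal (Eventually.of_forall hf0), hfl]
      exact (hJt n).lt_top
    have hA : ENNReal.ofReal (∫ t, f t) = J n := by
      rw [ofReal_integral_eq_lintegral_ofReal hfi (Eventually.of_forall hf0), hfl]
    have hcalc : ∫⁻ x, ENNReal.ofReal (‖((f x : ℝ) : 𝕜)‖ ^ p * U x) ≤ J n := by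
      rw [hJ]
      simp only
      rw [← lintegral_indicator hIm]
      apply lintegral_mono
      intro x
      simp only
      by_cases hx : x ∈ I
      · rw [indicator_of_mem hx, RCLike.norm_ofReal, abs_of_nonneg (hf0 x),
          ENNReal.ofReal_mul (Real.rpow_nonneg (hf0 x) p), ← ENNReal.ofReal_rpow_of_nonneg (hf0 x)
          hp0.le, hfI x hx, ENNReal.ofReal_toReal (hφt n x)]
        exact hφU n x
      · rw [indicator_of_notMem hx, hfI' x hx]
        simp [hp0.ne']
    have hmeas : AEStronglyMeasurable (fun t => ((f t : ℝ) : 𝕜)) volume :=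
      RCLike.continuous_ofReal.comp_aestronglyMeasurable hfm.aestronglyMeasurable
    have hmain := hC _ hmeas (lt_of_le_of_lt hcalc (hJt n).lt_top)
    have hlow : ∀ x ∈ I, (ENNReal.ofReal (1 / 300) * (J n / L)) ^ p ≤
        gStar lam (fun t => ((f t : ℝ) : 𝕜)) x ^ p := by
      intro x hx
      apply ENNReal.rpow_le_rpow _ hp0.le
      have h3 := gStar_ge (𝕜 := 𝕜) h1 h2 hfi hf0 (c := c) hl (fun t ht => by
          rw [hIab] at ht; exact hfI' t ht) x
      refine le_trans ?_ h3
      have h4 : (2:ℝ) / 3 ≤ (l / (|x - c| + l)) ^ (lam / 2) := by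
        have h5 : |x - c| ≤ l / 2 := by
          rw [← hIab] at hx
          rw [abs_le]; constructor <;> linarith [hx.1, hx.2]
        have h6 : (2:ℝ) / 3 ≤ l / (|x - c| + l) := by
          rw [div_le_div_iff₀ (by norm_num) (by positivity)]
          linarith
        have h7 : l / (|x - c| + l) ≤ 1 := by
          rw [div_le_one (by positivity)]; linarith [abs_nonneg (x - c)]
        calc (2:ℝ) / 3 ≤ l / (|x - c| + l) := h6
          _ = (l / (|x - c| + l)) ^ (1:ℝ) := (Real.rpow_one _).symm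
          _ ≤ _ := Real.rpow_le_rpow_of_exponent_ge (by positivity) h7 (by linarith)
      rw [← hA, hL, ← ENNReal.ofReal_div_of_pos hl, ← ENNReal.ofReal_mul (by norm_num)]
      apply ENNReal.ofReal_le_ofReal
      have hI0 : 0 ≤ (∫ t, f t) / l := div_nonneg (integral_nonneg hf0) hl.le
      calc 1 / 300 * ((∫ t, f t) / l) = 1 / 200 * ((∫ t, f t) / l) * (2 / 3) := by ring
        _ ≤ _ := by gcongr
    set m : ℝ≥0∞ := J n / L with hm
    have hmt : m ≠ ⊤ := (ENNReal.div_lt_top (hJt n) hL0).ne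
    have hJm : J n = m * L := by rw [hm, ENNReal.div_mul_cancel hL0 hLt]
    have hineq : (ENNReal.ofReal (1 / 300) * m) ^ p * ∫⁻ x in I, Ue x ≤ C * (m * L) := by
      calc (ENNReal.ofReal (1 / 300) * m) ^ p * ∫⁻ x in I, Ue x
          = ∫⁻ x in I, (ENNReal.ofReal (1 / 300) * m) ^ p * Ue x := by
            rw [lintegral_const_mul'' _ hUem.restrict]
        _ ≤ ∫⁻ x in I, gStar lam (fun t => ((f t : ℝ) : 𝕜)) x ^ p * Ue x := by
            apply setLIntegral_mono' hIm
            intro x hx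
            exact mul_le_mul' (hlow x hx) le_rfl
        _ ≤ ∫⁻ x, gStar lam (fun t => ((f t : ℝ) : 𝕜)) x ^ p * Ue x :=
            setLIntegral_le_lintegral _ _
        _ ≤ C * J n := hmain.trans (by gcongr)
        _ = C * (m * L) := by rw [hJm]
    rcases eq_or_ne m 0 with hm0 | hm0
    · rw [hm0, ENNReal.zero_rpow_of_pos hp10, mul_zero]
      exact bot_le
    have hT : ENNReal.ofReal (300 ^ p) * (ENNReal.ofReal (1 / 300)) ^ p = 1 := by
      rw [ENNReal.ofReal_rpow_of_pos (by norm_num), ← ENNReal.ofReal_mul (by positivity),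
        ← Real.mul_rpow (by norm_num) (by norm_num)]
      norm_num
    have hmp : m ^ p = m * m ^ (p - 1) := by
      nth_rewrite 2 [← ENNReal.rpow_one m]
      rw [← ENNReal.rpow_add_of_nonneg _ _ zero_le_one hp10.le]
      congr 1; ring
    calc (∫⁻ x in I, Ue x) / L * m ^ (p - 1)
        = (ENNReal.ofReal (300 ^ p) * (ENNReal.ofReal (1 / 300)) ^ p) * (m⁻¹ * m) *
            ((∫⁻ x in I, Ue x) / L * m ^ (p - 1)) := by
          rw [hT, ENNReal.inv_mul_cancel hm0 hmt, one_mul, one_mul]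
      _ = ENNReal.ofReal (300 ^ p) * m⁻¹ * L⁻¹ *
            (((ENNReal.ofReal (1 / 300)) ^ p * m ^ p) * (∫⁻ x in I, Ue x)) := by
          rw [hmp, div_eq_mul_inv (∫⁻ x in I, Ue x) L]; ring
      _ = ENNReal.ofReal (300 ^ p) * m⁻¹ * L⁻¹ *
            ((ENNReal.ofReal (1 / 300) * m) ^ p * (∫⁻ x in I, Ue x)) := by
          rw [ENNReal.mul_rpow_of_nonneg _ _ hp0.le]
      _ ≤ ENNReal.ofReal (300 ^ p) * m⁻¹ * L⁻¹ * (C * (m * L)) := by gcongr
      _ = ENNReal.ofReal (300 ^ p) * C * (m⁻¹ * m) * (L⁻¹ * L) := by ring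
      _ = ENNReal.ofReal (300 ^ p) * C := by
          rw [ENNReal.inv_mul_cancel hm0 hmt, ENNReal.inv_mul_cancel hL0 hLt, mul_one, mul_one]
      _ = _ := by
          rw [ENNReal.coe_mul]
          rfl
  -- monotone convergence
  have hlim : Tendsto J atTop (𝓝 (∫⁻ x in I, Ue x ^ (-(1 / (p - 1))))) := by
    apply lintegral_tendsto_of_tendsto_of_monotone (fun n => (hφm n).restrict)
    · refine Eventually.of_forall fun x => ?_
      intro m n hmn
      simp only [hφ]
      gcongr
    · refine Eventually.of_forall fun x => ?_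
      simp only [hφ]
      have : Tendsto (fun n : ℕ => min (n : ℝ≥0∞) (Ue x ^ (-(1 / (p - 1))))) atTop
          (𝓝 (min ⊤ (Ue x ^ (-(1 / (p - 1)))))) :=
        ENNReal.tendsto_nat_nhds_top.min tendsto_const_nhds
      rwa [min_eq_right le_top] at this
  have hUt : (∫⁻ x in I, Ue x) / L ≠ ⊤ := (ENNReal.div_lt_top (hU.fin a b) hL0).ne
  have hlim2 : Tendsto (fun n => (∫⁻ x in I, Ue x) / L * (J n / L) ^ (p - 1)) atTop
      (𝓝 ((∫⁻ x in I, Ue x) / L * ((∫⁻ x in I, Ue x ^ (-(1 / (p - 1)))) / L) ^ (p - 1))) := by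
    apply ENNReal.Tendsto.const_mul _ (Or.inr hUt)
    apply ((ENNReal.continuous_rpow_const).tendsto _).comp
    apply ENNReal.Tendsto.div_const hlim (Or.inr hL0)
  exact le_of_tendsto' hlim2 hstep

end Pool.Agent.Y273.GL
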