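import Mathlib

set_option autoImplicit false
open MeasureTheory Set Filter Topology Complex
open scoped ENNReal NNReal

namespace Pool.Agent.Y273.GL

/-- functions with a Poisson extension -/
def Pois (g : ℝ → ℝ) : Prop := Integrable (fun t => g t / (1 + t ^ 2))

/-- (unnormalised) Poisson extension -/
noncomputable def PU (g : ℝ → ℝ) (z y : ℝ) : ℝ := ∫ t, g t * (y / ((t - z) ^ 2 + y ^ 2))

/-- a harmonic function with its derivatives -/
structure Harm (u a b c : ℝ → ℝ → ℝ) : Prop where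
  dz : ∀ z y, 0 < y → HasDerivAt (fun z => u z y) (a z y) z
  dy : ∀ z y, 0 < y → HasDerivAt (fun y => u z y) (b z y) y
  dzz : ∀ z y, 0 < y → HasDerivAt (fun z => a z y) (c z y) z
  dyy : ∀ z y, 0 < y → HasDerivAt (fun y => b z y) (-c z y) y
  cu : ContinuousOn (fun p : ℝ × ℝ => u p.1 p.2) {p | 0 < p.2}
  ca : ContinuousOn (fun p : ℝ × ℝ => a p.1 p.2) {p | 0 < p.2}
  cb : ContinuousOn (fun p : ℝ × ℝ => b p.1 p.2) {p | 0 < p.2}
  cc : ContinuousOn (fun p : ℝ × ℝ => c p.1 p.2) {p | 0 < p.2}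

/-- the kernel -/
noncomputable def NK (t : ℝ) (ζ : ℂ) : ℂ := (1 + t * ζ) / (t - ζ)

lemma sub_ne {t : ℝ} {ζ : ℂ} (hζ : 0 < ζ.im) : (t:ℂ) - ζ ≠ 0 := by
  intro h
  have := congrArg Complex.im h
  simp at this
  linarith

lemma im_le_norm_sub (t : ℝ) (ζ : ℂ) : ζ.im ≤ ‖(t:ℂ) - ζ‖ := by
  have h := Complex.abs_im_le_norm ((t:ℂ) - ζ)
  simp at h
  exact (le_abs_self _).trans h

lemma NK_deriv (t : ℝ) {ζ : ℂ} (hζ : 0 < ζ.im) :
    HasDerivAt (NK t) ((1 + t ^ 2) / (t - ζ) ^ 2) ζ := by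
  have h0 := sub_ne (t := t) hζ
  have h1 : HasDerivAt (fun ζ : ℂ => 1 + (t:ℂ) * ζ) (t:ℂ) ζ := by
    simpa using ((hasDerivAt_id ζ).const_mul (t:ℂ)).const_add 1
  have h2 : HasDerivAt (fun ζ : ℂ => (t:ℂ) - ζ) (-1) ζ := by
    simpa using (hasDerivAt_id ζ).const_sub (t:ℂ)
  have h3 := h1.div h2 h0
  refine h3.congr_deriv ?_
  congr 1
  ring

lemma NK_bound (t : ℝ) {ζ : ℂ} (hζ : 0 < ζ.im) :
    ‖NK t ζ‖ ≤ (1 + ‖ζ‖ ^ 2) / ζ.im + ‖ζ‖ := by
  have h1 := im_le_norm_sub t ζ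
  have h0 : 0 < ‖(t:ℂ) - ζ‖ := hζ.trans_le h1
  unfold NK
  rw [norm_div, div_le_iff₀ h0]
  have h2 : ‖1 + (t:ℂ) * ζ‖ ≤ 1 + ‖ζ‖ ^ 2 + ‖ζ‖ * ‖(t:ℂ) - ζ‖ := by
    have e : (1:ℂ) + t * ζ = 1 + ζ * ζ + ζ * (t - ζ) := by ring
    rw [e]
    refine (norm_add_le _ _).trans ?_
    refine (add_le_add (norm_add_le _ _) le_rfl).trans ?_
    rw [norm_mul, norm_mul, norm_one, sq]
  refine h2.trans ?_
  rw [add_mul]
  gcongr
  rw [div_mul_eq_mul_div, le_div_iff₀ hζ]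
  gcongr

lemma NK'_bound (t : ℝ) {ζ : ℂ} {y R : ℝ} (hy : 0 < y) (hζ : y ≤ ζ.im) (hR : ‖ζ‖ ≤ R) :
    ‖(1 + (t:ℂ) ^ 2) / (t - ζ) ^ 2‖ ≤ 2 + (1 + 2 * R ^ 2) / y ^ 2 := by
  have h1 := im_le_norm_sub t ζ
  have h0 : 0 < ‖(t:ℂ) - ζ‖ := hy.trans_le (hζ.trans h1)
  rw [norm_div, norm_pow, div_le_iff₀ (by positivity)]
  have h2 : ‖1 + (t:ℂ) ^ 2‖ ≤ 1 + 2 * R ^ 2 + 2 * ‖(t:ℂ) - ζ‖ ^ 2 := by
    have h3 : ‖(t:ℂ)‖ ≤ ‖(t:ℂ) - ζ‖ + R := by
      calc ‖(t:ℂ)‖ = ‖((t:ℂ) - ζ) + ζ‖ := by congr 1; ring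
        _ ≤ _ := (norm_add_le _ _).trans (by gcongr)
    refine (norm_add_le _ _).trans ?_
    rw [norm_one, norm_pow]
    have h4 : ‖(t:ℂ)‖ ^ 2 ≤ (‖(t:ℂ) - ζ‖ + R) ^ 2 := by gcongr
    nlinarith [sq_nonneg (‖(t:ℂ) - ζ‖ - R)]
  refine h2.trans ?_
  rw [add_mul, add_comm]
  gcongr
  rw [div_mul_eq_mul_div, le_div_iff₀ (by positivity)]
  have : 0 ≤ 1 + 2 * R ^ 2 := by positivity
  gcongr
  exact hζ.trans h1

lemma NK_cont {ζ : ℂ} (hζ : 0 < ζ.im) : Continuous fun t : ℝ => NK t ζ := by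
  unfold NK
  apply Continuous.div (by fun_prop) (by fun_prop)
  intro t
  exact sub_ne hζ

/-- the holomorphic function whose imaginary part is the Poisson extension -/
noncomputable def FF (g : ℝ → ℝ) (ζ : ℂ) : ℂ := ∫ t, ((g t / (1 + t ^ 2) : ℝ) : ℂ) * NK t ζ

lemma int_NK {g : ℝ → ℝ} (hg : Pois g) {ζ : ℂ} (hζ : 0 < ζ.im) :
    Integrable fun t => ((g t / (1 + t ^ 2) : ℝ) : ℂ) * NK t ζ := by
  have h1 : Integrable fun t => ((g t / (1 + t ^ 2) : ℝ) : ℂ) := hg.ofReal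
  refine h1.mul_bdd (c := (1 + ‖ζ‖ ^ 2) / ζ.im + ‖ζ‖) (NK_cont hζ).aestronglyMeasurable ?_
  exact Eventually.of_forall fun t => NK_bound t hζ

lemma hasDerivAt_FF {g : ℝ → ℝ} (hg : Pois g) {ζ : ℂ} (hζ : 0 < ζ.im) :
    ∃ F' : ℂ, HasDerivAt (FF g) F' ζ := by
  have hc : Integrable fun t => ((g t / (1 + t ^ 2) : ℝ) : ℂ) := hg.ofReal
  set y := ζ.im / 2 with hy
  have hy0 : 0 < y := by positivity
  set R := ‖ζ‖ + y with hR
  have hball : ∀ x ∈ Metric.ball ζ y, y ≤ x.im ∧ ‖x‖ ≤ R := by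
    intro x hx
    rw [Metric.mem_ball, dist_eq_norm] at hx
    constructor
    · have h1 := Complex.abs_im_le_norm (x - ζ)
      have h2 := (neg_abs_le (x - ζ).im)
      simp only [Complex.sub_im] at h1 h2
      linarith
    · calc ‖x‖ = ‖ζ + (x - ζ)‖ := by congr 1; ring
        _ ≤ ‖ζ‖ + ‖x - ζ‖ := norm_add_le _ _
        _ ≤ R := by rw [hR]; linarith
  refine ⟨_, (hasDerivAt_integral_of_dominated_loc_of_deriv_le (μ := volume)
    (F := fun (x : ℂ) (t : ℝ) => ((g t / (1 + t ^ 2) : ℝ) : ℂ) * NK t x)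
    (F' := fun (x : ℂ) (t : ℝ) => ((g t / (1 + t ^ 2) : ℝ) : ℂ) * ((1 + (t:ℂ) ^ 2) / (t - x) ^ 2))
    (x₀ := ζ) (s := Metric.ball ζ y)
    (bound := fun t => ‖((g t / (1 + t ^ 2) : ℝ) : ℂ)‖ * (2 + (1 + 2 * R ^ 2) / y ^ 2))
    (Metric.ball_mem_nhds ζ hy0) ?_ (int_NK hg hζ) ?_ ?_ ?_ ?_).2⟩
  · have : ∀ᶠ x in 𝓝 ζ, x ∈ Metric.ball ζ y := Metric.ball_mem_nhds ζ hy0
    filter_upwards [this] with x hx
    exact (int_NK hg (hy0.trans_le (hball x hx).1)).aestronglyMeasurable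
  · apply hc.aestronglyMeasurable.mul
    apply Continuous.aestronglyMeasurable
    apply Continuous.div (by fun_prop) (by fun_prop)
    intro t
    exact pow_ne_zero 2 (sub_ne hζ)
  · refine Eventually.of_forall fun t x hx => ?_
    rw [norm_mul]
    gcongr
    exact NK'_bound t hy0 (hball x hx).1 (hball x hx).2
  · exact hc.norm.mul_const _
  · refine Eventually.of_forall fun t x hx => ?_
    exact (NK_deriv t (hy0.trans_le (hball x hx).1)).const_mul _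

lemma isOpen_uhp : IsOpen {ζ : ℂ | 0 < ζ.im} := isOpen_lt continuous_const Complex.continuous_im

lemma diff_FF {g : ℝ → ℝ} (hg : Pois g) : DifferentiableOn ℂ (FF g) {ζ : ℂ | 0 < ζ.im} := by
  intro ζ hζ
  obtain ⟨F', h⟩ := hasDerivAt_FF hg (ζ := ζ) hζ
  exact h.differentiableAt.differentiableWithinAt

lemma im_NK (t z y : ℝ) (hy : 0 < y) : (NK t (z + y * I)).im =
    (1 + t ^ 2) * (y / ((t - z) ^ 2 + y ^ 2)) := by
  unfold NK
  have h1 : (t:ℂ) - (z + y * I) ≠ 0 := sub_ne (by simpa using hy)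
  have h2 : Complex.normSq ((t:ℂ) - (z + y * I)) = (t - z) ^ 2 + y ^ 2 := by
    rw [Complex.normSq_apply]; simp; ring
  rw [Complex.div_im, h2]
  simp
  ring

lemma im_FF {g : ℝ → ℝ} (hg : Pois g) (z y : ℝ) (hy : 0 < y) :
    (FF g (z + y * I)).im = PU g z y := by
  have hζ : 0 < ((z:ℂ) + y * I).im := by simpa using hy
  have h := Complex.imCLM.integral_comp_comm (int_NK hg hζ)
  unfold FF PU
  simp only [Complex.imCLM_apply] at h
  rw [← h]
  apply integral_congr_ae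
  refine Eventually.of_forall fun t => ?_
  simp only
  rw [Complex.im_ofReal_mul, im_NK t z y hy]
  have : (1 + t ^ 2) ≠ 0 := by positivity
  field_simp

lemma line_z {F : ℂ → ℂ} {F' : ℂ} (z y : ℝ) (h : HasDerivAt F F' (z + y * I)) :
    HasDerivAt (fun z : ℝ => F (z + y * I)) F' z := by
  have h1 : HasDerivAt (fun ζ : ℂ => F (ζ + y * I)) F' (z:ℂ) := by
    have := HasDerivAt.comp_add_const (z:ℂ) (y * I) h
    exact this
  exact h1.comp_ofReal

lemma line_y {F : ℂ → ℂ} {F' : ℂ} (z y : ℝ) (h : HasDerivAt F F' (z + y * I)) :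
    HasDerivAt (fun y : ℝ => F (z + y * I)) (F' * I) y := by
  have h2 : HasDerivAt (fun ζ : ℂ => (z:ℂ) + ζ * I) I (y:ℂ) := by
    simpa using ((hasDerivAt_id (y:ℂ)).mul_const I).const_add (z:ℂ)
  have h1 : HasDerivAt (fun ζ : ℂ => F (z + ζ * I)) (F' * I) (y:ℂ) :=
    HasDerivAt.comp (y:ℂ) (h₂ := F) h h2
  exact h1.comp_ofReal

lemma hasDerivAt_im {f : ℝ → ℂ} {f' : ℂ} {x : ℝ} (h : HasDerivAt f f' x) :
    HasDerivAt (fun x => (f x).im) f'.im x := by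
  exact Complex.imCLM.hasFDerivAt.comp_hasDerivAt x h

lemma hasDerivAt_re {f : ℝ → ℂ} {f' : ℂ} {x : ℝ} (h : HasDerivAt f f' x) :
    HasDerivAt (fun x => (f x).re) f'.re x := by
  exact Complex.reCLM.hasFDerivAt.comp_hasDerivAt x h

/-- Poisson extensions are harmonic -/
theorem exists_harm {g : ℝ → ℝ} (hg : Pois g) : ∃ a b c, Harm (PU g) a b c := by
  have hd := diff_FF hg
  have hd1 : DifferentiableOn ℂ (deriv (FF g)) {ζ : ℂ | 0 < ζ.im} := hd.deriv isOpen_uhp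
  have hd2 : DifferentiableOn ℂ (deriv (deriv (FF g))) {ζ : ℂ | 0 < ζ.im} := hd1.deriv isOpen_uhp
  have hF : ∀ z y : ℝ, 0 < y → HasDerivAt (FF g) (deriv (FF g) (z + y * I)) (z + y * I) := by
    intro z y hy
    have hm : ((z:ℂ) + y * I) ∈ {ζ : ℂ | 0 < ζ.im} := by simpa using hy
    exact (hd.differentiableAt (isOpen_uhp.mem_nhds hm)).hasDerivAt
  have hF1 : ∀ z y : ℝ, 0 < y → HasDerivAt (deriv (FF g)) (deriv (deriv (FF g)) (z + y * I))
      (z + y * I) := by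
    intro z y hy
    have hm : ((z:ℂ) + y * I) ∈ {ζ : ℂ | 0 < ζ.im} := by simpa using hy
    exact (hd1.differentiableAt (isOpen_uhp.mem_nhds hm)).hasDerivAt
  have hcont : ∀ G : ℂ → ℂ, DifferentiableOn ℂ G {ζ : ℂ | 0 < ζ.im} →
      ContinuousOn (fun p : ℝ × ℝ => G (p.1 + p.2 * I)) {p | 0 < p.2} := by
    intro G hG
    refine hG.continuousOn.comp (by fun_prop) ?_
    intro p hp
    simpa using hp
  refine ⟨fun z y => (deriv (FF g) (z + y * I)).im, fun z y => (deriv (FF g) (z + y * I)).re,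
    fun z y => (deriv (deriv (FF g)) (z + y * I)).im, ?_, ?_, ?_, ?_, ?_, ?_, ?_, ?_⟩
  · intro z y hy
    have h := hasDerivAt_im (line_z z y (hF z y hy))
    refine h.congr_of_eventuallyEq (Eventually.of_forall fun z' => ?_)
    exact (im_FF hg z' y hy).symm
  · intro z y hy
    have h := hasDerivAt_im (line_y z y (hF z y hy))
    have e : (deriv (FF g) (z + y * I) * I).im = (deriv (FF g) (z + y * I)).re := by simp
    rw [e] at h
    refine h.congr_of_eventuallyEq ?_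
    have : ∀ᶠ y' in 𝓝 y, 0 < y' := lt_mem_nhds hy
    filter_upwards [this] with y' hy'
    exact (im_FF hg z y' hy').symm
  · intro z y hy
    exact hasDerivAt_im (line_z z y (hF1 z y hy))
  · intro z y hy
    have h := hasDerivAt_re (line_y z y (hF1 z y hy))
    have e : (deriv (deriv (FF g)) (z + y * I) * I).re =
        -(deriv (deriv (FF g)) (z + y * I)).im := by simp
    rw [e] at h
    exact h
  · refine ContinuousOn.congr (Complex.continuous_im.comp_continuousOn (hcont _ hd)) ?_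
    intro p hp
    exact (im_FF hg p.1 p.2 hp).symm
  · exact Complex.continuous_im.comp_continuousOn (hcont _ hd1)
  · exact Complex.continuous_re.comp_continuousOn (hcont _ hd1)
  · exact Complex.continuous_im.comp_continuousOn (hcont _ hd2)

lemma ker_bound {t z y : ℝ} (hy : 0 < y) :
    (1 + t ^ 2) * (y / ((t - z) ^ 2 + y ^ 2)) ≤ (1 + ‖((z:ℂ) + y * I)‖ ^ 2) / y + ‖((z:ℂ) + y * I)‖ := by
  rw [← im_NK t z y hy]
  have hζ : 0 < ((z:ℂ) + y * I).im := by simpa using hy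
  have h := NK_bound t hζ
  have h2 := (le_abs_self _).trans (Complex.abs_im_le_norm (NK t (z + y * I)))
  refine h2.trans (h.trans (le_of_eq ?_))
  simp

lemma Pois.int {g : ℝ → ℝ} (hg : Pois g) (z : ℝ) {y : ℝ} (hy : 0 < y) :
    Integrable fun t => g t * (y / ((t - z) ^ 2 + y ^ 2)) := by
  have h : Integrable fun t => (g t / (1 + t ^ 2)) * ((1 + t ^ 2) * (y / ((t - z) ^ 2 + y ^ 2))) := by
    refine Integrable.mul_bdd (c := (1 + ‖((z:ℂ) + y * I)‖ ^ 2) / y + ‖((z:ℂ) + y * I)‖) hg ?_ ?_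
    · apply Continuous.aestronglyMeasurable
      apply Continuous.mul (by fun_prop)
      apply Continuous.div (by fun_prop) (by fun_prop)
      intro t; positivity
    · refine Eventually.of_forall fun t => ?_
      rw [Real.norm_of_nonneg (by positivity)]
      exact ker_bound hy
  refine h.congr (Eventually.of_forall fun t => ?_)
  simp only
  have : (1 + t ^ 2) ≠ 0 := by positivity
  field_simp

end Pool.Agent.Y273.GL
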