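import Pool.Agent.Y273.GL.A2b

set_option autoImplicit false
open MeasureTheory Set Filter Topology
open scoped ENNReal NNReal

namespace Pool.Agent.Y273.GL

lemma MF_tsum {g : ℕ → ℝ → ℝ≥0∞} (hg : ∀ k, Measurable (g k)) (x : ℝ) :
    MF volume (fun t => ∑' k, g k t) x ≤ ∑' k, MF volume (g k) x := by
  refine MF_le fun a b hx => ?_
  rw [lintegral_tsum fun k => (hg k).aemeasurable, div_eq_mul_inv, ← ENNReal.tsum_mul_right]
  apply ENNReal.tsum_le_tsum
  intro k
  exact le_MF volume (g k) hx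

lemma MF_const_mul (c : ℝ≥0∞) (hc : c ≠ ⊤) (g : ℝ → ℝ≥0∞) (x : ℝ) :
    MF volume (fun t => c * g t) x ≤ c * MF volume g x := by
  refine MF_le fun a b hx => ?_
  rw [lintegral_const_mul' _ _ hc, mul_div_assoc]
  gcongr
  exact le_MF volume g hx

/-- Hölder for the geometric weights -/
lemma geom_holder {p : ℝ} (hp : 1 < p) (a : ℕ → ℝ≥0∞) :
    (∑' k, (2⁻¹ : ℝ≥0∞) ^ k * a k) ^ p ≤ 2 ^ (p - 1) * ∑' k, (2⁻¹ : ℝ≥0∞) ^ k * a k ^ p := by
  have hp0 : 0 < p := by linarith
  set q : ℝ := p / (p - 1) with hq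
  have hpq : p.HolderConjugate q := by
    rw [hq]
    exact Real.HolderConjugate.conjExponent hp
  have hq0 : 0 < q := hpq.symm.pos
  have h := ENNReal.lintegral_mul_le_Lp_mul_Lq (μ := Measure.count (α := ℕ)) hpq
    (f := fun k => ((2⁻¹ : ℝ≥0∞) ^ k) ^ (1 / p) * a k) (g := fun k => ((2⁻¹ : ℝ≥0∞) ^ k) ^ (1 / q))
    (measurable_from_top.aemeasurable) (measurable_from_top.aemeasurable)
  simp only [lintegral_count, Pi.mul_apply] at h
  have h2 : ∀ k : ℕ, ((2⁻¹ : ℝ≥0∞) ^ k) ≠ 0 := by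
    intro k; apply pow_ne_zero; simp
  have h3 : ∀ k : ℕ, ((2⁻¹ : ℝ≥0∞) ^ k) ≠ ⊤ := by
    intro k; exact ENNReal.pow_ne_top (by simp)
  have e1 : ∀ k : ℕ, ((2⁻¹ : ℝ≥0∞) ^ k) ^ (1 / p) * a k * ((2⁻¹ : ℝ≥0∞) ^ k) ^ (1 / q) =
      (2⁻¹ : ℝ≥0∞) ^ k * a k := by
    intro k
    rw [mul_right_comm, ← ENNReal.rpow_add _ _ (h2 k) (h3 k)]
    congr 1
    have : 1 / p + 1 / q = 1 := by
      rw [one_div, one_div]; exact hpq.inv_add_inv_eq_one
    rw [this, ENNReal.rpow_one]
  have e2 : ∀ k : ℕ, (((2⁻¹ : ℝ≥0∞) ^ k) ^ (1 / p) * a k) ^ p = (2⁻¹ : ℝ≥0∞) ^ k * a k ^ p := by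
    intro k
    rw [ENNReal.mul_rpow_of_nonneg _ _ hp0.le, ← ENNReal.rpow_mul]
    congr 1
    rw [one_div_mul_cancel hp0.ne', ENNReal.rpow_one]
  have e3 : ∀ k : ℕ, (((2⁻¹ : ℝ≥0∞) ^ k) ^ (1 / q)) ^ q = (2⁻¹ : ℝ≥0∞) ^ k := by
    intro k
    rw [← ENNReal.rpow_mul, one_div_mul_cancel hq0.ne', ENNReal.rpow_one]
  simp only [e1, e2, e3] at h
  have e4 : ∑' k : ℕ, (2⁻¹ : ℝ≥0∞) ^ k = 2 := ENNReal.tsum_geometric_two
  rw [e4] at h
  calc (∑' k, (2⁻¹ : ℝ≥0∞) ^ k * a k) ^ p
      ≤ ((∑' k, (2⁻¹ : ℝ≥0∞) ^ k * a k ^ p) ^ (1 / p) * 2 ^ (1 / q)) ^ p := by gcongr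
    _ = _ := by
        rw [ENNReal.mul_rpow_of_nonneg _ _ hp0.le, ← ENNReal.rpow_mul, ← ENNReal.rpow_mul,
          one_div_mul_cancel hp0.ne', ENNReal.rpow_one, mul_comm]
        congr 2
        rw [hq]
        have : p - 1 ≠ 0 := by linarith
        field_simp

/-- Rubio de Francia's algorithm -/
theorem rdf {p : ℝ} (hp : 1 < p) {U : ℝ → ℝ≥0∞} (hU : Wt U) {A : ℝ≥0∞} (hA1 : 1 ≤ A) (hAt : A ≠ ⊤)
    (hM : ∀ g : ℝ → ℝ≥0∞, Measurable g → ∫⁻ x, MF volume g x ^ p * U x ≤ A ^ p * ∫⁻ x, g x ^ p * U x)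
    {F : ℝ → ℝ≥0∞} (hF : Measurable F) (hFfin : ∫⁻ x, F x ^ p * U x ≠ ⊤)
    (hF0 : ¬ (F =ᵐ[volume] 0)) :
    ∃ h : ℝ → ℝ≥0∞, Wt h ∧ (∀ᵐ x, F x ≤ h x) ∧ (∀ᵐ x, MF volume h x ≤ 2 * A * h x) ∧
      ∫⁻ x, h x ^ p * U x ≤ 2 ^ p * ∫⁻ x, F x ^ p * U x := by
  have hp0 : 0 < p := by linarith
  have hA0 : A ≠ 0 := fun h => by rw [h] at hA1; exact absurd hA1 (by norm_num)
  set M : ℕ → ℝ → ℝ≥0∞ := fun k => (MF volume)^[k] F with hMdef
  have hM0 : M 0 = F := rfl
  have hMs : ∀ k, M (k + 1) = MF volume (M k) := fun k => Function.iterate_succ_apply' _ _ _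
  have hMm : ∀ k, Measurable (M k) := by
    intro k
    cases k with
    | zero => exact hF
    | succ k => rw [hMs]; exact measurable_MF _ _
  have hMn : ∀ k, ∫⁻ x, M k x ^ p * U x ≤ (A ^ p) ^ k * ∫⁻ x, F x ^ p * U x := by
    intro k
    induction k with
    | zero => simp [hM0]
    | succ k ih =>
      rw [hMs]
      refine (hM _ (hMm k)).trans ?_
      calc A ^ p * ∫⁻ x, M k x ^ p * U x ≤ A ^ p * ((A ^ p) ^ k * ∫⁻ x, F x ^ p * U x) := by gcongr
        _ = _ := by rw [pow_succ]; ring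
  set c : ℕ → ℝ≥0∞ := fun k => (2⁻¹ : ℝ≥0∞) ^ k * (A⁻¹) ^ k with hc
  have hcs : ∀ k, c k = 2 * A * c (k + 1) := by
    intro k
    simp only [hc, pow_succ]
    calc (2⁻¹ : ℝ≥0∞) ^ k * A⁻¹ ^ k = (2⁻¹ : ℝ≥0∞) ^ k * A⁻¹ ^ k * (2 * 2⁻¹) * (A * A⁻¹) := by
          rw [ENNReal.mul_inv_cancel two_ne_zero (by norm_num), ENNReal.mul_inv_cancel hA0 hAt]
          simp
      _ = _ := by ring
  have hct : ∀ k, c k ≠ ⊤ := by
    intro k
    exact ENNReal.mul_ne_top (ENNReal.pow_ne_top (by simp)) (ENNReal.pow_ne_top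
      (ENNReal.inv_ne_top.2 hA0))
  have hc0 : ∀ k, c k ≠ 0 := by
    intro k
    exact mul_ne_zero (pow_ne_zero _ (by simp)) (pow_ne_zero _ (ENNReal.inv_ne_zero.2 hAt))
  set H : ℝ → ℝ≥0∞ := fun x => ∑' k, c k * M k x with hH
  have hHm : Measurable H := Measurable.tsum fun k => (hMm k).const_mul _
  have hFH : ∀ x, F x ≤ H x := by
    intro x
    refine le_trans (le_of_eq ?_) (ENNReal.le_tsum 0)
    simp [hc, hM0]
  have hMH : ∀ x, MF volume H x ≤ 2 * A * H x := by
    intro x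
    calc MF volume H x ≤ ∑' k, MF volume (fun t => c k * M k t) x :=
          MF_tsum (fun k => (hMm k).const_mul _) x
      _ ≤ ∑' k, c k * MF volume (M k) x := ENNReal.tsum_le_tsum fun k => MF_const_mul _ (hct k) _ x
      _ = ∑' k, 2 * A * (c (k + 1) * M (k + 1) x) := by
          congr 1
          funext k
          rw [hcs k, hMs]
          ring
      _ = 2 * A * ∑' k, c (k + 1) * M (k + 1) x := ENNReal.tsum_mul_left
      _ ≤ 2 * A * H x := by
          gcongr
          exact ENNReal.tsum_comp_le_tsum_of_injective (add_left_injective 1) (fun k => c k * M k x)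
  have hHn : ∫⁻ x, H x ^ p * U x ≤ 2 ^ p * ∫⁻ x, F x ^ p * U x := by
    calc ∫⁻ x, H x ^ p * U x
        ≤ ∫⁻ x, 2 ^ (p - 1) * ∑' k, (2⁻¹ : ℝ≥0∞) ^ k * ((A⁻¹ ^ k * M k x) ^ p * U x) := by
          apply lintegral_mono
          intro x
          simp only
          have h1 := geom_holder hp fun k => A⁻¹ ^ k * M k x
          have e1 : H x = ∑' k, (2⁻¹ : ℝ≥0∞) ^ k * (A⁻¹ ^ k * M k x) := by
            simp only [hH, hc, mul_assoc]
          rw [e1]
          refine (mul_le_mul' h1 le_rfl).trans (le_of_eq ?_)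
          rw [mul_assoc, ← ENNReal.tsum_mul_right]
          congr 2
          funext k
          ring
      _ = 2 ^ (p - 1) * ∑' k, (2⁻¹ : ℝ≥0∞) ^ k * ∫⁻ x, (A⁻¹ ^ k * M k x) ^ p * U x := by
          have hmk : ∀ k, Measurable fun x => (A⁻¹ ^ k * M k x) ^ p * U x := fun k =>
            (((hMm k).const_mul _).pow_const _).mul hU.meas
          rw [lintegral_const_mul _ (Measurable.tsum fun k => (hmk k).const_mul _),
            lintegral_tsum fun k => ((hmk k).const_mul _).aemeasurable]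
          congr 2
          funext k
          rw [lintegral_const_mul _ (hmk k)]
      _ ≤ 2 ^ (p - 1) * ∑' k, (2⁻¹ : ℝ≥0∞) ^ k * ∫⁻ x, F x ^ p * U x := by
          refine mul_le_mul' le_rfl (ENNReal.tsum_le_tsum fun k => mul_le_mul' le_rfl ?_)
          have hAp0 : A ^ p ≠ 0 := by
            intro h
            rcases ENNReal.rpow_eq_zero_iff.1 h with h | h
            · exact hA0 h.1
            · exact hAt h.1
          have hApt : A ^ p ≠ ⊤ := ENNReal.rpow_ne_top_of_nonneg hp0.le hAt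
          calc ∫⁻ x, (A⁻¹ ^ k * M k x) ^ p * U x
              = ∫⁻ x, ((A ^ p) ^ k)⁻¹ * (M k x ^ p * U x) := by
                apply lintegral_congr
                intro x
                rw [ENNReal.mul_rpow_of_nonneg _ _ hp0.le, mul_assoc]
                congr 1
                rw [ENNReal.inv_pow, ← ENNReal.inv_rpow, ← ENNReal.rpow_natCast (A⁻¹ ^ p) k,
                  ← ENNReal.rpow_mul, ← ENNReal.rpow_natCast A⁻¹ k, ← ENNReal.rpow_mul,
                  mul_comm p]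
            _ = ((A ^ p) ^ k)⁻¹ * ∫⁻ x, M k x ^ p * U x :=
                lintegral_const_mul _ (((hMm k).pow_const _).mul hU.meas)
            _ ≤ ((A ^ p) ^ k)⁻¹ * ((A ^ p) ^ k * ∫⁻ x, F x ^ p * U x) := by
                gcongr
                exact hMn k
            _ = ∫⁻ x, F x ^ p * U x := by
                rw [← mul_assoc, ENNReal.inv_mul_cancel (pow_ne_zero _ hAp0)
                  (ENNReal.pow_ne_top hApt), one_mul]
      _ = 2 ^ p * ∫⁻ x, F x ^ p * U x := by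
          rw [ENNReal.tsum_mul_right, ENNReal.tsum_geometric_two, ← mul_assoc]
          congr 1
          nth_rewrite 2 [← ENNReal.rpow_one 2]
          rw [← ENNReal.rpow_add _ _ two_ne_zero (by norm_num)]
          congr 1
          ring
  have hHfin : ∀ᵐ x, H x ≠ ⊤ := by
    have h1 : ∫⁻ x, H x ^ p * U x ≠ ⊤ := by
      refine (lt_of_le_of_lt hHn ?_).ne
      exact (ENNReal.mul_ne_top (ENNReal.rpow_ne_top_of_nonneg hp0.le (by norm_num)) hFfin).lt_top
    have h2 := ae_lt_top ((hHm.pow_const p).mul hU.meas) h1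
    filter_upwards [h2] with x hx hxt
    rw [Pi.mul_apply, hxt, ENNReal.top_rpow_of_pos hp0, ENNReal.top_mul (hU.pos x)] at hx
    exact absurd hx (lt_irrefl _)
  have hHpos : ∀ x, H x ≠ 0 := by
    intro x hx0
    have h1 : c 1 * M 1 x = 0 := by
      have := ENNReal.tsum_eq_zero.1 hx0 1
      exact this
    have h2 : MF volume F x = 0 := by
      rcases mul_eq_zero.1 h1 with h | h
      · exact absurd h (hc0 1)
      · rw [hMs 0, hM0] at h; exact h
    apply hF0
    -- all integrals vanish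
    have h3 : ∀ n : ℕ, ∫⁻ t in Ioo (x - (n + 1)) (x + (n + 1)), F t = 0 := by
      intro n
      have hn : (0:ℝ) < n + 1 := by positivity
      have hx : x ∈ Ioo (x - ((n:ℝ) + 1)) (x + (n + 1)) := ⟨by linarith, by linarith⟩
      have h4 := le_MF volume F hx
      rw [h2] at h4
      have h5 := le_antisymm h4 bot_le
      rcases ENNReal.div_eq_zero_iff.1 h5 with h | h
      · exact h
      · exact absurd h vol_ne_top
    have h6 : ∫⁻ t, F t = 0 := by
      have hU : (⋃ n : ℕ, Ioo (x - ((n:ℝ) + 1)) (x + (n + 1))) = univ := by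
        apply eq_univ_of_forall
        intro t
        obtain ⟨n, hn⟩ := exists_nat_gt |t - x|
        rw [mem_iUnion]
        refine ⟨n, ?_, ?_⟩
        · have := neg_abs_le (t - x); linarith
        · have := le_abs_self (t - x); linarith
      rw [← setLIntegral_univ, ← hU]
      refine le_antisymm ((lintegral_iUnion_le _ _).trans ?_) bot_le
      simp only [h3, tsum_zero]
      exact le_rfl
    exact (lintegral_eq_zero_iff hF).1 h6
  classical
  set h : ℝ → ℝ≥0∞ := fun x => if H x = ⊤ then 1 else H x with hh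
  have hhH : ∀ᵐ x, h x = H x := by
    filter_upwards [hHfin] with x hx
    simp only [hh, if_neg hx]
  have hhm : Measurable h := Measurable.ite (measurableSet_eq_fun hHm measurable_const)
    measurable_const hHm
  have hMF : ∀ x, MF volume h x = MF volume H x := by
    intro x
    apply le_antisymm
    · exact MF_mono (hhH.mono fun x hx => hx.le) x
    · exact MF_mono (hhH.mono fun x hx => hx.ge) x
  refine ⟨h, ⟨hhm, ?_, ?_⟩, ?_, ?_, ?_⟩
  · intro x
    simp only [hh]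
    split_ifs
    · exact one_ne_zero
    · exact hHpos x
  · intro x
    simp only [hh]
    split_ifs with h1
    · exact ENNReal.one_ne_top
    · exact h1
  · filter_upwards [hhH] with x hx
    rw [hx]; exact hFH x
  · filter_upwards [hhH] with x hx
    rw [hx, hMF]; exact hMH x
  · refine le_trans (le_of_eq ?_) hHn
    apply lintegral_congr_ae
    filter_upwards [hhH] with x hx
    rw [hx]

end Pool.Agent.Y273.GL
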