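import Pool.Agent.Y273.GL.Max

set_option autoImplicit false
open MeasureTheory Set Filter Topology
open scoped ENNReal NNReal

namespace Pool.Agent.Y273.GL

lemma layer_fin {r : ℝ} (hr : 0 < r) {F : ℝ} (hF : 0 ≤ F) :
    ∫⁻ t in Ioo (0:ℝ) F, ENNReal.ofReal (r * t ^ (r - 1)) = ENNReal.ofReal F ^ r := by
  have h1 : ∫ t in (0:ℝ)..F, r * t ^ (r - 1) = F ^ r := by
    rw [intervalIntegral.integral_const_mul, integral_rpow (Or.inl (by linarith))]
    rw [Real.zero_rpow (by linarith)]
    have : r - 1 + 1 = r := by ring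
    rw [this]
    field_simp
    ring
  have hint : IntervalIntegrable (fun t : ℝ => r * t ^ (r - 1)) volume 0 F :=
    (intervalIntegral.intervalIntegrable_rpow' (by linarith)).const_mul r
  rw [intervalIntegral.integral_of_le hF, integral_Ioc_eq_integral_Ioo] at h1
  have hint2 : IntegrableOn (fun t : ℝ => r * t ^ (r - 1)) (Ioo 0 F) :=
    ((intervalIntegrable_iff_integrableOn_Ioo_of_le hF).1 hint)
  rw [← ofReal_integral_eq_lintegral_ofReal hint2, h1, ENNReal.ofReal_rpow_of_nonneg hF hr.le]
  rw [EventuallyLE, ae_restrict_iff' measurableSet_Ioo]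
  refine Eventually.of_forall fun t ht => ?_
  have := Real.rpow_nonneg ht.1.le (r - 1)
  exact mul_nonneg hr.le this

/-- `F ^ r = ∫_0^∞ r t^{r-1} 1_{t < F} dt` -/
lemma layer {r : ℝ} (hr : 0 < r) (F : ℝ≥0∞) :
    F ^ r = ∫⁻ t in Ioi (0:ℝ), ENNReal.ofReal (r * t ^ (r - 1)) *
      (if ENNReal.ofReal t < F then 1 else 0) := by
  have key : ∀ G : ℝ, 0 ≤ G → ∫⁻ t in Ioi (0:ℝ), ENNReal.ofReal (r * t ^ (r - 1)) *
      (if ENNReal.ofReal t < ENNReal.ofReal G then 1 else 0) = ENNReal.ofReal G ^ r := by
    intro G hG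
    rw [← layer_fin hr hG, ← lintegral_indicator measurableSet_Ioo,
      ← lintegral_indicator measurableSet_Ioi]
    congr 1
    funext t
    by_cases ht : 0 < t
    · rw [indicator_of_mem (mem_Ioi.2 ht)]
      by_cases htG : t < G
      · rw [indicator_of_mem (mem_Ioo.2 ⟨ht, htG⟩), if_pos, mul_one]
        exact (ENNReal.ofReal_lt_ofReal_iff (ht.trans htG)).2 htG
      · rw [indicator_of_notMem (fun h => htG h.2), if_neg, mul_zero]
        intro h
        apply htG
        exact (ENNReal.ofReal_lt_ofReal_iff_of_nonneg ht.le).1 h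
    · rw [indicator_of_notMem (show t ∉ Ioi (0:ℝ) from ht),
        indicator_of_notMem (show t ∉ Ioo (0:ℝ) G from fun h => ht h.1)]
  rcases eq_or_ne F ⊤ with rfl | hF
  · rw [ENNReal.top_rpow_of_pos hr]
    symm
    apply ENNReal.eq_top_of_forall_nnreal_le
    intro c
    set G : ℝ := (c : ℝ) ^ (1 / r) with hG
    have hG0 : 0 ≤ G := by positivity
    have h1 := key G hG0
    have h2 : ENNReal.ofReal G ^ r = c := by
      rw [ENNReal.ofReal_rpow_of_nonneg hG0 hr.le, hG, ← Real.rpow_mul c.coe_nonneg]
      rw [one_div, inv_mul_cancel₀ hr.ne', Real.rpow_one]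
      exact ENNReal.ofReal_coe_nnreal
    rw [← h2, ← h1]
    apply lintegral_mono
    intro t
    simp only
    gcongr
    split_ifs with h3 h4 h4
    · exact le_rfl
    · exact absurd ENNReal.ofReal_lt_top h4
    · exact bot_le
    · exact le_rfl
  · have h1 := key F.toReal ENNReal.toReal_nonneg
    rw [ENNReal.ofReal_toReal hF] at h1
    exact h1.symm

/-- layer cake for nonnegative extended functions -/
lemma lintegral_layer {α : Type*} [MeasurableSpace α] (μ : Measure α) [SFinite μ]
    {F : α → ℝ≥0∞} (hF : Measurable F) {r : ℝ} (hr : 0 < r) {g : α → ℝ≥0∞} (hg : Measurable g) :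
    ∫⁻ x, g x * F x ^ r ∂μ = ∫⁻ t in Ioi (0:ℝ), ENNReal.ofReal (r * t ^ (r - 1)) *
      ∫⁻ x in {x | ENNReal.ofReal t < F x}, g x ∂μ := by
  have hm : MeasurableSet {p : α × ℝ | ENNReal.ofReal p.2 < F p.1} :=
    measurableSet_lt (ENNReal.measurable_ofReal.comp measurable_snd) (hF.comp measurable_fst)
  calc ∫⁻ x, g x * F x ^ r ∂μ
      = ∫⁻ x, (∫⁻ t in Ioi (0:ℝ), ENNReal.ofReal (r * t ^ (r - 1)) *
          (g x * (if ENNReal.ofReal t < F x then 1 else 0))) ∂μ := by
        congr 1
        funext x
        rw [layer hr (F x), ← lintegral_const_mul]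
        · congr 1
          funext t
          ring
        · apply Measurable.mul
          · fun_prop
          · apply Measurable.ite _ measurable_const measurable_const
            exact measurableSet_lt ENNReal.measurable_ofReal measurable_const
    _ = ∫⁻ t in Ioi (0:ℝ), (∫⁻ x, ENNReal.ofReal (r * t ^ (r - 1)) *
          (g x * (if ENNReal.ofReal t < F x then 1 else 0)) ∂μ) := by
        apply lintegral_lintegral_swap
        apply Measurable.aemeasurable
        apply Measurable.mul
        · fun_prop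
        · apply Measurable.mul (hg.comp measurable_fst)
          exact Measurable.ite hm measurable_const measurable_const
    _ = _ := by
        congr 1
        funext t
        have hmt : MeasurableSet {x | ENNReal.ofReal t < F x} := measurableSet_lt measurable_const hF
        rw [lintegral_const_mul, ← lintegral_indicator hmt]
        · congr 2
          funext x
          by_cases h : ENNReal.ofReal t < F x
          · rw [if_pos h, indicator_of_mem (show x ∈ {x | ENNReal.ofReal t < F x} from h), mul_one]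
          · rw [if_neg h, indicator_of_notMem (show x ∉ {x | ENNReal.ofReal t < F x} from h),
              mul_zero]
        · apply hg.mul
          exact Measurable.ite hmt measurable_const measurable_const

/-- truncation form of the weak type inequality -/
lemma weak_trunc (μ : Measure ℝ) {f : ℝ → ℝ≥0∞} (hf : Measurable f) {t : ℝ} :
    ENNReal.ofReal t * μ {x | ENNReal.ofReal t < MF μ f x} ≤
      4 * ∫⁻ x in {x | ENNReal.ofReal t < 2 * f x}, f x ∂μ := by
  set s : ℝ≥0∞ := ENNReal.ofReal (t / 2) with hs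
  have hs2 : 2 * s = ENNReal.ofReal t := by
    rw [hs, ← ENNReal.ofReal_ofNat, ← ENNReal.ofReal_mul (by norm_num)]
    congr 1
    ring
  have hss : s + s = ENNReal.ofReal t := by rw [← two_mul, hs2]
  have hst : s ≠ ⊤ := ENNReal.ofReal_ne_top
  set A : Set ℝ := {x | ENNReal.ofReal t < 2 * f x} with hA
  have hAm : MeasurableSet A := measurableSet_lt measurable_const (hf.const_mul 2)
  have hsub : {x | ENNReal.ofReal t < MF μ f x} ⊆ {x | s < MF μ (A.indicator f) x} := by
    intro x hx
    have h1 : MF μ f x ≤ s + MF μ (A.indicator f) x := by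
      refine MF_le fun a b hab => ?_
      rcases eq_or_ne (μ (Ioo a b)) 0 with h0 | h0
      · have : ∫⁻ t in Ioo a b, f t ∂μ = 0 := by
          rw [Measure.restrict_eq_zero.2 h0, lintegral_zero_measure]
        rw [this]; simp
      rcases eq_or_ne (μ (Ioo a b)) ⊤ with h00 | h00
      · rw [h00, ENNReal.div_top]; exact bot_le
      have h2 : ∫⁻ t in Ioo a b, f t ∂μ ≤ s * μ (Ioo a b) +
          ∫⁻ t in Ioo a b, A.indicator f t ∂μ := by
        rw [← setLIntegral_const, ← lintegral_add_left measurable_const]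
        apply lintegral_mono
        intro y
        simp only
        by_cases hy : y ∈ A
        · rw [indicator_of_mem hy]; exact le_add_self
        · rw [indicator_of_notMem hy, add_zero]
          have h3 : 2 * f y ≤ ENNReal.ofReal t := not_lt.1 hy
          rw [← hs2] at h3
          exact (ENNReal.mul_le_mul_iff_right (by norm_num) (by norm_num)).1 h3
      calc (∫⁻ t in Ioo a b, f t ∂μ) / μ (Ioo a b)
          ≤ (s * μ (Ioo a b) + ∫⁻ t in Ioo a b, A.indicator f t ∂μ) / μ (Ioo a b) := by
            gcongr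
        _ = s + (∫⁻ t in Ioo a b, A.indicator f t ∂μ) / μ (Ioo a b) := by
            rw [ENNReal.add_div, ENNReal.mul_div_cancel_right h0 h00]
        _ ≤ s + MF μ (A.indicator f) x := by
            gcongr
            exact le_MF μ _ hab
    have hx' : ENNReal.ofReal t < MF μ f x := hx
    show s < MF μ (A.indicator f) x
    by_contra hcon
    push Not at hcon
    have : MF μ f x ≤ ENNReal.ofReal t := by
      rw [← hss]
      exact h1.trans (by gcongr)
    exact absurd hx' (not_lt.2 this)
  calc ENNReal.ofReal t * μ {x | ENNReal.ofReal t < MF μ f x}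
      ≤ (2 * s) * μ {x | s < MF μ (A.indicator f) x} := by
        rw [hs2]
        gcongr
    _ = 2 * (s * μ {x | s < MF μ (A.indicator f) x}) := by rw [mul_assoc]
    _ ≤ 2 * (2 * ∫⁻ x, A.indicator f x ∂μ) :=
        mul_le_mul' le_rfl (weak_type μ (hf.indicator hAm) s)
    _ = 4 * ∫⁻ x in A, f x ∂μ := by
        rw [lintegral_indicator hAm, ← mul_assoc]
        norm_num

/-- strong type of the maximal function with respect to an arbitrary (s-finite) measure -/
theorem strong_type {r : ℝ} (hr : 1 < r) : ∃ C : ℝ≥0, ∀ (μ : Measure ℝ) [SFinite μ]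
    (f : ℝ → ℝ≥0∞), Measurable f → ∫⁻ x, MF μ f x ^ r ∂μ ≤ C * ∫⁻ x, f x ^ r ∂μ := by
  have hr0 : 0 < r := by linarith
  have hr1 : 0 < r - 1 := by linarith
  refine ⟨(4 * (r / (r - 1)) * 2 ^ (r - 1)).toNNReal, ?_⟩
  intro μ _ f hf
  have hM := measurable_MF μ f
  calc ∫⁻ x, MF μ f x ^ r ∂μ = ∫⁻ x, 1 * MF μ f x ^ r ∂μ := by simp
    _ = ∫⁻ t in Ioi (0:ℝ), ENNReal.ofReal (r * t ^ (r - 1)) *
          ∫⁻ _ in {x | ENNReal.ofReal t < MF μ f x}, 1 ∂μ :=
        lintegral_layer μ hM hr0 measurable_const
    _ ≤ ∫⁻ t in Ioi (0:ℝ), ENNReal.ofReal (4 * (r / (r - 1))) *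
          (ENNReal.ofReal ((r - 1) * t ^ (r - 1 - 1)) *
          ∫⁻ x in {x | ENNReal.ofReal t < 2 * f x}, f x ∂μ) := by
        apply setLIntegral_mono' measurableSet_Ioi
        intro t ht
        have ht0 : (0:ℝ) < t := ht
        have h1 := weak_trunc μ hf (t := t)
        rw [setLIntegral_const, one_mul]
        have e1 : ENNReal.ofReal (r * t ^ (r - 1)) =
            ENNReal.ofReal (r * t ^ (r - 1 - 1)) * ENNReal.ofReal t := by
          rw [← ENNReal.ofReal_mul (by positivity)]
          congr 1
          rw [mul_assoc]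
          congr 1
          rw [← Real.rpow_add_one ht0.ne']
          congr 1
          ring
        have e2 : ENNReal.ofReal (4 * (r / (r - 1))) * (ENNReal.ofReal ((r - 1) * t ^ (r - 1 - 1)) *
            ∫⁻ x in {x | ENNReal.ofReal t < 2 * f x}, f x ∂μ) =
            ENNReal.ofReal (r * t ^ (r - 1 - 1)) *
              (4 * ∫⁻ x in {x | ENNReal.ofReal t < 2 * f x}, f x ∂μ) := by
          have e3 : ENNReal.ofReal (4 * (r / (r - 1))) * ENNReal.ofReal ((r - 1) * t ^ (r - 1 - 1)) =
              ENNReal.ofReal (r * t ^ (r - 1 - 1)) * 4 := by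
            rw [show (4:ℝ≥0∞) = ENNReal.ofReal 4 by simp, ← ENNReal.ofReal_mul (by positivity),
              ← ENNReal.ofReal_mul (by positivity)]
            congr 1
            field_simp
          rw [← mul_assoc, e3, mul_assoc]
        rw [e1, e2, mul_assoc]
        gcongr
    _ = ENNReal.ofReal (4 * (r / (r - 1))) * ∫⁻ x, f x * (2 * f x) ^ (r - 1) ∂μ := by
        rw [lintegral_layer μ (hf.const_mul 2) hr1 hf, lintegral_const_mul']
        exact ENNReal.ofReal_ne_top
    _ ≤ ENNReal.ofReal (4 * (r / (r - 1))) * ∫⁻ x, ENNReal.ofReal (2 ^ (r - 1)) * f x ^ r ∂μ := by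
        refine mul_le_mul' le_rfl (lintegral_mono fun x => ?_)
        simp only
        rw [ENNReal.mul_rpow_of_nonneg _ _ hr1.le, mul_left_comm]
        apply mul_le_mul'
        · rw [← ENNReal.ofReal_rpow_of_pos (by norm_num)]
          simp
        · rcases eq_or_ne (f x) 0 with h | h
          · rw [h, zero_mul]; exact bot_le
          rcases eq_or_ne (f x) ⊤ with h' | h'
          · rw [h', ENNReal.top_rpow_of_pos hr0]; exact le_top
          · nth_rewrite 1 [← ENNReal.rpow_one (f x)]
            rw [← ENNReal.rpow_add _ _ h h']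
            ring_nf
            exact le_rfl
    _ = _ := by
        rw [lintegral_const_mul _ (hf.pow_const r), ← mul_assoc,
          ← ENNReal.ofReal_mul (by positivity)]
        rfl

end Pool.Agent.Y273.GL
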