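import Pool.Agent.Y273.GL.Ap
import Pool.Agent.Y273.GL.Br

set_option autoImplicit false
open MeasureTheory Set Filter Topology
open scoped ENNReal NNReal

namespace Pool.Agent.Y273.GL

/-- square of the `g^*_λ` function with density `Ψ` -/
noncomputable def GF (Ψ : ℝ × ℝ → ℝ≥0∞) (lam x : ℝ) : ℝ≥0∞ :=
  ∫⁻ q : ℝ × ℝ, Ψ q * ENNReal.ofReal ((q.2 / (|x - q.1| + q.2)) ^ lam)

lemma tsum_rpow_le {q : ℝ} (hq0 : 0 < q) (hq1 : q ≤ 1) (a : ℕ → ℝ≥0∞) :
    (∑' k, a k) ^ q ≤ ∑' k, a k ^ q := by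
  have h1 : Tendsto (fun n => (∑ k ∈ Finset.range n, a k) ^ q) atTop (𝓝 ((∑' k, a k) ^ q)) :=
    ((ENNReal.continuous_rpow_const).tendsto _).comp (ENNReal.tendsto_nat_tsum a)
  have h2 : ∀ n, (∑ k ∈ Finset.range n, a k) ^ q ≤ ∑ k ∈ Finset.range n, a k ^ q := by
    intro n
    induction n with
    | zero => simp [ENNReal.zero_rpow_of_pos hq0]
    | succ n ih =>
      rw [Finset.sum_range_succ, Finset.sum_range_succ]
      refine (ENNReal.rpow_add_le_add_rpow _ _ hq0.le hq1).trans ?_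
      gcongr
  exact le_of_tendsto' h1 fun n => (h2 n).trans (ENNReal.sum_le_tsum _)

lemma kernel_cones {lam : ℝ} (h1 : 1 < lam) (h2 : lam ≤ 2) (x z : ℝ) {y : ℝ} (hy : 0 < y) :
    ENNReal.ofReal ((y / (|x - z| + y)) ^ lam) ≤
      ∑' k : ℕ, ENNReal.ofReal (4 * ((2:ℝ) ^ k) ^ (-lam)) *
        (if x ∈ Ioo (z - 2 ^ k * y) (z + 2 ^ k * y) then 1 else 0) := by
  classical
  have hd : 0 ≤ |x - z| := abs_nonneg _
  have hex : ∃ k : ℕ, |x - z| < 2 ^ k * y := by
    obtain ⟨k, hk⟩ := pow_unbounded_of_one_lt (|x - z| / y) (one_lt_two (α := ℝ))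
    exact ⟨k, (div_lt_iff₀ hy).1 hk⟩
  set k := Nat.find hex with hk
  have hk1 : |x - z| < 2 ^ k * y := Nat.find_spec hex
  have hmem : x ∈ Ioo (z - 2 ^ k * y) (z + 2 ^ k * y) := by
    rw [abs_lt] at hk1
    constructor <;> linarith [hk1.1, hk1.2]
  refine le_trans ?_ (ENNReal.le_tsum k)
  rw [if_pos hmem, mul_one]
  apply ENNReal.ofReal_le_ofReal
  have hle1 : y / (|x - z| + y) ≤ 1 := by rw [div_le_one (by positivity)]; linarith
  rcases Nat.eq_zero_or_pos k with h0 | hpos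
  · rw [h0, pow_zero, Real.one_rpow, mul_one]
    exact (Real.rpow_le_one (by positivity) hle1 (by linarith)).trans (by norm_num)
  · have hk2 : ¬ (|x - z| < 2 ^ (k - 1) * y) := Nat.find_min hex (Nat.sub_lt hpos one_pos)
    push Not at hk2
    have e : (2:ℝ) ^ k = 2 * 2 ^ (k - 1) := by
      rw [← pow_succ']; congr 1; omega
    have h5 : y / (|x - z| + y) ≤ 2 / 2 ^ k := by
      rw [div_le_div_iff₀ (by positivity) (by positivity), e]
      nlinarith
    calc (y / (|x - z| + y)) ^ lam ≤ (2 / 2 ^ k) ^ lam :=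
          Real.rpow_le_rpow (by positivity) h5 (by linarith)
      _ = 2 ^ lam * ((2:ℝ) ^ k) ^ (-lam) := by
          rw [Real.div_rpow (by norm_num) (by positivity), Real.rpow_neg (by positivity)]
          rfl
      _ ≤ 4 * ((2:ℝ) ^ k) ^ (-lam) := by
          gcongr
          calc (2:ℝ) ^ lam ≤ 2 ^ (2:ℝ) := Real.rpow_le_rpow_of_exponent_le (by norm_num) h2
            _ = 4 := by norm_num

lemma GF_le {Ψ : ℝ × ℝ → ℝ≥0∞} (hΨ : Measurable Ψ) (hΨ0 : ∀ q : ℝ × ℝ, ¬ 0 < q.2 → Ψ q = 0)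
    {lam : ℝ} (h1 : 1 < lam) (h2 : lam ≤ 2) (x : ℝ) :
    GF Ψ lam x ≤ ∑' k : ℕ, ENNReal.ofReal (4 * ((2:ℝ) ^ k) ^ (-lam)) * AF Ψ (2 ^ k) x := by
  have hm : ∀ k : ℕ, Measurable fun q : ℝ × ℝ =>
      Ψ q * (if x ∈ Ioo (q.1 - 2 ^ k * q.2) (q.1 + 2 ^ k * q.2) then 1 else 0) := by
    intro k
    exact (measurable_cone hΨ (2 ^ k)).comp (measurable_const.prodMk measurable_id)
  unfold GF AF
  calc ∫⁻ q : ℝ × ℝ, Ψ q * ENNReal.ofReal ((q.2 / (|x - q.1| + q.2)) ^ lam)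
      ≤ ∫⁻ q : ℝ × ℝ, ∑' k : ℕ, ENNReal.ofReal (4 * ((2:ℝ) ^ k) ^ (-lam)) *
          (Ψ q * (if x ∈ Ioo (q.1 - 2 ^ k * q.2) (q.1 + 2 ^ k * q.2) then 1 else 0)) := by
        apply lintegral_mono
        intro q
        simp only
        by_cases hq : 0 < q.2
        · calc Ψ q * ENNReal.ofReal ((q.2 / (|x - q.1| + q.2)) ^ lam)
              ≤ Ψ q * ∑' k : ℕ, ENNReal.ofReal (4 * ((2:ℝ) ^ k) ^ (-lam)) *
                (if x ∈ Ioo (q.1 - 2 ^ k * q.2) (q.1 + 2 ^ k * q.2) then 1 else 0) := by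
                gcongr
                exact kernel_cones h1 h2 x q.1 hq
            _ = _ := by
                rw [← ENNReal.tsum_mul_left]
                congr 1
                funext k
                ring
        · rw [hΨ0 q hq, zero_mul]
          exact bot_le
    _ = _ := by
        rw [lintegral_tsum fun k => ((hm k).const_mul _).aemeasurable]
        congr 1
        funext k
        rw [lintegral_const_mul' _ _ ENNReal.ofReal_ne_top]

/-- sufficiency at the level of densities -/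
theorem GF_bound {lam p : ℝ} (h1 : 1 < lam) (h2 : lam ≤ 2) (hp1 : 2 / lam < p) (hp2 : p < 2)
    {U : ℝ → ℝ≥0∞} (hU : Wt U) {K : ℝ≥0∞} (hK1 : 1 ≤ K) (hKt : K ≠ ⊤)
    (hfin : ∀ a b : ℝ, ∫⁻ x in Ioo a b, U x ≠ ⊤) (hB : RB (lam * p / 2) U K) :
    ∃ C : ℝ≥0, ∀ Ψ : ℝ × ℝ → ℝ≥0∞, Measurable Ψ → (∀ q : ℝ × ℝ, ¬ 0 < q.2 → Ψ q = 0) →
      ∫⁻ x, GF Ψ lam x ^ (p / 2) * U x ≤ C * ∫⁻ x, AF Ψ 1 x ^ (p / 2) * U x := by
  have hp0 : 0 < p := lt_trans (by positivity) hp1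
  set r : ℝ := lam * p / 2 with hr
  have hr1 : 1 ≤ r := by
    rw [div_lt_iff₀ (by linarith)] at hp1
    rw [hr]; linarith
  have hq0 : 0 < p / 2 := by positivity
  have hq1 : p / 2 < 1 := by linarith
  have hK0 : K ≠ 0 := fun h => by rw [h] at hK1; exact absurd hK1 (by norm_num)
  set rho : ℝ := 1 - 1 / (4 * K.toReal) with hrho
  have hKr : 1 ≤ K.toReal := by
    rw [← ENNReal.toReal_one]; exact (ENNReal.toReal_le_toReal ENNReal.one_ne_top hKt).2 hK1
  have h4 : 1 / (4 * K.toReal) ≤ 1 / 4 := by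
    apply one_div_le_one_div_of_le <;> linarith
  have h4p : 0 < 1 / (4 * K.toReal) := by positivity
  have hrho0 : 0 < rho := by rw [hrho]; linarith
  have hrho1 : rho < 1 := by rw [hrho]; linarith
  have hrhoE : 1 - (4 * K)⁻¹ = ENNReal.ofReal rho := by
    rw [hrho, ENNReal.ofReal_sub _ h4p.le, ENNReal.ofReal_one]
    congr 1
    rw [one_div, ENNReal.ofReal_inv_of_pos (by positivity), ENNReal.ofReal_mul (by norm_num),
      ENNReal.ofReal_toReal hKt]
    simp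
  set μ : Measure ℝ := volume.withDensity U with hμ
  have hμI : ∀ a b : ℝ, μ (Ioo a b) = ∫⁻ x in Ioo a b, U x := fun a b =>
    withDensity_apply _ measurableSet_Ioo
  set D : ℕ → ℝ≥0∞ := fun k => ENNReal.ofReal (2 * (2 ^ k) ^ r) * (1 - (4 * K)⁻¹) ^ k * K with hD
  have hD0 : ∀ k, D k ≠ 0 := by
    intro k
    simp only [hD]
    refine mul_ne_zero (mul_ne_zero ?_ ?_) hK0
    · rw [Ne, ENNReal.ofReal_eq_zero]; push Not; positivity
    · rw [hrhoE]
      apply pow_ne_zero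
      rw [Ne, ENNReal.ofReal_eq_zero]; push Not; exact hrho0
  have hDt : ∀ k, D k ≠ ⊤ := by
    intro k
    simp only [hD]
    refine ENNReal.mul_ne_top (ENNReal.mul_ne_top ENNReal.ofReal_ne_top ?_) hKt
    rw [hrhoE]
    exact ENNReal.pow_ne_top ENNReal.ofReal_ne_top
  set c0 : ℝ := 4 + 2 * ((p / 2) / (1 - p / 2)) with hc0
  have hc00 : 0 ≤ c0 := by
    have : 0 ≤ (p / 2) / (1 - p / 2) := div_nonneg hq0.le (by linarith)
    rw [hc0]; linarith
  -- the sum of constants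
  set S : ℝ≥0∞ := ∑' k : ℕ, ENNReal.ofReal (4 * ((2:ℝ) ^ k) ^ (-lam)) ^ (p / 2) *
    (ENNReal.ofReal c0 * D k) with hS
  have hSt : S ≠ ⊤ := by
    have e1 : ∀ k : ℕ, ENNReal.ofReal (4 * ((2:ℝ) ^ k) ^ (-lam)) ^ (p / 2) *
        (ENNReal.ofReal c0 * D k) =
        ENNReal.ofReal (4 ^ (p / 2) * c0 * 2 * rho ^ k) * K := by
      intro k
      simp only [hD]
      rw [hrhoE, ← ENNReal.ofReal_pow hrho0.le, ENNReal.ofReal_rpow_of_pos (by positivity)]
      rw [← mul_assoc, ← mul_assoc, ← mul_assoc]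
      congr 1
      rw [← ENNReal.ofReal_mul (by positivity), ← ENNReal.ofReal_mul (by positivity),
        ← ENNReal.ofReal_mul (by positivity)]
      congr 1
      rw [Real.mul_rpow (by norm_num) (by positivity), ← Real.rpow_mul (by positivity)]
      have e2 : ((2:ℝ) ^ k) ^ (-lam * (p / 2)) * ((2:ℝ) ^ k) ^ r = 1 := by
        rw [← Real.rpow_add (by positivity)]
        have : -lam * (p / 2) + r = 0 := by rw [hr]; ring
        rw [this, Real.rpow_zero]
      calc 4 ^ (p / 2) * ((2:ℝ) ^ k) ^ (-lam * (p / 2)) * c0 * (2 * (2 ^ k) ^ r) * rho ^ k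
          = 4 ^ (p / 2) * c0 * 2 * rho ^ k * (((2:ℝ) ^ k) ^ (-lam * (p / 2)) * (2 ^ k) ^ r) := by
            ring
        _ = _ := by rw [e2, mul_one]
    rw [hS]
    simp only [e1]
    rw [ENNReal.tsum_mul_right]
    apply ENNReal.mul_ne_top _ hKt
    have hs : Summable fun k : ℕ => 4 ^ (p / 2) * c0 * 2 * rho ^ k :=
      (summable_geometric_of_lt_one hrho0.le hrho1).mul_left _
    rw [← ENNReal.ofReal_tsum_of_nonneg (fun k => by positivity) hs]
    exact ENNReal.ofReal_ne_top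
  refine ⟨S.toNNReal, fun Ψ hΨ hΨ0 => ?_⟩
  rw [ENNReal.coe_toNNReal hSt]
  have conv : ∀ G : ℝ → ℝ≥0∞, Measurable G → ∫⁻ x, G x * U x = ∫⁻ x, G x ∂μ := by
    intro G hG
    rw [hμ, lintegral_withDensity_eq_lintegral_mul _ hU.meas hG]
    apply lintegral_congr
    intro x
    simp only [Pi.mul_apply]
    rw [mul_comm]
  rw [conv _ ((measurable_AF hΨ 1).pow_const _)]
  calc ∫⁻ x, GF Ψ lam x ^ (p / 2) * U x
      ≤ ∫⁻ x, (∑' k : ℕ, ENNReal.ofReal (4 * ((2:ℝ) ^ k) ^ (-lam)) ^ (p / 2) *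
          AF Ψ (2 ^ k) x ^ (p / 2)) * U x := by
        apply lintegral_mono
        intro x
        simp only
        gcongr
        calc GF Ψ lam x ^ (p / 2)
            ≤ (∑' k : ℕ, ENNReal.ofReal (4 * ((2:ℝ) ^ k) ^ (-lam)) * AF Ψ (2 ^ k) x) ^ (p / 2) := by
              gcongr
              exact GF_le hΨ hΨ0 h1 h2 x
          _ ≤ ∑' k : ℕ, (ENNReal.ofReal (4 * ((2:ℝ) ^ k) ^ (-lam)) * AF Ψ (2 ^ k) x) ^ (p / 2) :=
              tsum_rpow_le hq0 hq1.le _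
          _ = _ := by
              congr 1
              funext k
              rw [ENNReal.mul_rpow_of_nonneg _ _ hq0.le]
    _ = ∫⁻ x, (∑' k : ℕ, ENNReal.ofReal (4 * ((2:ℝ) ^ k) ^ (-lam)) ^ (p / 2) *
          AF Ψ (2 ^ k) x ^ (p / 2)) ∂μ := by
        apply conv
        exact Measurable.tsum fun k => ((measurable_AF hΨ _).pow_const _).const_mul _
    _ = ∑' k : ℕ, ENNReal.ofReal (4 * ((2:ℝ) ^ k) ^ (-lam)) ^ (p / 2) *
          ∫⁻ x, AF Ψ (2 ^ k) x ^ (p / 2) ∂μ := by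
        rw [lintegral_tsum fun k => (((measurable_AF hΨ _).pow_const _).const_mul _).aemeasurable]
        congr 1
        funext k
        rw [lintegral_const_mul _ ((measurable_AF hΨ _).pow_const _)]
    _ ≤ ∑' k : ℕ, ENNReal.ofReal (4 * ((2:ℝ) ^ k) ^ (-lam)) ^ (p / 2) *
          (ENNReal.ofReal c0 * D k * ∫⁻ x, AF Ψ 1 x ^ (p / 2) ∂μ) := by
        apply ENNReal.tsum_le_tsum
        intro k
        gcongr
        refine aper hq0 hq1 hΨ μ (hD0 k) (hDt k) (one_le_pow₀ one_le_two) ?_ ?_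
        · intro b c
          rw [hμI]
          exact hfin b c
        · intro z y hy
          rw [hμI, hμI, one_mul]
          exact grow hr1 hU.meas hK1 hKt hfin hB z hy k
    _ = S * ∫⁻ x, AF Ψ 1 x ^ (p / 2) ∂μ := by
        rw [hS, ← ENNReal.tsum_mul_right]
        congr 1
        funext k
        ring

end Pool.Agent.Y273.GL
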